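import Mathlib
set_option autoImplicit false
namespace Pool.Agent.Helper277.Zel

/-- Koszul sign. -/
def sg (a b : Bool) : ℚ := if a && b then -1 else 1

theorem sg_false_left (b : Bool) : sg false b = 1 := by simp [sg]
theorem sg_false_right (b : Bool) : sg b false = 1 := by simp [sg]
theorem sg_comm (a b : Bool) : sg a b = sg b a := by simp [sg, Bool.and_comm]
theorem sg_mul_self (a b : Bool) : sg a b * sg a b = 1 := by cases a <;> cases b <;> simp [sg]
theorem sg_xor_left (a b c : Bool) : sg (xor a b) c = sg a c * sg b c := by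
  cases a <;> cases b <;> cases c <;> simp [sg]
theorem sg_xor_right (a b c : Bool) : sg c (xor a b) = sg c a * sg c b := by
  cases a <;> cases b <;> cases c <;> simp [sg]
theorem sg_ne_zero (a b : Bool) : sg a b ≠ 0 := by cases a <;> cases b <;> simp [sg]

/-- Words in homogeneous letters (parity, element). -/
abbrev Wd (A : Type) := List (Bool × A)

section defs
variable {A : Type} [Ring A] [Algebra ℚ A]

/-- Super-symmetrised product of homogeneous letters. -/
def Sy : (n : ℕ) → (Fin n → Bool × A) → A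
  | 0, _ => 1
  | n + 1, z => ∑ i : Fin (n + 1),
      (∏ j ∈ Finset.Iio i, sg (z j).1 (z i).1) • ((z i).2 * Sy n (fun j => z (i.succAbove j)))

/-- A pair of subspaces closed under the super bracket. -/
def Cl (g : Bool → Submodule ℚ A) : Prop :=
  ∀ e f : Bool, ∀ x ∈ g e, ∀ y ∈ g f, x * y - sg e f • (y * x) ∈ g (xor e f)

/-- A super pair of index `m`. -/
structure SPair (m : ℕ) (g : Bool → Submodule ℚ A) : Prop where
  br : Cl g
  idx : ∀ z : Fin m → Bool × A, (∀ i, (z i).2 ∈ g (z i).1) → Sy m z = 0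

/-- Homogeneous words. -/
def Hw (g : Bool → Submodule ℚ A) (w : Wd A) : Prop := ∀ p ∈ w, p.2 ∈ g p.1
/-- Value of a word. -/
def val (w : Wd A) : A := (w.map Prod.snd).prod
/-- Parity of a word. -/
def par {A : Type} (w : Wd A) : Bool := w.foldr (fun p b => xor p.1 b) false

/-- All products of `M` letters vanish. -/
def NilIdx (h : Bool → Submodule ℚ A) (M : ℕ) : Prop :=
  ∀ w : Wd A, Hw h w → w.length = M → val w = 0

/-- Right annihilator of `r` inside the super pair `g`. -/
def Ann (g : Bool → Submodule ℚ A) (r : A) : Bool → Submodule ℚ A :=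
  fun e => g e ⊓ LinearMap.ker (LinearMap.mulLeft ℚ r)

theorem mem_Ann {g : Bool → Submodule ℚ A} {r : A} {e : Bool} {z : A} :
    z ∈ Ann g r e ↔ z ∈ g e ∧ r * z = 0 := by
  simp [Ann]

omit [Algebra ℚ A] in
theorem val_nil : val ([] : Wd A) = 1 := rfl
omit [Algebra ℚ A] in
theorem val_cons (p : Bool × A) (w : Wd A) : val (p :: w) = p.2 * val w := by simp [val]
omit [Algebra ℚ A] in
theorem val_append (v w : Wd A) : val (v ++ w) = val v * val w := by simp [val]

end defs

/-- The global nilpotency statement for index `n`. -/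
def GG (n : ℕ) : Prop :=
  ∃ N : ℕ, ∀ (A : Type) [Ring A] [Algebra ℚ A] (g : Bool → Submodule ℚ A),
    SPair n g → NilIdx g N

/-- The module form of `GG`. -/
def GRel (n N : ℕ) : Prop :=
  ∀ (A : Type) [Ring A] [Algebra ℚ A] (g : Bool → Submodule ℚ A) (X : Submodule ℚ A),
    Cl g → (∀ x ∈ X, ∀ e : Bool, ∀ z ∈ g e, x * z ∈ X) →
    (∀ x ∈ X, ∀ z : Fin n → Bool × A, (∀ i, (z i).2 ∈ g (z i).1) → x * Sy n z = 0) →
    ∀ x ∈ X, ∀ w : Wd A, Hw g w → w.length = N → x * val w = 0

/-- `K` disjoint instances (in order) of words satisfying `I` inside a word. -/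
inductive Occ {A : Type} (I : Wd A → Prop) : ℕ → Wd A → Prop
  | zero (W : Wd A) : Occ I 0 W
  | succ (k : ℕ) (c w W : Wd A) (hw : I w) (hW : Occ I k W) : Occ I (k + 1) (c ++ w ++ W)

/-- Templates: words in bound variables (`inl k`) and free slots of given parity (`inr ε`). -/
abbrev Tpl := List (ℕ ⊕ Bool)

/-- Letter `p` matches the template letter `t`. -/
def Mat {A : Type} [Ring A] [Algebra ℚ A] (g : Bool → Submodule ℚ A) (ρ : ℕ → Bool × A)
    (t : ℕ ⊕ Bool) (p : Bool × A) : Prop :=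
  match t with
  | Sum.inl k => p = ρ k
  | Sum.inr ε => p.1 = ε ∧ p.2 ∈ g ε

/-- The word `w` is an instance of the template `T` for the environment `ρ`. -/
def Inst {A : Type} [Ring A] [Algebra ℚ A] (g : Bool → Submodule ℚ A) (ρ : ℕ → Bool × A)
    (T : Tpl) (w : Wd A) : Prop := List.Forall₂ (Mat g ρ) T w

/-- Words with many disjoint instances of `T` vanish in all super pairs of index `m`. -/
def Nil (m : ℕ) (T : Tpl) (π : ℕ → Bool) : Prop :=
  ∃ K : ℕ, ∀ (A : Type) [Ring A] [Algebra ℚ A] (g : Bool → Submodule ℚ A), SPair m g →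
    ∀ ρ : ℕ → Bool × A, (∀ k, (ρ k).1 = π k ∧ (ρ k).2 ∈ g (ρ k).1) →
    ∀ W : Wd A, Hw g W → Occ (Inst g ρ T) K W → val W = 0

/-- `L`-parameter extension of a super pair by parameters of parity `δ`. -/
structure Ext (m : ℕ) (δ : Bool) (L : ℕ) {A : Type} [Ring A] [Algebra ℚ A]
    (g : Bool → Submodule ℚ A) {B : Type} [Ring B] [Algebra ℚ B]
    (G : Bool → Submodule ℚ B) (ι : Bool → A →ₗ[ℚ] B) (ξ : Fin L → B) : Prop where
  sp : SPair m G
  mul : ∀ (e f : Bool) (a b : A), ι (xor e f) (a * b) = ι e a * ι f b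
  one : ι false 1 = 1
  mem : ∀ (e : Bool), ∀ a ∈ g e, ι e a ∈ G e
  xmem : ∀ (e : Bool) (i : Fin L), ∀ a ∈ g e, ι e a * ξ i ∈ G (xor e δ)
  comm : ∀ (e : Bool) (i : Fin L) (a : A), ξ i * ι e a = sg δ e • (ι e a * ξ i)
  xx : ∀ i j : Fin L, ξ i * ξ j = sg δ δ • (ξ j * ξ i)
  sq : ∀ i : Fin L, ξ i * ξ i = 0
  inj : ∀ (e : Bool) (a : A), ι e a * (List.ofFn ξ).prod = 0 → a = 0

end Pool.Agent.Helper277.Zel
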