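import Mathlib
import Pool.Agent.Helper277.Zel.Defs

set_option autoImplicit false
set_option linter.unusedSectionVars false
set_option linter.all false
namespace Pool.Agent.Helper277.Zel.AnnA1


theorem as836_Cl {A : Type} [Ring A] [Algebra ℚ A] (g : Bool → Submodule ℚ A) (h : Cl g) (r : A) :
    Cl (Ann g r) := by
  intro e f x hx y hy
  rw [mem_Ann] at hx hy ⊢
  refine ⟨h e f x hx.1 y hy.1, ?_⟩
  rw [mul_sub, mul_smul_comm, ← mul_assoc, ← mul_assoc, hx.2, hy.2, zero_mul, zero_mul, smul_zero,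
    sub_zero]

theorem as836_r_Sy {A : Type} [Ring A] [Algebra ℚ A] (r : A) (n : ℕ) (hn : 1 ≤ n)
    (z : Fin n → Bool × A) (hz : ∀ i, r * (z i).2 = 0) : r * Sy n z = 0 := by
  obtain ⟨m, rfl⟩ : ∃ m, n = m + 1 := ⟨n - 1, by omega⟩
  unfold Sy
  rw [Finset.mul_sum]
  apply Finset.sum_eq_zero
  intro i _
  rw [mul_smul_comm, ← mul_assoc, hz, zero_mul, smul_zero]

theorem as836_ry_Sy {A : Type} [Ring A] [Algebra ℚ A] (n : ℕ)
    (g : Bool → Submodule ℚ A) (h : SPair (n + 1) g) (r : A) (e : Bool) (y : A) (hy : y ∈ g e)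
    (z : Fin n → Bool × A) (hz : ∀ i, (z i).2 ∈ Ann g r (z i).1) : r * y * Sy n z = 0 := by
  have h1 : Sy (n + 1) (Fin.cons (e, y) z : Fin (n + 1) → Bool × A) = 0 := by
    apply h.idx
    intro i
    refine Fin.cases ?_ (fun i => ?_) i
    · rw [Fin.cons_zero]; exact hy
    · rw [Fin.cons_succ]; exact (mem_Ann.1 (hz i)).1
  have h2 := congrArg (fun a => r * a) h1
  simp only [mul_zero] at h2
  unfold Sy at h2
  rw [Finset.mul_sum, Fin.sum_univ_succ] at h2
  rw [Finset.sum_eq_zero (s := Finset.univ)] at h2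
  · rw [add_zero] at h2
    have e1 : Finset.Iio (0 : Fin (n + 1)) = ∅ := by
      ext j
      simp
    rw [e1, Finset.prod_empty, one_smul, Fin.cons_zero] at h2
    have e2 : (fun j => (Fin.cons (e, y) z : Fin (n + 1) → Bool × A) ((0 : Fin (n + 1)).succAbove j))
        = z := by
      funext j
      rw [Fin.succAbove_zero, Fin.cons_succ]
    rw [e2] at h2
    rw [mul_assoc]
    exact h2
  · intro i _
    rw [mul_smul_comm, Fin.cons_succ, ← mul_assoc, (mem_Ann.1 (hz i)).2, zero_mul, smul_zero]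

/-- TARGET -/
theorem ann_stab {A : Type} [Ring A] [Algebra ℚ A] (n N : ℕ) (hn : 1 ≤ n) (hrel : GRel n N)
    (g : Bool → Submodule ℚ A) (h : SPair (n + 1) g) (r : A) :
    Cl (Ann g r) ∧ ∀ (e : Bool), ∀ y ∈ g e, ∀ w : Wd A, Hw (Ann g r) w → w.length = N →
      r * y * val w = 0 := by
  have hCl := as836_Cl g h.br r
  refine ⟨hCl, ?_⟩
  intro e y hy w hw hlen
  refine hrel A (Ann g r) (Submodule.span ℚ {x | x = r ∨ ∃ e, ∃ y ∈ g e, x = r * y}) hCl ?_ ?_
    (r * y) (Submodule.subset_span (Or.inr ⟨e, y, hy, rfl⟩)) w hw hlen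
  · intro x hx f z hz
    rw [mem_Ann] at hz
    induction hx using Submodule.span_induction with
    | mem x hx =>
      rcases hx with rfl | ⟨e', y', hy', rfl⟩
      · rw [hz.2]
        exact Submodule.zero_mem _
      · have e1 : r * y' * z = r * (y' * z - sg e' f • (z * y')) := by
          rw [mul_sub, mul_smul_comm, ← mul_assoc, ← mul_assoc, hz.2, zero_mul, smul_zero, sub_zero]
        rw [e1]
        exact Submodule.subset_span (Or.inr ⟨xor e' f, _, h.br e' f y' hy' z hz.1, rfl⟩)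
    | zero => rw [zero_mul]; exact Submodule.zero_mem _
    | add a b _ _ ha hb => rw [add_mul]; exact Submodule.add_mem _ ha hb
    | smul c a _ ha => rw [smul_mul_assoc]; exact Submodule.smul_mem _ c ha
  · intro x hx z hz
    induction hx using Submodule.span_induction with
    | mem x hx =>
      rcases hx with rfl | ⟨e', y', hy', rfl⟩
      · exact as836_r_Sy _ n hn z (fun i => (mem_Ann.1 (hz i)).2)
      · exact as836_ry_Sy n g h r e' y' hy' z hz
    | zero => rw [zero_mul]
    | add a b _ _ ha hb => rw [add_mul, ha, hb, add_zero]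
    | smul c a _ ha => rw [smul_mul_assoc, ha, smul_zero]


end Pool.Agent.Helper277.Zel.AnnA1
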