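import Mathlib
import Pool.Agent.Helper277.Zel.Defs

set_option autoImplicit false
namespace Pool.Agent.Helper277.Zel

/-- Weights: `H 0 = Ann g r`, `H (k+1)` = elements of `g` which the bracket with `Ann g r` moves
into `H k`. -/
def HH {A : Type} [Ring A] [Algebra ℚ A] (g : Bool → Submodule ℚ A) (r : A) :
    ℕ → Bool → Set A
  | 0, e => {w | w ∈ Ann g r e}
  | k + 1, e => {w | w ∈ g e ∧ ∀ f : Bool, ∀ z ∈ Ann g r f,
      w * z - sg e f • (z * w) ∈ HH g r k (xor e f)}


end Pool.Agent.Helper277.Zel
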