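import Mathlib
import Pool.Agent.Helper277.Zel.Defs
import Pool.Agent.Helper277.Zel.HH

set_option autoImplicit false
set_option linter.unusedSectionVars false
set_option linter.all false
namespace Pool.Agent.Helper277.Zel.AnnA2




/-- TARGET 1 -/
theorem HH_top {A : Type} [Ring A] [Algebra ℚ A] (N : ℕ)
    (g : Bool → Submodule ℚ A) (hcl : Cl g) (r : A)
    (hN : ∀ (e : Bool), ∀ y ∈ g e, ∀ w : Wd A, Hw (Ann g r) w → w.length = N →
      r * y * val w = 0) (e : Bool) (y : A) (hy : y ∈ g e) : y ∈ HH g r N e := by
  have key : ∀ (N : ℕ) (e : Bool) (y : A), y ∈ g e →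
      (∀ w : Wd A, Hw (Ann g r) w → w.length = N → r * y * val w = 0) → y ∈ HH g r N e := by
    intro N
    induction N with
    | zero =>
      intro e y hy h
      have h0 := h [] (by intro p hp; simp at hp) rfl
      rw [val_nil, mul_one] at h0
      change y ∈ Ann g r e
      rw [mem_Ann]
      exact ⟨hy, h0⟩
    | succ N ih =>
      intro e y hy h
      refine ⟨hy, ?_⟩
      intro f z hz
      have hz' := mem_Ann.1 hz
      apply ih (xor e f) _ (hcl e f y hy z hz'.1)
      intro w hw hlen
      have h1 := h ((f, z) :: w) (by
        intro p hp
        rcases List.mem_cons.1 hp with hp | hp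
        · rw [hp]; exact hz
        · exact hw p hp) (by simp [hlen])
      rw [val_cons] at h1
      have e1 : r * (y * z - sg e f • (z * y)) * val w
          = r * y * (z * val w) - sg e f • ((r * z) * y * val w) := by
        rw [mul_sub, sub_mul, mul_smul_comm, smul_mul_assoc]
        simp only [mul_assoc]
      rw [e1, h1, hz'.2]
      simp
  exact key N e y hy (hN e y hy)

theorem wk_step {A : Type} [Ring A] [Algebra ℚ A] (s : ℚ) (r a x z b : A)
    (h1 : r * a * (x * z - s • (z * x)) * b = 0) (h2 : r * a * z * (x * b) = 0) :
    r * (a * x) * z * b = 0 := by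
  have e : r * (a * x) * z * b = r * a * (x * z - s • (z * x)) * b + s • (r * a * z * (x * b)) := by
    rw [mul_sub, sub_mul, mul_smul_comm, smul_mul_assoc]
    simp only [mul_assoc]
    abel
  rw [e, h1, h2, smul_zero, add_zero]

theorem wk_first {A : Type} (l : List (ℕ × Bool × A)) (h : ∃ p ∈ l, p.1 = 0) :
    ∃ (l1 l2 : List (ℕ × Bool × A)) (e : Bool) (y : A), l = l1 ++ (0, e, y) :: l2 ∧
      ∀ p ∈ l1, p.1 ≠ 0 := by
  induction l with
  | nil => obtain ⟨p, hp, -⟩ := h; simp at hp
  | cons q l ih =>
    by_cases hq : q.1 = 0
    · refine ⟨[], l, q.2.1, q.2.2, ?_, by simp⟩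
      obtain ⟨k, e, y⟩ := q
      simp only at hq
      subst hq
      rfl
    · obtain ⟨p, hp, hp0⟩ := h
      rcases List.mem_cons.1 hp with hpq | hpl
      · rw [hpq] at hp0
        exact absurd hp0 hq
      · obtain ⟨l1, l2, e, y, hl, h1⟩ := ih ⟨p, hpl, hp0⟩
        refine ⟨q :: l1, l2, e, y, by rw [hl]; rfl, ?_⟩
        intro p' hp'
        rcases List.mem_cons.1 hp' with h | h
        · rw [h]; exact hq
        · exact h1 p' h

/-- TARGET 2: `l` is a list of (weight, parity, element). -/
theorem weight_kill {A : Type} [Ring A] [Algebra ℚ A]
    (g : Bool → Submodule ℚ A) (hcl : Cl g) (r : A) (hcl2 : Cl (Ann g r))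
    (l : List (ℕ × Bool × A)) (hl : ∀ p ∈ l, p.2.2 ∈ HH g r p.1 p.2.1)
    (w : Wd A) (hw : Hw (Ann g r) w) (hlen : w.length = (l.map (fun p => p.1)).sum + 1) :
    r * (l.map (fun p => p.2.2)).prod * val w = 0 := by
  let Cst : ℕ → Prop := fun t => ∀ l : List (ℕ × Bool × A), (∀ p ∈ l, p.2.2 ∈ HH g r p.1 p.2.1) →
    (l.map (fun p => p.1)).sum = t → ∀ w : Wd A, Hw (Ann g r) w → w.length = t + 1 →
    r * (l.map (fun p => p.2.2)).prod * val w = 0
  let C0st : ℕ → Prop := fun t => ∀ l : List (ℕ × Bool × A), (∀ p ∈ l, p.2.2 ∈ HH g r p.1 p.2.1) →
    (l.map (fun p => p.1)).sum = t → (∃ p ∈ l, p.1 = 0) → ∀ w : Wd A, Hw (Ann g r) w →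
    w.length = t → r * (l.map (fun p => p.2.2)).prod * val w = 0
  have hC0 : ∀ t : ℕ, (∀ t', t' < t → Cst t') → C0st t := by
    intro t hC l hl hsum hz w hw hlen
    obtain ⟨l1, l2, e, y, rfl, h1⟩ := wk_first l hz
    have hy : y ∈ Ann g r e := hl (0, e, y) (by simp)
    have claim : ∀ (l1 m : List (ℕ × Bool × A)), (∀ p ∈ l1, p.1 ≠ 0) →
        (∀ p ∈ l1, p.2.2 ∈ HH g r p.1 p.2.1) → (∀ p ∈ m, p.2.2 ∈ HH g r p.1 p.2.1) →
        (l1.map (fun p => p.1)).sum + (m.map (fun p => p.1)).sum = t →
        r * (l1.map (fun p => p.2.2)).prod * y * ((m.map (fun p => p.2.2)).prod * val w) = 0 := by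
      intro l1
      induction l1 using List.reverseRecOn with
      | nil =>
        intro m _ _ _ _
        simp only [List.map_nil, List.prod_nil, mul_one]
        rw [(mem_Ann.1 hy).2, zero_mul]
      | append_singleton l1 q ih =>
        intro m h1 h2 h3 h4
        obtain ⟨k, e', x⟩ := q
        have hk : k ≠ 0 := h1 (k, e', x) (by simp)
        obtain ⟨k, rfl⟩ := Nat.exists_eq_succ_of_ne_zero hk
        have hx : x ∈ HH g r (k + 1) e' := h2 (k + 1, e', x) (by simp)
        have hb : x * y - sg e' e • (y * x) ∈ HH g r k (xor e' e) := hx.2 e y hy
        simp only [List.map_append, List.map_cons, List.map_nil, List.prod_append, List.prod_cons,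
          List.prod_nil, mul_one, List.sum_append, List.sum_cons, List.sum_nil, add_zero,
          Nat.succ_eq_add_one] at h4 ⊢
        apply wk_step (sg e' e)
        · have hlt : (l1.map (fun p => p.1)).sum + k + (m.map (fun p => p.1)).sum < t := by omega
          have h5 := hC _ hlt (l1 ++ (k, xor e' e, x * y - sg e' e • (y * x)) :: m) (by
            intro p hp
            rcases List.mem_append.1 hp with hp | hp
            · exact h2 p (by simp [hp])
            · rcases List.mem_cons.1 hp with hp | hp
              · rw [hp]; exact hb
              · exact h3 p hp) (by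
            simp only [List.map_append, List.map_cons, List.sum_append, List.sum_cons]
            omega) w hw (by omega)
          simp only [List.map_append, List.map_cons, List.prod_append, List.prod_cons] at h5
          simpa only [mul_assoc] using h5
        · have h5 := ih ((k + 1, e', x) :: m) (fun p hp => h1 p (by simp [hp]))
            (fun p hp => h2 p (by simp [hp])) (by
            intro p hp
            rcases List.mem_cons.1 hp with hp | hp
            · rw [hp]; exact hx
            · exact h3 p hp) (by
            simp only [List.map_cons, List.sum_cons]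
            omega)
          simp only [List.map_cons, List.prod_cons] at h5
          simpa only [mul_assoc] using h5
    have h6 := claim l1 l2 h1 (fun p hp => hl p (by simp [hp])) (fun p hp => hl p (by simp [hp]))
      (by
        simp only [List.map_append, List.map_cons, List.sum_append, List.sum_cons] at hsum
        omega)
    simp only [List.map_append, List.map_cons, List.prod_append, List.prod_cons]
    simpa only [mul_assoc] using h6
  have hC : ∀ t : ℕ, Cst t := by
    intro t
    induction t using Nat.strong_induction_on with
    | _ t iht =>
      have hC0t : C0st t := hC0 t iht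
      intro l hl hsum w hw hlen
      obtain ⟨⟨f, z⟩, w', rfl⟩ := List.exists_cons_of_length_eq_add_one hlen
      have hz : z ∈ Ann g r f := hw (f, z) (by simp)
      have hw' : Hw (Ann g r) w' := fun p hp => hw p (by simp [hp])
      have hlen' : w'.length = t := by simpa using hlen
      have claim : ∀ (l1 m : List (ℕ × Bool × A)),
          (∀ p ∈ l1, p.2.2 ∈ HH g r p.1 p.2.1) → (∀ p ∈ m, p.2.2 ∈ HH g r p.1 p.2.1) →
          (l1.map (fun p => p.1)).sum + (m.map (fun p => p.1)).sum = t →
          r * (l1.map (fun p => p.2.2)).prod * z * ((m.map (fun p => p.2.2)).prod * val w') = 0 := by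
        intro l1
        induction l1 using List.reverseRecOn with
        | nil =>
          intro m _ _ _
          simp only [List.map_nil, List.prod_nil, mul_one]
          rw [(mem_Ann.1 hz).2, zero_mul]
        | append_singleton l1 q ih =>
          intro m h2 h3 h4
          obtain ⟨k, e', x⟩ := q
          have hx : x ∈ HH g r k e' := h2 (k, e', x) (by simp)
          simp only [List.map_append, List.map_cons, List.map_nil, List.prod_append,
            List.prod_cons, List.prod_nil, mul_one, List.sum_append, List.sum_cons, List.sum_nil,
            add_zero] at h4 ⊢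
          apply wk_step (sg e' f)
          · cases k with
            | zero =>
              have hb : x * z - sg e' f • (z * x) ∈ Ann g r (xor e' f) := hcl2 e' f x hx z hz
              have h5 := hC0t (l1 ++ (0, xor e' f, x * z - sg e' f • (z * x)) :: m) (by
                intro p hp
                rcases List.mem_append.1 hp with hp | hp
                · exact h2 p (by simp [hp])
                · rcases List.mem_cons.1 hp with hp | hp
                  · rw [hp]; exact hb
                  · exact h3 p hp) (by
                simp only [List.map_append, List.map_cons, List.sum_append, List.sum_cons]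
                omega) ⟨(0, xor e' f, x * z - sg e' f • (z * x)), by simp, rfl⟩ w' hw' hlen'
              simp only [List.map_append, List.map_cons, List.prod_append, List.prod_cons] at h5
              simpa only [mul_assoc] using h5
            | succ k =>
              have hb : x * z - sg e' f • (z * x) ∈ HH g r k (xor e' f) := hx.2 f z hz
              have hlt : (l1.map (fun p => p.1)).sum + k + (m.map (fun p => p.1)).sum < t := by
                omega
              have h5 := iht _ hlt (l1 ++ (k, xor e' f, x * z - sg e' f • (z * x)) :: m) (by
                intro p hp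
                rcases List.mem_append.1 hp with hp | hp
                · exact h2 p (by simp [hp])
                · rcases List.mem_cons.1 hp with hp | hp
                  · rw [hp]; exact hb
                  · exact h3 p hp) (by
                simp only [List.map_append, List.map_cons, List.sum_append, List.sum_cons]
                omega) w' hw' (by omega)
              simp only [List.map_append, List.map_cons, List.prod_append, List.prod_cons] at h5
              simpa only [mul_assoc] using h5
          · have h5 := ih ((k, e', x) :: m)
              (fun p hp => h2 p (by simp [hp])) (by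
              intro p hp
              rcases List.mem_cons.1 hp with hp | hp
              · rw [hp]; exact hx
              · exact h3 p hp) (by
              simp only [List.map_cons, List.sum_cons]
              omega)
            simp only [List.map_cons, List.prod_cons] at h5
            simpa only [mul_assoc] using h5
      have h6 := claim l [] hl (by simp) (by simpa using hsum)
      simp only [List.map_nil, List.prod_nil, one_mul] at h6
      rw [val_cons, ← mul_assoc]
      exact h6
  exact hC _ l hl rfl w hw hlen


end Pool.Agent.Helper277.Zel.AnnA2
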