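import Mathlib
import Pool.Agent.Helper277.Zel.Defs

set_option autoImplicit false
set_option linter.unusedSectionVars false
set_option linter.all false
namespace Pool.Agent.Helper277.Zel


section occ
variable {A : Type} {I J : Wd A → Prop}

/-- TARGETS: elementary facts on `Occ`. -/
theorem Occ.append_left {k : ℕ} {W : Wd A} (c : Wd A) (h : Occ I k W) : Occ I k (c ++ W) := by
  cases h with
  | zero W => exact Occ.zero _
  | succ k c' w W hw hW =>
    have h2 : c ++ (c' ++ w ++ W) = (c ++ c') ++ w ++ W := by simp [List.append_assoc]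
    rw [h2]
    exact Occ.succ k _ w W hw hW

theorem Occ.append_right {k : ℕ} {W : Wd A} (t : Wd A) (h : Occ I k W) : Occ I k (W ++ t) := by
  induction h with
  | zero W => exact Occ.zero _
  | succ k c w W hw hW ih =>
    have h2 : (c ++ w ++ W) ++ t = c ++ w ++ (W ++ t) := by simp [List.append_assoc]
    rw [h2]
    exact Occ.succ k c w _ hw ih

theorem Occ.drop_one : ∀ (k : ℕ) (W : Wd A), Occ I (k + 1) W → Occ I k W := by
  intro k
  induction k with
  | zero => intro W _; exact Occ.zero _
  | succ k ih =>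
    intro W h
    cases h with
    | succ _ c w W hw hW => exact Occ.succ k c w W hw (ih W hW)

theorem Occ.of_le {k K : ℕ} {W : Wd A} (hk : k ≤ K) (h : Occ I K W) : Occ I k W := by
  induction hk with
  | refl => exact h
  | step _ ih => exact ih (Occ.drop_one _ _ h)

theorem Occ.imp {k : ℕ} {W : Wd A} (hIJ : ∀ w, I w → J w) (h : Occ I k W) : Occ J k W := by
  induction h with
  | zero W => exact Occ.zero _
  | succ k c w W hw hW ih => exact Occ.succ k c w W (hIJ w hw) ih

theorem Occ.union {k : ℕ} {W : Wd A} (h : Occ (fun w => I w ∨ J w) k W) :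
    ∃ k1 k2 : ℕ, k1 + k2 = k ∧ Occ I k1 W ∧ Occ J k2 W := by
  induction h with
  | zero W => exact ⟨0, 0, rfl, Occ.zero _, Occ.zero _⟩
  | succ k c w W hw hW ih =>
    obtain ⟨k1, k2, hk, h1, h2⟩ := ih
    rcases hw with hw | hw
    · exact ⟨k1 + 1, k2, by omega, Occ.succ k1 c w W hw h1, Occ.append_left (c ++ w) h2⟩
    · exact ⟨k1, k2 + 1, by omega, Occ.append_left (c ++ w) h1, Occ.succ k2 c w W hw h2⟩

theorem occ_ofFn : ∀ (L : ℕ) (b : Fin L → Wd A) (Q : Finset (Fin L)),
    (∀ i ∈ Q, ∃ c w : Wd A, b i = c ++ w ∧ I w) → Occ I Q.card (List.ofFn b).flatten := by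
  intro L
  induction L with
  | zero =>
    intro b Q _
    have : Q.card = 0 := by
      rw [Finset.card_eq_zero]
      exact Finset.eq_empty_of_isEmpty Q
    rw [this]
    exact Occ.zero _
  | succ L ih =>
    intro b Q hQ
    have h1 := ih (fun i => b i.succ) (Finset.univ.filter (fun i => i.succ ∈ Q)) (by
      intro i hi
      exact hQ _ (by simpa using hi))
    have h2 := Fin.card_filter_univ_succ (fun i => i ∈ Q)
    rw [Finset.filter_univ_mem] at h2
    rw [List.ofFn_succ, List.flatten_cons, h2]
    by_cases h0 : (0 : Fin (L + 1)) ∈ Q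
    · rw [if_pos h0]
      obtain ⟨c, w, hb, hw⟩ := hQ 0 h0
      rw [hb]
      exact Occ.succ _ c w _ hw h1
    · rw [if_neg h0]
      exact Occ.append_left _ h1

theorem occ_decomp : ∀ (L : ℕ) (W : Wd A), Occ I L W →
    ∃ (c w : Fin L → Wd A) (t : Wd A), (∀ i, I (w i)) ∧
      W = (List.ofFn (fun i => c i ++ w i)).flatten ++ t := by
  intro L
  induction L with
  | zero =>
    intro W _
    exact ⟨Fin.elim0, Fin.elim0, W, fun i => i.elim0, by simp⟩
  | succ L ih =>
    intro W h
    cases h with
    | succ _ c w W hw hW =>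
      obtain ⟨c', w', t, hI, hW2⟩ := ih W hW
      refine ⟨Fin.cons c c', Fin.cons w w', t, ?_, ?_⟩
      · intro i
        refine Fin.cases ?_ ?_ i
        · simpa using hw
        · intro j
          simpa using hI j
      · rw [List.ofFn_succ, List.flatten_cons]
        simp only [Fin.cons_zero, Fin.cons_succ]
        rw [hW2]
        simp [List.append_assoc]

end occ


end Pool.Agent.Helper277.Zel
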