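import Mathlib
import Pool.Agent.Helper277.Zel.Defs
import Pool.Agent.Helper277.Zel.OccL

set_option autoImplicit false
set_option linter.unusedSectionVars false
set_option linter.all false
namespace Pool.Agent.Helper277.Zel.Bind








theorem j14371_split {α β : Type} {R : α → β → Prop} : ∀ (l1 l2 : List α) (m : List β),
    List.Forall₂ R (l1 ++ l2) m → ∃ m1 m2 : List β, m = m1 ++ m2 ∧ List.Forall₂ R l1 m1 ∧
      List.Forall₂ R l2 m2
  | [], l2, m, h => ⟨[], m, rfl, List.Forall₂.nil, h⟩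
  | a :: l1, l2, m, h => by
    cases h with
    | cons hab ht =>
      obtain ⟨m1, m2, e, h1, h2⟩ := j14371_split l1 l2 _ ht
      exact ⟨_ :: m1, m2, by rw [e]; rfl, List.Forall₂.cons hab h1, h2⟩

theorem j14371_valfl {A : Type} [Ring A] : ∀ (l : List (Wd A)),
    val l.flatten = (l.map val).prod
  | [] => rfl
  | a :: l => by
    rw [List.flatten_cons, val_append, j14371_valfl l, List.map_cons, List.prod_cons]

theorem j14371_valmw {A : Type} [Ring A] [Algebra ℚ A] {B : Type} [Ring B] [Algebra ℚ B]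
    (ι : Bool → A →ₗ[ℚ] B)
    (hmul : ∀ (e f : Bool) (a b : A), ι (xor e f) (a * b) = ι e a * ι f b)
    (hone : ι false 1 = 1) : ∀ w : Wd A,
    val (w.map (fun p => (p.1, ι p.1 p.2))) = ι (par w) (val w)
  | [] => by
    change (1 : B) = ι false 1
    rw [hone]
  | p :: w => by
    rw [List.map_cons, val_cons, val_cons, j14371_valmw ι hmul hone w, ← hmul]
    rfl

theorem j14371_hwmw {A : Type} [Ring A] [Algebra ℚ A] {B : Type} [Ring B] [Algebra ℚ B]
    {g : Bool → Submodule ℚ A} {G : Bool → Submodule ℚ B} (ι : Bool → A →ₗ[ℚ] B)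
    (hmem : ∀ (e : Bool), ∀ a ∈ g e, ι e a ∈ G e) {w : Wd A} (hw : Hw g w) :
    Hw G (w.map (fun p => (p.1, ι p.1 p.2))) := by
  intro p hp
  obtain ⟨q, hq, rfl⟩ := List.mem_map.1 hp
  exact hmem _ _ (hw q hq)

theorem j14371_instmw {A : Type} [Ring A] [Algebra ℚ A] {B : Type} [Ring B] [Algebra ℚ B]
    {g : Bool → Submodule ℚ A} {G : Bool → Submodule ℚ B} (ι : Bool → A →ₗ[ℚ] B)
    (hmem : ∀ (e : Bool), ∀ a ∈ g e, ι e a ∈ G e) (ρ : ℕ → Bool × A) (π : ℕ → Bool)
    (hρ : ∀ j, (ρ j).1 = π j) (k : ℕ) (z : Bool × B) {T : Tpl} {u : Wd A}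
    (h : List.Forall₂ (Mat g ρ) T u) : Sum.inl k ∉ T →
    List.Forall₂ (Mat G (Function.update (fun j => (π j, ι (π j) (ρ j).2)) k z)) T
      (u.map (fun p => (p.1, ι p.1 p.2))) := by
  induction h with
  | nil => intro _; exact List.Forall₂.nil
  | @cons t p T u hab _ ih =>
    intro hk
    rw [List.mem_cons, not_or] at hk
    refine List.Forall₂.cons ?_ (ih hk.2)
    rcases t with j | e
    · have hjk : j ≠ k := fun hh => hk.1 (by rw [hh])
      have hp : p = ρ j := hab
      change (p.1, ι p.1 p.2) =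
        Function.update (fun j => (π j, ι (π j) (ρ j).2)) k z j
      rw [Function.update_of_ne hjk, hp, hρ j]
    · obtain ⟨h1, h2⟩ : p.1 = e ∧ p.2 ∈ g e := hab
      change p.1 = e ∧ ι p.1 p.2 ∈ G e
      refine ⟨h1, ?_⟩
      rw [h1]
      exact hmem _ _ h2

theorem j14371_hwfl {A : Type} [Ring A] [Algebra ℚ A] {g : Bool → Submodule ℚ A} {L : ℕ}
    {b : Fin L → Wd A} : Hw g (List.ofFn b).flatten ↔ ∀ i, Hw g (b i) := by
  constructor
  · intro h i p hp
    exact h p (List.mem_flatten.2 ⟨b i, List.mem_ofFn.2 ⟨i, rfl⟩, hp⟩)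
  · intro h p hp
    obtain ⟨l, hl, hpl⟩ := List.mem_flatten.1 hp
    obtain ⟨i, rfl⟩ := List.mem_ofFn.1 hl
    exact h i p hpl

theorem j14371_hwapp {A : Type} [Ring A] [Algebra ℚ A] {g : Bool → Submodule ℚ A}
    {v w : Wd A} : Hw g (v ++ w) ↔ Hw g v ∧ Hw g w := by
  constructor
  · intro h
    exact ⟨fun p hp => h p (List.mem_append.2 (Or.inl hp)),
      fun p hp => h p (List.mem_append.2 (Or.inr hp))⟩
  · rintro ⟨h1, h2⟩ p hp
    rcases List.mem_append.1 hp with hp | hp
    · exact h1 p hp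
    · exact h2 p hp

theorem j14371_valofFn {A : Type} [Ring A] {L : ℕ} (b : Fin L → Wd A) :
    val (List.ofFn b).flatten = (List.ofFn (fun i => val (b i))).prod := by
  rw [j14371_valfl, List.map_ofFn]
  rfl

/-- TARGET: binding a free slot. -/
theorem bind_nil (m : ℕ) (T1 T2 : Tpl) (ε : Bool) (k : ℕ) (hk1 : Sum.inl k ∉ T1)
    (hk2 : Sum.inl k ∉ T2) (π : ℕ → Bool)
    (h0 : Nil m (T1 ++ [Sum.inl k] ++ T2) (Function.update π k ε))
    (h1 : Nil m (T1 ++ [Sum.inl k] ++ T2) (Function.update π k (!ε)))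
    (hext : ∀ (δ : Bool) (L : ℕ) (A : Type) [Ring A] [Algebra ℚ A] (g : Bool → Submodule ℚ A),
      SPair m g → ∃ (B : Type) (_ : Ring B) (_ : Algebra ℚ B) (G : Bool → Submodule ℚ B)
        (ι : Bool → A →ₗ[ℚ] B) (ξ : Fin L → B), Ext m δ L g G ι ξ)
    (hcore : ∀ (A : Type) [Ring A] [Algebra ℚ A] (g : Bool → Submodule ℚ A) (ε : Bool)
      (K L : ℕ), 1 ≤ K → (K - 1) * (K - 1) < L → ∀ (p q : Fin L → Bool × A),
      (∀ δ : Bool, ∃ (B : Type) (_ : Ring B) (_ : Algebra ℚ B) (G : Bool → Submodule ℚ B)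
        (ι : Bool → A →ₗ[ℚ] B) (ξ : Fin L → B), Ext m δ L g G ι ξ ∧
        ∀ Q : Finset (Fin L), Q.card = K → ∀ y ∈ G (xor ε δ), ∀ y' : Fin L → B,
          (∀ i, y' i ∈ G (xor ε δ)) →
          (List.ofFn (fun i => ι (p i).1 (p i).2 * (if i ∈ Q then y else y' i) *
            ι (q i).1 (q i).2)).prod = 0) →
      ∀ a : Fin L → A, (∀ i, a i ∈ g ε) →
        (List.ofFn (fun i => (p i).2 * a i * (q i).2)).prod = 0) :
    Nil m (T1 ++ [Sum.inr ε] ++ T2) π := by
  obtain ⟨K0, hK0⟩ := h0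
  obtain ⟨K1, hK1⟩ := h1
  set K : ℕ := max K0 K1 + 1 with hK
  have hK0' : K0 ≤ K := (le_max_left _ _).trans (Nat.le_succ _)
  have hK1' : K1 ≤ K := (le_max_right _ _).trans (Nat.le_succ _)
  have hKpos : 1 ≤ K := Nat.succ_le_succ (Nat.zero_le _)
  have hNil : ∀ (δ : Bool) (B : Type) [Ring B] [Algebra ℚ B] (G : Bool → Submodule ℚ B),
      SPair m G → ∀ ρ' : ℕ → Bool × B,
      (∀ j, (ρ' j).1 = Function.update π k (xor ε δ) j ∧ (ρ' j).2 ∈ G (ρ' j).1) →
      ∀ W' : Wd B, Hw G W' → Occ (Inst G ρ' (T1 ++ [Sum.inl k] ++ T2)) K W' → val W' = 0 := by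
    intro δ B _ _ G hG ρ' hρ' W' hW' hocc
    cases δ with
    | false =>
      refine hK0 B G hG ρ' (fun j => ?_) W' hW' (hocc.of_le hK0')
      have := hρ' j
      rwa [Bool.xor_false] at this
    | true =>
      refine hK1 B G hG ρ' (fun j => ?_) W' hW' (hocc.of_le hK1')
      have := hρ' j
      rwa [Bool.xor_true] at this
  refine ⟨K * K, ?_⟩
  intro A _ _ g hg ρ hρ W hW hocc
  obtain ⟨c, w, t, hw, hWeq⟩ := occ_decomp (K * K) W hocc
  have hsplit : ∀ i, ∃ (u u' : Wd A) (a : A), w i = u ++ [(ε, a)] ++ u' ∧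
      List.Forall₂ (Mat g ρ) T1 u ∧ List.Forall₂ (Mat g ρ) T2 u' ∧ a ∈ g ε := by
    intro i
    obtain ⟨m1, m2, e1, h1, h2⟩ := j14371_split (T1 ++ [Sum.inr ε]) T2 (w i) (hw i)
    obtain ⟨m3, m4, e2, h3, h4⟩ := j14371_split T1 [Sum.inr ε] m1 h1
    cases h4 with
    | @cons _ p _ l hab hnil =>
      cases hnil
      obtain ⟨h5, h6⟩ : p.1 = ε ∧ p.2 ∈ g ε := hab
      refine ⟨m3, m2, p.2, ?_, h3, h2, h6⟩
      rw [e1, e2, ← h5]
  choose u u' a hwi hu hu' ha using hsplit
  have hval : val W = (List.ofFn (fun i => val (c i ++ u i) * a i * val (u' i))).prod * val t := by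
    rw [hWeq, val_append, j14371_valofFn]
    congr 2
    refine congrArg List.ofFn (funext fun i => ?_)
    rw [hwi i, val_append, val_append, val_append, val_append, val_cons, val_nil, mul_one,
      mul_assoc, mul_assoc, mul_assoc]
  have hcu : ∀ i, Hw g (c i ++ u i) ∧ Hw g (u' i) := by
    intro i
    rw [hWeq, j14371_hwapp, j14371_hwfl] at hW
    have h1 := hW.1 i
    rw [hwi i, j14371_hwapp, j14371_hwapp, j14371_hwapp] at h1
    exact ⟨j14371_hwapp.2 ⟨h1.1, h1.2.1.1⟩, h1.2.2⟩
  have hprod : (List.ofFn (fun i => val (c i ++ u i) * a i * val (u' i))).prod = 0 := by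
    refine hcore A g ε K (K * K) hKpos ?_ (fun i => (par (c i ++ u i), val (c i ++ u i)))
      (fun i => (par (u' i), val (u' i))) ?_ a ha
    · obtain ⟨r, hr⟩ : ∃ r, K = r + 1 := ⟨max K0 K1, hK⟩
      rw [hr, Nat.add_sub_cancel]
      nlinarith
    · intro δ
      obtain ⟨B, iR, iA, G, ι, ξ, hE⟩ := hext δ (K * K) A g hg
      refine ⟨B, iR, iA, G, ι, ξ, hE, ?_⟩
      intro Q hQ y hy y' hy'
      set b : Fin (K * K) → Wd B := fun i =>
        (c i ++ u i).map (fun p => (p.1, ι p.1 p.2)) ++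
          [(xor ε δ, if i ∈ Q then y else y' i)] ++
          (u' i).map (fun p => (p.1, ι p.1 p.2)) with hb
      have hv : val (List.ofFn b).flatten = (List.ofFn (fun i => ι (par (c i ++ u i))
          (val (c i ++ u i)) * (if i ∈ Q then y else y' i) *
            ι (par (u' i)) (val (u' i)))).prod := by
        rw [j14371_valofFn]
        refine congrArg List.prod (congrArg List.ofFn (funext fun i => ?_))
        rw [hb]
        change val ((c i ++ u i).map (fun p => (p.1, ι p.1 p.2)) ++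
          [(xor ε δ, if i ∈ Q then y else y' i)] ++
          (u' i).map (fun p => (p.1, ι p.1 p.2))) = _
        rw [val_append, val_append, val_cons, val_nil, mul_one,
          j14371_valmw ι hE.mul hE.one, j14371_valmw ι hE.mul hE.one]
      change (List.ofFn (fun i => ι (par (c i ++ u i))
          (val (c i ++ u i)) * (if i ∈ Q then y else y' i) *
            ι (par (u' i)) (val (u' i)))).prod = 0
      rw [← hv]
      refine hNil δ B G hE.sp (Function.update (fun j => (π j, ι (π j) (ρ j).2)) k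
        (xor ε δ, y)) ?_ _ ?_ ?_
      · intro j
        by_cases hj : j = k
        · subst hj
          rw [Function.update_self, Function.update_self]
          exact ⟨rfl, hy⟩
        · rw [Function.update_of_ne hj, Function.update_of_ne hj]
          refine ⟨rfl, ?_⟩
          have h1 := hρ j
          rw [h1.1] at h1
          exact hE.mem _ _ h1.2
      · rw [j14371_hwfl]
        intro i
        rw [hb]
        change Hw G ((c i ++ u i).map (fun p => (p.1, ι p.1 p.2)) ++
          [(xor ε δ, if i ∈ Q then y else y' i)] ++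
          (u' i).map (fun p => (p.1, ι p.1 p.2)))
        rw [j14371_hwapp, j14371_hwapp]
        refine ⟨⟨j14371_hwmw ι hE.mem (hcu i).1, ?_⟩, j14371_hwmw ι hE.mem (hcu i).2⟩
        intro p hp
        rw [List.mem_singleton] at hp
        rw [hp]
        change (if i ∈ Q then y else y' i) ∈ G (xor ε δ)
        split_ifs
        · exact hy
        · exact hy' i
      · refine (congrArg (fun r => Occ (Inst G (Function.update
          (fun j => (π j, (ι (π j)) (ρ j).2)) k (xor ε δ, y)) (T1 ++ [Sum.inl k] ++ T2)) r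
          (List.ofFn b).flatten) hQ).mp (occ_ofFn (K * K) b Q ?_)
        intro i hi
        refine ⟨(c i).map (fun p => (p.1, ι p.1 p.2)),
          (u i).map (fun p => (p.1, ι p.1 p.2)) ++ [(xor ε δ, y)] ++
            (u' i).map (fun p => (p.1, ι p.1 p.2)), ?_, ?_⟩
        · rw [hb]
          change (c i ++ u i).map (fun p => (p.1, ι p.1 p.2)) ++
            [(xor ε δ, if i ∈ Q then y else y' i)] ++
            (u' i).map (fun p => (p.1, ι p.1 p.2)) = _
          rw [if_pos hi, List.map_append, List.append_assoc, List.append_assoc, List.append_assoc]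
        · have hρ1 : ∀ j, (ρ j).1 = π j := fun j => (hρ j).1
          refine List.rel_append (List.rel_append
            (j14371_instmw ι hE.mem ρ π hρ1 k (xor ε δ, y) (hu i) hk1) ?_)
            (j14371_instmw ι hE.mem ρ π hρ1 k (xor ε δ, y) (hu' i) hk2)
          refine List.Forall₂.cons ?_ List.Forall₂.nil
          change (xor ε δ, y) = Function.update (fun j => (π j, ι (π j) (ρ j).2)) k
            (xor ε δ, y) k
          rw [Function.update_self]
  rw [hval, hprod, zero_mul]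


end Pool.Agent.Helper277.Zel.Bind
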