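import Mathlib
import Pool.Agent.Helper277.Zel.Defs

set_option autoImplicit false
set_option linter.unusedSectionVars false
set_option linter.all false
namespace Pool.Agent.Helper277.Zel.Bindcore


/-- sign or one -/
def csg {L : ℕ} (d : Bool) (σ : Equiv.Perm (Fin L)) : ℚ :=
  if d then ((Equiv.Perm.sign σ : ℤ) : ℚ) else 1

theorem csg_mul {L : ℕ} (d : Bool) (σ τ : Equiv.Perm (Fin L)) :
    csg d (σ * τ) = csg d σ * csg d τ := by
  cases d <;> simp [csg]

theorem csg_self {L : ℕ} (d : Bool) (σ : Equiv.Perm (Fin L)) : csg d σ * csg d σ = 1 := by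
  cases d
  · simp [csg]
  · simp only [csg, if_true]
    rcases Int.units_eq_one_or (Equiv.Perm.sign σ) with h | h <;> simp [h]

theorem csg_one {L : ℕ} (d : Bool) : csg d (1 : Equiv.Perm (Fin L)) = 1 := by
  cases d <;> simp [csg]

theorem csg_conj {L : ℕ} (d : Bool) (σ τ : Equiv.Perm (Fin L)) :
    csg d (τ⁻¹ * σ * τ) = csg d σ := by
  rw [csg_mul, csg_mul, mul_comm (csg d τ⁻¹), mul_assoc, ← csg_mul, inv_mul_cancel, csg_one,
    mul_one]

/-- the permutation action on functions -/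
def prho (L : ℕ) (S A : Type) [AddCommGroup A] [Module ℚ A] :
    Equiv.Perm (Fin L) →* Module.End ℚ ((Fin L → S) → A) where
  toFun σ :=
    { toFun := fun F a => F (fun i => a (σ i))
      map_add' := fun _ _ => rfl
      map_smul' := fun _ _ => rfl }
  map_one' := rfl
  map_mul' _ _ := rfl

theorem prho_apply {L : ℕ} {S A : Type} [AddCommGroup A] [Module ℚ A] (σ : Equiv.Perm (Fin L))
    (F : (Fin L → S) → A) (a : Fin L → S) : prho L S A σ F a = F (fun i => a (σ i)) := rfl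

/-- permutations fixing everything off `Q` -/
def fxp {L : ℕ} (Q : Finset (Fin L)) : Finset (Equiv.Perm (Fin L)) :=
  Finset.univ.filter (fun σ : Equiv.Perm (Fin L) => ∀ i, i ∉ Q → σ i = i)

theorem mem_fxp {L : ℕ} (Q : Finset (Fin L)) (σ : Equiv.Perm (Fin L)) :
    σ ∈ fxp Q ↔ ∀ i, i ∉ Q → σ i = i := by simp [fxp]

theorem fxp_act {L : ℕ} {S A : Type} [AddCommGroup A] [Module ℚ A] (d : Bool)
    (Q : Finset (Fin L)) (F : (Fin L → S) → A)
    (h : ∀ a ∈ Q, ∀ b ∈ Q, a ≠ b → prho L S A (Equiv.swap a b) F = csg d (Equiv.swap a b) • F)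
    (σ : Equiv.Perm (Fin L)) (hσ : σ ∈ fxp Q) : prho L S A σ F = csg d σ • F := by
  rw [mem_fxp] at hσ
  have h1 : ∀ x, σ x ∈ Q ↔ x ∈ Q := by
    intro x
    constructor
    · intro hx
      by_contra hx'
      rw [hσ x hx'] at hx
      exact hx' hx
    · intro hx
      by_contra hx'
      have := hσ _ hx'
      have := σ.injective this
      rw [this] at hx'
      exact hx' hx
  have h2 : ∀ x, σ x ≠ x → x ∈ Q := by
    intro x hx
    by_contra hx'
    exact hx (hσ x hx')
  have h3 : Equiv.Perm.ofSubtype (Equiv.Perm.subtypePerm σ h1) = σ :=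
    Equiv.Perm.ofSubtype_subtypePerm h1 h2
  rw [← h3]
  generalize Equiv.Perm.subtypePerm σ h1 = σ'
  induction σ' using Equiv.Perm.swap_induction_on with
  | one =>
    rw [map_one, map_one, csg_one, one_smul]; rfl
  | swap_mul f x y hxy ih =>
    rw [map_mul, map_mul, csg_mul, Module.End.mul_apply, ih, map_smul,
      Equiv.Perm.ofSubtype_swap_eq, h x.1 x.2 y.1 y.2 (fun h => hxy (Subtype.ext h)), smul_smul,
      mul_comm]

/-- the functions whose (skew) symmetrizations vanish -/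
def Nsub (L K : ℕ) (S A : Type) [AddCommGroup A] [Module ℚ A] :
    Submodule ℚ ((Fin L → S) → A) where
  carrier := {F | ∀ (d : Bool) (Q : Finset (Fin L)), Q.card = K → ∀ a : Fin L → S,
    ∑ σ ∈ fxp Q, csg d σ • F (fun i => a (σ i)) = 0}
  zero_mem' := by
    intro d Q _ a
    simp
  add_mem' := by
    intro F G hF hG d Q hQ a
    have h1 := hF d Q hQ a
    have h2 := hG d Q hQ a
    simp only [Pi.add_apply, smul_add, Finset.sum_add_distrib, h1, h2, add_zero]
  smul_mem' := by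
    intro c F hF d Q hQ a
    have h1 := hF d Q hQ a
    simp only [Pi.smul_apply]
    have : ∀ σ ∈ fxp Q, csg d σ • c • F (fun i => a (σ i)) = c • csg d σ • F (fun i => a (σ i)) := by
      intro σ _
      rw [smul_comm]
    rw [Finset.sum_congr rfl this, ← Finset.smul_sum, h1, smul_zero]

theorem Nsub_stable {L K : ℕ} {S A : Type} [AddCommGroup A] [Module ℚ A]
    (τ : Equiv.Perm (Fin L)) (F : (Fin L → S) → A) (hF : F ∈ Nsub L K S A) :
    prho L S A τ F ∈ Nsub L K S A := by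
  intro d Q hQ a
  have h1 := hF d (Q.map (τ⁻¹ : Equiv.Perm (Fin L)).toEmbedding) (by simpa using hQ)
    (fun i => a (τ i))
  rw [← h1]
  refine Finset.sum_bij (fun σ _ => τ⁻¹ * σ * τ) ?_ ?_ ?_ ?_
  · intro σ hσ
    rw [mem_fxp] at hσ ⊢
    intro i hi
    have : τ i ∉ Q := by
      intro h
      apply hi
      rw [Finset.mem_map]
      exact ⟨τ i, h, by simp⟩
    show τ⁻¹ (σ (τ i)) = i
    rw [hσ _ this]
    simp
  · intro σ _ σ' _ h
    simpa using h
  · intro σ hσ
    refine ⟨τ * σ * τ⁻¹, ?_, ?_⟩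
    · rw [mem_fxp] at hσ ⊢
      intro i hi
      have : τ⁻¹ i ∉ Q.map (τ⁻¹ : Equiv.Perm (Fin L)).toEmbedding := by
        intro h
        rw [Finset.mem_map] at h
        obtain ⟨j, hj, hj2⟩ := h
        have : j = i := by
          have : τ⁻¹ j = τ⁻¹ i := hj2
          exact (τ⁻¹).injective this
        rw [this] at hj
        exact hi hj
      show τ (σ (τ⁻¹ i)) = i
      rw [hσ _ this]
      simp
    · group
  · intro σ _
    rw [csg_conj, prho_apply]
    congr 2
    ext i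
    show a (σ (τ i)) = a (τ (τ⁻¹ (σ (τ i))))
    simp

theorem Nsub_zero {L K : ℕ} {S A : Type} [AddCommGroup A] [Module ℚ A] (d : Bool)
    (Q : Finset (Fin L)) (hQ : Q.card = K) (F : (Fin L → S) → A) (hF : F ∈ Nsub L K S A)
    (h : ∀ a ∈ Q, ∀ b ∈ Q, a ≠ b → prho L S A (Equiv.swap a b) F = csg d (Equiv.swap a b) • F) :
    F = 0 := by
  funext a
  have h1 := hF d Q hQ a
  have h2 : ∀ σ ∈ fxp Q, csg d σ • F (fun i => a (σ i)) = F a := by
    intro σ hσ
    have := congrFun (fxp_act d Q F h σ hσ) a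
    rw [prho_apply] at this
    rw [this, Pi.smul_apply, smul_smul, csg_self, one_smul]
  rw [Finset.sum_congr rfl h2, Finset.sum_const] at h1
  have h3 : (fxp Q).card ≠ 0 := by
    apply Finset.card_ne_zero_of_mem (a := 1)
    rw [mem_fxp]
    intro i _
    rfl
  rw [← Nat.cast_smul_eq_nsmul ℚ] at h1
  rcases smul_eq_zero.1 h1 with h4 | h4
  · exact absurd (by exact_mod_cast h4) h3
  · exact h4

/-- TARGET -/
theorem bind_core {A : Type} [Ring A] [Algebra ℚ A] (g : Bool → Submodule ℚ A) (ε : Bool)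
    (K L : ℕ) (hK : 1 ≤ K) (hL : (K - 1) * (K - 1) < L) (p q : Fin L → Bool × A)
    (hsum : ∀ (δ : Bool) (Q : Finset (Fin L)), Q.card = K → ∀ a : Fin L → A,
      (∀ i, a i ∈ g ε) →
      ∑ σ ∈ Finset.univ.filter (fun σ : Equiv.Perm (Fin L) => ∀ i, i ∉ Q → σ i = i),
        (if δ then ((Equiv.Perm.sign σ : ℤ) : ℚ) else 1) •
          (List.ofFn (fun i => (p i).2 * a (σ i) * (q i).2)).prod = 0)
    (hss : ∀ (M : Type) [AddCommGroup M] [Module ℚ M]
      (ρ : Equiv.Perm (Fin L) →* Module.End ℚ M) (k q : ℕ) (X : Finset (Fin L))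
      (N : Submodule ℚ M), q * k < X.card →
      (∀ a ∈ X, ∀ b ∈ X, ∀ v ∈ N, ρ (Equiv.swap a b) v ∈ N) →
      (∀ Q ⊆ X, Q.card = q + 1 → ∀ v ∈ N,
        (∀ a ∈ Q, ∀ b ∈ Q, ρ (Equiv.swap a b) v = v) → v = 0) →
      (∀ P ⊆ X, P.card = k + 1 → ∀ v ∈ N,
        (∀ a ∈ P, ∀ b ∈ P, a ≠ b → ρ (Equiv.swap a b) v = -v) → v = 0) →
      ∀ v ∈ N, v = 0)
    (a : Fin L → A) (ha : ∀ i, a i ∈ g ε) :
    (List.ofFn (fun i => (p i).2 * a i * (q i).2)).prod = 0 := by
  let F : (Fin L → g ε) → A := fun b => (List.ofFn (fun i => (p i).2 * (b i : A) * (q i).2)).prod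
  have hFN : F ∈ Nsub L K (g ε) A := by
    intro d Q hQ b
    exact hsum d Q hQ (fun i => (b i : A)) (fun i => (b i).2)
  have hK1 : K - 1 + 1 = K := by omega
  have h0 := hss ((Fin L → g ε) → A) (prho L (g ε) A) (K - 1) (K - 1) Finset.univ
    (Nsub L K (g ε) A) (by simpa using hL) (fun a _ b _ v hv => Nsub_stable _ v hv)
    (by
      intro Q _ hQ v hv h
      refine Nsub_zero false Q (by omega) v hv ?_
      intro a ha b hb _
      rw [h a ha b hb]
      simp [csg])
    (by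
      intro P _ hP v hv h
      refine Nsub_zero true P (by omega) v hv ?_
      intro a ha b hb hab
      rw [h a ha b hb hab]
      simp [csg, Equiv.Perm.sign_swap hab])
    F hFN
  exact congrFun h0 (fun i => ⟨a i, ha i⟩)


end Pool.Agent.Helper277.Zel.Bindcore
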