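import Mathlib
import Pool.Agent.Helper277.Zel.Defs

set_option autoImplicit false
set_option linter.unusedSectionVars false
set_option linter.all false
namespace Pool.Agent.Helper277.Zel.Compress


section compress
variable {A : Type} [Ring A] [Algebra ℚ A]

/-- span of the values of homogeneous words of length `< k` -/
def Fk (g : Bool → Submodule ℚ A) (k : ℕ) : Submodule ℚ A :=
  Submodule.span ℚ {x : A | ∃ s : Wd A, Hw g s ∧ s.length < k ∧ val s = x}

theorem Fk_mem {g : Bool → Submodule ℚ A} {k : ℕ} {s : Wd A} (hs : Hw g s) (hl : s.length < k) :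
    val s ∈ Fk g k := Submodule.subset_span ⟨s, hs, hl, rfl⟩

theorem Fk_mono {g : Bool → Submodule ℚ A} {k l : ℕ} (h : k ≤ l) : Fk g k ≤ Fk g l := by
  apply Submodule.span_mono
  rintro x ⟨s, hs, hl, rfl⟩
  exact ⟨s, hs, lt_of_lt_of_le hl h, rfl⟩

theorem Fk_mul {g : Bool → Submodule ℚ A} {k : ℕ} {p : Bool × A} (hp : p.2 ∈ g p.1) {x : A}
    (hx : x ∈ Fk g k) : p.2 * x ∈ Fk g (k + 1) := by
  induction hx using Submodule.span_induction with
  | mem x hx =>
    obtain ⟨s, hs, hl, rfl⟩ := hx
    rw [← val_cons]
    refine Fk_mem ?_ (by rw [List.length_cons]; omega)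
    intro q hq
    rcases List.mem_cons.mp hq with rfl | hq
    · exact hp
    · exact hs q hq
  | zero => rw [mul_zero]; exact Submodule.zero_mem _
  | add x y _ _ hx hy => rw [mul_add]; exact Submodule.add_mem _ hx hy
  | smul c x _ hx => rw [mul_smul_comm]; exact Submodule.smul_mem _ c hx

theorem Hw_append {g : Bool → Submodule ℚ A} {u v : Wd A} (hu : Hw g u) (hv : Hw g v) :
    Hw g (u ++ v) := by
  intro p hp
  rcases List.mem_append.mp hp with h | h
  · exact hu p h
  · exact hv p h

theorem move {g : Bool → Submodule ℚ A} (hc : Cl g) {y : Bool × A} (hy : y.2 ∈ g y.1) (u v : Wd A)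
    (hu : Hw g u) (hv : Hw g v) :
    y.2 * (val u * val v) - (u.map (fun p => sg p.1 y.1)).prod • (val u * (y.2 * val v)) ∈
      Fk g (u.length + v.length + 1) := by
  induction u with
  | nil =>
    rw [List.map_nil, List.prod_nil, val_nil, one_mul, one_mul, one_smul, sub_self]
    exact Submodule.zero_mem _
  | cons p u ih =>
    have hp : p.2 ∈ g p.1 := hu p List.mem_cons_self
    have hu' : Hw g u := fun q hq => hu q (List.mem_cons_of_mem _ hq)
    have h1 := ih hu'
    have h2 := hc y.1 p.1 y.2 hy p.2 hp
    set c : ℚ := (u.map (fun p => sg p.1 y.1)).prod with hcdef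
    have h3 := Fk_mul hp h1
    have h4 : (y.2 * p.2 - sg y.1 p.1 • (p.2 * y.2)) * (val u * val v) ∈
        Fk g ((p :: u).length + v.length + 1) := by
      have h5 : Hw g ((xor y.1 p.1, y.2 * p.2 - sg y.1 p.1 • (p.2 * y.2)) :: (u ++ v)) := by
        intro q hq
        rcases List.mem_cons.mp hq with rfl | hq
        · exact h2
        · exact Hw_append hu' hv q hq
      have h6 := Fk_mem (k := (p :: u).length + v.length + 1) h5 (by
        rw [List.length_cons, List.length_append, List.length_cons]; omega)
      rw [val_cons, val_append] at h6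
      exact h6
    have h5 : sg y.1 p.1 • (p.2 * (y.2 * (val u * val v) - c • (val u * (y.2 * val v)))) ∈
        Fk g ((p :: u).length + v.length + 1) := by
      apply Submodule.smul_mem
      refine Fk_mono ?_ h3
      rw [List.length_cons]; omega
    have h6 := Submodule.add_mem _ h4 h5
    have h7 : y.2 * (val (p :: u) * val v) -
        ((p :: u).map (fun p => sg p.1 y.1)).prod • (val (p :: u) * (y.2 * val v)) =
        (y.2 * p.2 - sg y.1 p.1 • (p.2 * y.2)) * (val u * val v) +
        sg y.1 p.1 • (p.2 * (y.2 * (val u * val v) - c • (val u * (y.2 * val v)))) := by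
      rw [List.map_cons, List.prod_cons, val_cons, ← hcdef, sg_comm p.1 y.1, mul_smul, mul_sub,
        smul_sub, sub_mul, smul_mul_assoc, mul_smul_comm]
      simp only [mul_assoc]
      abel
    rw [h7]
    exact h6

theorem Hw_ofFn {g : Bool → Submodule ℚ A} {k : ℕ} {z : Fin k → Bool × A}
    (hz : ∀ i, (z i).2 ∈ g (z i).1) : Hw g (List.ofFn z) := by
  intro p hp
  rw [List.mem_ofFn] at hp
  obtain ⟨i, rfl⟩ := hp
  exact hz i

theorem ofFn_succAbove {α : Type} {k : ℕ} (z : Fin (k + 1) → α) (i : Fin (k + 1)) :
    List.ofFn (fun j => z (i.succAbove j)) =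
      (List.ofFn z).take i.val ++ (List.ofFn z).drop (i.val + 1) := by
  rw [← List.eraseIdx_eq_take_drop_succ]
  apply List.ext_getElem
  · rw [List.length_ofFn, List.length_eraseIdx, List.length_ofFn, if_pos i.2]; rfl
  · intro j h1 h2
    rw [List.getElem_ofFn, List.getElem_eraseIdx]
    split_ifs with h
    · rw [List.getElem_ofFn]
      congr 1
      rw [Fin.succAbove_of_castSucc_lt]
      · rfl
      · exact h
    · rw [List.getElem_ofFn]
      congr 1
      rw [Fin.succAbove_of_le_castSucc]
      · rfl
      · exact not_lt.mp h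

theorem ofFn_split {α : Type} {k : ℕ} (z : Fin (k + 1) → α) (i : Fin (k + 1)) :
    List.ofFn z =
      (List.ofFn z).take i.val ++ (z i :: (List.ofFn z).drop (i.val + 1)) := by
  have h : i.val < (List.ofFn z).length := by rw [List.length_ofFn]; exact i.2
  have h1 : (List.ofFn z)[i.val] = z i := by rw [List.getElem_ofFn]
  rw [← h1, List.getElem_cons_drop, List.take_append_drop]

theorem eps_eq {k : ℕ} (z : Fin (k + 1) → Bool × A) (i : Fin (k + 1)) (b : Bool) :
    (((List.ofFn z).take i.val).map (fun p => sg p.1 b)).prod =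
      ∏ j ∈ Finset.Iio i, sg (z j).1 b := by
  rw [List.map_take, List.map_ofFn, List.prod_take_ofFn]
  refine Finset.prod_congr ?_ fun j _ => rfl
  ext j
  rw [Finset.mem_filter, Finset.mem_Iio]
  exact ⟨fun h => h.2, fun h => ⟨Finset.mem_univ j, h⟩⟩

theorem Sy_claim {g : Bool → Submodule ℚ A} (hc : Cl g) : ∀ (k : ℕ) (z : Fin k → Bool × A),
    (∀ i, (z i).2 ∈ g (z i).1) →
    Sy k z - (k.factorial : ℚ) • val (List.ofFn z) ∈ Fk g k := by
  intro k
  induction k with
  | zero =>
    intro z _
    have : Sy 0 z - ((0 : ℕ).factorial : ℚ) • val (List.ofFn z) = 0 := by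
      rw [List.ofFn_zero, val_nil, Nat.factorial_zero, Nat.cast_one, one_smul]
      exact sub_self _
    rw [this]
    exact Submodule.zero_mem _
  | succ k ih =>
    intro z hz
    set P : A := val (List.ofFn z) with hP
    have hterm : ∀ i : Fin (k + 1),
        (∏ j ∈ Finset.Iio i, sg (z j).1 (z i).1) • ((z i).2 * Sy k (fun j => z (i.succAbove j))) -
          (k.factorial : ℚ) • P ∈ Fk g (k + 1) := by
      intro i
      set ε : ℚ := ∏ j ∈ Finset.Iio i, sg (z j).1 (z i).1 with hε
      have hεε : ε * ε = 1 := by
        rw [hε, ← Finset.prod_mul_distrib]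
        exact Finset.prod_eq_one fun j _ => sg_mul_self _ _
      set Qi : A := val (List.ofFn (fun j => z (i.succAbove j))) with hQi
      have h1 := Fk_mul (hz i) (ih (fun j => z (i.succAbove j)) (fun j => hz _))
      set u := (List.ofFn z).take i.val with hu
      set v := (List.ofFn z).drop (i.val + 1) with hv
      have hHu : Hw g u := fun p hp => Hw_ofFn hz p (List.mem_of_mem_take hp)
      have hHv : Hw g v := fun p hp => Hw_ofFn hz p (List.mem_of_mem_drop hp)
      have h2 := move hc (hz i) u v hHu hHv
      have hlen : u.length + v.length + 1 = k + 1 := by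
        rw [hu, hv, List.length_take, List.length_drop, List.length_ofFn]
        have := i.2
        omega
      rw [hlen, hu, eps_eq z i (z i).1, ← hε, ← hu] at h2
      have h3 : val u * val v = Qi := by
        rw [hQi, ofFn_succAbove, val_append]
      have h4 : val u * ((z i).2 * val v) = P := by
        rw [hP, ofFn_split z i, val_append, val_cons]
      rw [h3, h4] at h2
      have h5 := Submodule.add_mem _ (Submodule.smul_mem _ ε h1)
        (Submodule.smul_mem _ (ε * (k.factorial : ℚ)) h2)
      have h6 : ε • ((z i).2 * (Sy k (fun j => z (i.succAbove j)) - (k.factorial : ℚ) • Qi)) +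
          (ε * (k.factorial : ℚ)) • ((z i).2 * Qi - ε • P) =
          ε • ((z i).2 * Sy k (fun j => z (i.succAbove j))) - (k.factorial : ℚ) • P := by
        rw [mul_sub, smul_sub, smul_sub, mul_smul_comm, smul_smul, smul_smul,
          show ε * (k.factorial : ℚ) * ε = (k.factorial : ℚ) by
            rw [mul_right_comm, hεε, one_mul]]
        abel
      rw [h6] at h5
      exact h5
    have h7 : Sy (k + 1) z - ((k + 1).factorial : ℚ) • P = ∑ i : Fin (k + 1),
        ((∏ j ∈ Finset.Iio i, sg (z j).1 (z i).1) • ((z i).2 * Sy k (fun j => z (i.succAbove j))) -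
          (k.factorial : ℚ) • P) := by
      rw [Finset.sum_sub_distrib, Finset.sum_const, Finset.card_univ, Fintype.card_fin,
        Nat.factorial_succ, Nat.cast_mul, mul_smul, Nat.cast_smul_eq_nsmul]
      rfl
    rw [h7]
    exact Submodule.sum_mem _ fun i _ => hterm i

theorem exists_ofFn {α : Type} : ∀ (m : ℕ) (l : List α), l.length = m →
    ∃ z : Fin m → α, List.ofFn z = l := by
  rintro m l rfl
  exact ⟨l.get, List.ofFn_get l⟩

theorem compress_full {n : ℕ} {g : Bool → Submodule ℚ A} (h : SPair (n + 1) g) (w : Wd A)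
    (hw : Hw g w) (hl : w.length = n + 1) : val w ∈ Fk g (n + 1) := by
  obtain ⟨z, rfl⟩ := exists_ofFn (n + 1) w hl
  have hz : ∀ i, (z i).2 ∈ g (z i).1 := fun i => hw _ (by rw [List.mem_ofFn]; exact ⟨i, rfl⟩)
  have h1 := Sy_claim h.br (n + 1) z hz
  rw [h.idx z hz, zero_sub] at h1
  have h2 : ((n + 1).factorial : ℚ) ≠ 0 := by exact_mod_cast Nat.factorial_ne_zero (n + 1)
  have h3 := Submodule.smul_mem _ (-((n + 1).factorial : ℚ)⁻¹) h1
  have h4 : (-((n + 1).factorial : ℚ)⁻¹) • (-(((n + 1).factorial : ℚ) • val (List.ofFn z))) =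
      val (List.ofFn z) := by
    rw [neg_smul_neg, smul_smul, inv_mul_cancel₀ h2, one_smul]
  rw [h4] at h3
  exact h3

end compress

/-- TARGET: every homogeneous word is a linear combination of homogeneous words of length ≤ n. -/
theorem compress {A : Type} [Ring A] [Algebra ℚ A] (n : ℕ) (g : Bool → Submodule ℚ A)
    (h : SPair (n + 1) g) (w : Wd A) (hw : Hw g w) :
    val w ∈ Submodule.span ℚ {x : A | ∃ s : Wd A, Hw g s ∧ s.length ≤ n ∧ val s = x} := by
  have hmain : ∀ (m : ℕ) (w : Wd A), Hw g w → w.length = m → val w ∈ Fk g (n + 1) := by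
    intro m
    induction m using Nat.strong_induction_on with
    | _ m ih =>
      intro w hw hm
      rcases Nat.lt_or_ge w.length (n + 1) with hlt | hge
      · exact Fk_mem hw hlt
      · have hw1 : Hw g (w.take (n + 1)) := fun p hp => hw p (List.mem_of_mem_take hp)
        have hw2 : Hw g (w.drop (n + 1)) := fun p hp => hw p (List.mem_of_mem_drop hp)
        have h1 := compress_full h (w.take (n + 1)) hw1 (by rw [List.length_take]; omega)
        have h2 : val w = val (w.take (n + 1)) * val (w.drop (n + 1)) := by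
          rw [← val_append, List.take_append_drop]
        rw [h2]
        clear h2
        generalize val (w.take (n + 1)) = y at h1 ⊢
        induction h1 using Submodule.span_induction with
        | mem x hx =>
          obtain ⟨s, hs, hsl, rfl⟩ := hx
          rw [← val_append]
          refine ih (s ++ w.drop (n + 1)).length ?_ _ (Hw_append hs hw2) rfl
          rw [List.length_append, List.length_drop]
          omega
        | zero => rw [zero_mul]; exact Submodule.zero_mem _
        | add x y _ _ hx hy => rw [add_mul]; exact Submodule.add_mem _ hx hy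
        | smul c x _ hx => rw [smul_mul_assoc]; exact Submodule.smul_mem _ c hx
  have h1 := hmain w.length w hw rfl
  have h2 : Fk g (n + 1) =
      Submodule.span ℚ {x : A | ∃ s : Wd A, Hw g s ∧ s.length ≤ n ∧ val s = x} := by
    rw [Fk]
    simp only [Nat.lt_succ_iff]
  rwa [h2] at h1


end Pool.Agent.Helper277.Zel.Compress
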