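import Mathlib
import Pool.Agent.Helper277.Zel.Defs

set_option autoImplicit false
set_option linter.unusedSectionVars false
set_option linter.all false
namespace Pool.Agent.Helper277.Zel.Expand


/-- TARGET: all parameters can be moved to the right, with a sign `c` that does not depend on
`a` and `x`. -/
theorem expand_gen {A B : Type} [Ring A] [Algebra ℚ A] [Ring B] [Algebra ℚ B]
    (ι : Bool → A →ₗ[ℚ] B) (hmul : ∀ (e f : Bool) (a b : A), ι (xor e f) (a * b) = ι e a * ι f b)
    (hone : ι false 1 = 1) (δ ε : Bool) :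
    ∀ (n : ℕ) (p q : Fin n → Bool × A), ∃ (c : ℚ) (E : Bool), c ≠ 0 ∧
      ∀ (a : Fin n → A) (x : Fin n → B),
        (∀ i e b, x i * ι e b = sg δ e • (ι e b * x i)) →
        (List.ofFn (fun i => ι (p i).1 (p i).2 * (ι ε (a i) * x i) * ι (q i).1 (q i).2)).prod =
          c • (ι E (List.ofFn (fun i => (p i).2 * a i * (q i).2)).prod * (List.ofFn x).prod) := by
  intro n
  induction n with
  | zero =>
    intro p q
    refine ⟨1, false, one_ne_zero, fun a x _ => ?_⟩
    simp [hone]
  | succ n ih =>
    intro p q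
    obtain ⟨c', E', hc', hE'⟩ := ih (fun i => p i.succ) (fun i => q i.succ)
    refine ⟨c' * sg δ (q 0).1 * sg δ E', xor (xor (xor (p 0).1 ε) (q 0).1) E',
      mul_ne_zero (mul_ne_zero hc' (sg_ne_zero _ _)) (sg_ne_zero _ _), fun a x hx => ?_⟩
    have h1 := hE' (fun i => a i.succ) (fun i => x i.succ) (fun i e b => hx i.succ e b)
    rw [List.ofFn_succ, List.prod_cons, List.ofFn_succ, List.prod_cons, List.ofFn_succ,
      List.prod_cons, h1]
    rw [hmul, hmul, hmul]
    have h2 := hx 0 (q 0).1 (q 0).2
    generalize hT : (List.ofFn fun i : Fin n => (p i.succ).2 * a i.succ * (q i.succ).2).prod = T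
    have h3 := hx 0 E' T
    generalize (List.ofFn fun i : Fin n => x i.succ).prod = X
    generalize hP : ι (p 0).1 (p 0).2 = P at *
    generalize hQ : ι (q 0).1 (q 0).2 = Q at *
    generalize hA : ι ε (a 0) = A0 at *
    generalize hI : ι E' T = I at *
    generalize hx0 : x 0 = x0 at *
    calc P * (A0 * x0) * Q * c' • (I * X) = c' • (P * A0 * (x0 * Q) * I * X) := by
          rw [mul_smul_comm]; congr 1; noncomm_ring
      _ = c' • (P * A0 * (sg δ (q 0).1 • (Q * x0)) * I * X) := by rw [h2]
      _ = (c' * sg δ (q 0).1) • (P * A0 * Q * (x0 * I) * X) := by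
          rw [mul_smul_comm, smul_mul_assoc, smul_mul_assoc, smul_smul]
          congr 1; noncomm_ring
      _ = (c' * sg δ (q 0).1) • (P * A0 * Q * (sg δ E' • (I * x0)) * X) := by rw [h3]
      _ = (c' * sg δ (q 0).1 * sg δ E') • (P * A0 * Q * I * (x0 * X)) := by
          rw [mul_smul_comm, smul_mul_assoc, smul_smul]
          congr 1; noncomm_ring


end Pool.Agent.Helper277.Zel.Expand
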