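import Mathlib
import Pool.Agent.Helper277.Zel.Defs

set_option autoImplicit false
namespace Pool.Agent.Helper277.Zel

/-- Letters of the one-parameter extension. -/
def E2 {A : Type} [Ring A] [Algebra ℚ A] (δ e : Bool) (a b : A) : Matrix (Fin 2) (Fin 2) A :=
  !![sg δ e • a, b; 0, a]

/-- `E2` as a linear map. -/
def E2L {A : Type} [Ring A] [Algebra ℚ A] (δ e : Bool) :
    (A × A) →ₗ[ℚ] Matrix (Fin 2) (Fin 2) A where
  toFun p := E2 δ e p.1 p.2
  map_add' := by
    intro x y
    ext i j
    fin_cases i <;> fin_cases j <;> simp [E2]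
  map_smul' := by
    intro c x
    ext i j
    fin_cases i <;> fin_cases j <;> simp [E2, smul_smul, mul_comm]

/-- The one-parameter extension of a super pair. -/
def G2 {A : Type} [Ring A] [Algebra ℚ A] (δ : Bool) (g : Bool → Submodule ℚ A) :
    Bool → Submodule ℚ (Matrix (Fin 2) (Fin 2) A) :=
  fun e => Submodule.map (E2L δ e) ((g e).prod (g (xor e δ)))


end Pool.Agent.Helper277.Zel
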