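import Mathlib
import Pool.Agent.Helper277.Zel.Defs
import Pool.Agent.Helper277.Zel.E2

set_option autoImplicit false
set_option linter.unusedSectionVars false
set_option linter.all false
namespace Pool.Agent.Helper277.Zel.Extex





/-- Diagonal embedding (with sign) of the coefficient algebra. -/
def J2 {A : Type} [Ring A] [Algebra ℚ A] (δ e : Bool) :
    A →ₗ[ℚ] Matrix (Fin 2) (Fin 2) A := (E2L δ e).comp (LinearMap.inl ℚ A A)

theorem J2_apply {A : Type} [Ring A] [Algebra ℚ A] (δ e : Bool) (a : A) :
    J2 δ e a = !![sg δ e • a, 0; 0, a] := rfl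

/-- The new parameter. -/
def X2 {A : Type} [Ring A] [Algebra ℚ A] : Matrix (Fin 2) (Fin 2) A := !![0, 1; 0, 0]

theorem J2_mul {A : Type} [Ring A] [Algebra ℚ A] (δ e f : Bool) (a b : A) :
    J2 δ e a * J2 δ f b = J2 δ (xor e f) (a * b) := by
  rw [J2_apply, J2_apply, J2_apply, sg_xor_right]
  ext i j
  fin_cases i <;> fin_cases j <;>
    simp [Matrix.mul_apply, Fin.sum_univ_two, smul_smul, mul_comm]

theorem J2_one {A : Type} [Ring A] [Algebra ℚ A] (δ : Bool) :
    J2 δ false (1 : A) = 1 := by
  rw [J2_apply, sg_false_right]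
  ext i j
  fin_cases i <;> fin_cases j <;> simp

theorem X2_mul_J2 {A : Type} [Ring A] [Algebra ℚ A] (δ e : Bool) (a : A) :
    X2 * J2 δ e a = !![0, a; 0, 0] := by
  rw [J2_apply, X2]
  ext i j
  fin_cases i <;> fin_cases j <;> simp [Matrix.mul_apply, Fin.sum_univ_two]

theorem J2_mul_X2 {A : Type} [Ring A] [Algebra ℚ A] (δ e : Bool) (a : A) :
    J2 δ e a * X2 = !![0, sg δ e • a; 0, 0] := by
  rw [J2_apply, X2]
  ext i j
  fin_cases i <;> fin_cases j <;> simp [Matrix.mul_apply, Fin.sum_univ_two]

theorem X2_comm {A : Type} [Ring A] [Algebra ℚ A] (δ e : Bool) (a : A) :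
    X2 * J2 δ e a = sg δ e • (J2 δ e a * X2) := by
  rw [X2_mul_J2, J2_mul_X2]
  ext i j
  fin_cases i <;> fin_cases j <;> simp [smul_smul, sg_mul_self]

theorem X2_comm' {A : Type} [Ring A] [Algebra ℚ A] (δ e : Bool) (a : A) :
    J2 δ e a * X2 = sg δ e • (X2 * J2 δ e a) := by
  rw [X2_mul_J2, J2_mul_X2]
  ext i j
  fin_cases i <;> fin_cases j <;> simp

theorem X2_sq {A : Type} [Ring A] [Algebra ℚ A] :
    (X2 : Matrix (Fin 2) (Fin 2) A) * X2 = 0 := by
  rw [X2]
  ext i j
  fin_cases i <;> fin_cases j <;> simp [Matrix.mul_apply, Fin.sum_univ_two]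

theorem J2_prod {A : Type} [Ring A] [Algebra ℚ A] (δ : Bool) (l : List A) :
    ∃ c : ℚ, (l.map (J2 δ δ)).prod = !![c • l.prod, 0; 0, l.prod] := by
  induction l with
  | nil =>
    refine ⟨1, ?_⟩
    ext i j
    fin_cases i <;> fin_cases j <;> simp
  | cons b l ih =>
    obtain ⟨c, hc⟩ := ih
    refine ⟨sg δ δ * c, ?_⟩
    rw [List.map_cons, List.prod_cons, hc, J2_apply, List.prod_cons]
    ext i j
    fin_cases i <;> fin_cases j <;>
      simp [Matrix.mul_apply, Fin.sum_univ_two, smul_smul, mul_comm]

/-- TARGET: iterate the one-parameter extension `L` times (new parameter in position `0`). -/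
theorem ext_exists (m : ℕ) (δ : Bool)
    (hext : ∀ (A : Type) [Ring A] [Algebra ℚ A] (g : Bool → Submodule ℚ A),
      SPair m g → SPair m (G2 δ g)) :
    ∀ (L : ℕ) (A : Type) [Ring A] [Algebra ℚ A] (g : Bool → Submodule ℚ A), SPair m g →
      ∃ (B : Type) (_ : Ring B) (_ : Algebra ℚ B) (G : Bool → Submodule ℚ B)
        (ι : Bool → A →ₗ[ℚ] B) (ξ : Fin L → B), Ext m δ L g G ι ξ := by
  intro L
  induction L with
  | zero =>
    intro A _ _ g hg
    refine ⟨A, inferInstance, inferInstance, g, fun _ => LinearMap.id, Fin.elim0, ?_⟩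
    exact
      { sp := hg
        mul := fun _ _ _ _ => rfl
        one := rfl
        mem := fun _ _ ha => ha
        xmem := fun _ i => i.elim0
        comm := fun _ i => i.elim0
        xx := fun i => i.elim0
        sq := fun i => i.elim0
        inj := fun e a h => by simpa using h }
  | succ L ih =>
    intro A _ _ g hg
    obtain ⟨B, _, _, G, ι, ξ, hE⟩ := ih A g hg
    refine ⟨Matrix (Fin 2) (Fin 2) B, inferInstance, inferInstance, G2 δ G,
      fun e => (J2 δ e).comp (ι e), Fin.cons X2 (fun i => J2 δ δ (ξ i)), ?_⟩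
    have hcomp : ∀ (e : Bool) (a : A), ((J2 δ e).comp (ι e)) a = J2 δ e (ι e a) :=
      fun _ _ => rfl
    exact
      { sp := hext B G hE.sp
        mul := by
          intro e f a b
          rw [hcomp, hcomp, hcomp, J2_mul, hE.mul]
        one := by
          rw [hcomp, hE.one, J2_one]
        mem := by
          intro e a ha
          rw [hcomp]
          refine Submodule.mem_map.2 ⟨(ι e a, 0), ?_, rfl⟩
          exact Submodule.mem_prod.2 ⟨hE.mem e a ha, Submodule.zero_mem _⟩
        xmem := by
          intro e i a ha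
          rw [hcomp]
          refine Fin.cases ?_ (fun i => ?_) i
          · rw [Fin.cons_zero, J2_mul_X2]
            refine Submodule.mem_map.2 ⟨(0, sg δ e • ι e a), ?_, ?_⟩
            · refine Submodule.mem_prod.2 ⟨Submodule.zero_mem _, ?_⟩
              have : xor (xor e δ) δ = e := by simp
              simp only [this]
              exact Submodule.smul_mem _ _ (hE.mem e a ha)
            · change E2 δ (xor e δ) 0 (sg δ e • ι e a) = _
              simp [E2]
          · rw [Fin.cons_succ, J2_mul]
            refine Submodule.mem_map.2 ⟨(ι e a * ξ i, 0), ?_, rfl⟩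
            exact Submodule.mem_prod.2 ⟨hE.xmem e i a ha, Submodule.zero_mem _⟩
        comm := by
          intro e i a
          rw [hcomp]
          refine Fin.cases ?_ (fun i => ?_) i
          · rw [Fin.cons_zero]
            exact X2_comm δ e _
          · rw [Fin.cons_succ, J2_mul, J2_mul, hE.comm, map_smul, Bool.xor_comm δ e]
        xx := by
          intro i j
          refine Fin.cases ?_ (fun i => ?_) i
          · refine Fin.cases ?_ (fun j => ?_) j
            · rw [Fin.cons_zero, X2_sq, smul_zero]
            · rw [Fin.cons_zero, Fin.cons_succ]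
              exact X2_comm δ δ _
          · refine Fin.cases ?_ (fun j => ?_) j
            · rw [Fin.cons_zero, Fin.cons_succ]
              exact X2_comm' δ δ _
            · rw [Fin.cons_succ, Fin.cons_succ, J2_mul, J2_mul, hE.xx i j, map_smul]
        sq := by
          intro i
          refine Fin.cases ?_ (fun i => ?_) i
          · rw [Fin.cons_zero, X2_sq]
          · rw [Fin.cons_succ, J2_mul, hE.sq, map_zero]
        inj := by
          intro e a h
          rw [hcomp, List.ofFn_succ, Fin.cons_zero, List.prod_cons] at h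
          simp only [Fin.cons_succ] at h
          have h1 : (List.ofFn fun i => J2 δ δ (ξ i)) = (List.ofFn ξ).map (J2 δ δ) := by
            rw [List.map_ofFn]; rfl
          obtain ⟨c, hc⟩ := J2_prod δ (List.ofFn ξ)
          rw [h1, hc, ← mul_assoc, J2_mul_X2] at h
          have h2 := congrFun (congrFun h 0) 1
          simp [Matrix.mul_apply, Fin.sum_univ_two, sg_ne_zero] at h2
          exact hE.inj e a h2 }


end Pool.Agent.Helper277.Zel.Extex
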