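import Mathlib
import Pool.Agent.Helper277.Zel.Defs
import Pool.Agent.Helper277.Zel.HH

set_option autoImplicit false
set_option linter.unusedSectionVars false
set_option linter.all false
namespace Pool.Agent.Helper277.Zel.Prime




theorem pt_span {A : Type} [Ring A] [Algebra ℚ A] (g : Bool → Submodule ℚ A)
    (hgen : Algebra.adjoin ℚ ((g false : Set A) ∪ (g true : Set A)) = ⊤) (c : A) :
    c ∈ Submodule.span ℚ {x : A | ∃ s : Wd A, Hw g s ∧ val s = x} := by
  have hc : c ∈ Algebra.adjoin ℚ ((g false : Set A) ∪ (g true : Set A)) := by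
    rw [hgen]; exact Algebra.mem_top
  rw [← Subalgebra.mem_toSubmodule, Algebra.adjoin_eq_span] at hc
  refine Submodule.span_mono ?_ hc
  intro x hx
  have hx' : x ∈ Submonoid.closure ((g false : Set A) ∪ (g true : Set A)) := hx
  clear hx
  change ∃ s : Wd A, Hw g s ∧ val s = x
  induction hx' using Submonoid.closure_induction with
  | mem x hx =>
    rcases hx with hx | hx
    · refine ⟨[(false, x)], ?_, by simp [val]⟩
      intro p hp
      rw [List.mem_singleton] at hp
      rw [hp]; exact hx
    · refine ⟨[(true, x)], ?_, by simp [val]⟩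
      intro p hp
      rw [List.mem_singleton] at hp
      rw [hp]; exact hx
  | one => exact ⟨[], by intro p hp; simp at hp, rfl⟩
  | mul x y hx hy ihx ihy =>
    obtain ⟨s, hs, rfl⟩ := ihx
    obtain ⟨t, ht, rfl⟩ := ihy
    refine ⟨s ++ t, ?_, val_append s t⟩
    intro p hp
    rcases List.mem_append.1 hp with h | h
    · exact hs p h
    · exact ht p h

/-- TARGET: prime super pairs of index `n+1` are trivial (given the proved facts as hypotheses). -/
theorem prime_trivial {A : Type} [Ring A] [Algebra ℚ A] [Nontrivial A] (n N : ℕ)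
    (g : Bool → Submodule ℚ A) (hg : SPair (n + 1) g)
    (hgen : Algebra.adjoin ℚ ((g false : Set A) ∪ (g true : Set A)) = ⊤)
    (hprime : ∀ a b : A, (∀ c, a * c * b = 0) → a = 0 ∨ b = 0)
    (hcomp : ∀ w : Wd A, Hw g w →
      val w ∈ Submodule.span ℚ {x : A | ∃ s : Wd A, Hw g s ∧ s.length ≤ n ∧ val s = x})
    (hstab : ∀ r : A, Cl (Ann g r))
    (htop : ∀ (r : A) (e : Bool) (y : A), y ∈ g e → y ∈ HH g r N e)
    (hkill : ∀ (r : A) (l : List (ℕ × Bool × A)), (∀ p ∈ l, p.2.2 ∈ HH g r p.1 p.2.1) →
      ∀ (w : Wd A), Hw (Ann g r) w → w.length = (l.map (fun p => p.1)).sum + 1 →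
      r * (l.map (fun p => p.2.2)).prod * val w = 0)
    (hzorn : ∀ M : ℕ, 1 ≤ M → ∃ h : Bool → Submodule ℚ A, (∀ e, h e ≤ g e) ∧ Cl h ∧ NilIdx h M ∧
      ∀ h' : Bool → Submodule ℚ A, (∀ e, h e ≤ h' e) → (∀ e, h' e ≤ g e) → Cl h' →
        NilIdx h' M → ∀ e, h' e ≤ h e)
    (hnorm : ∀ (h : Bool → Submodule ℚ A), (∀ e, h e ≤ g e) → Cl h → ∀ (M : ℕ),
      NilIdx h M → ∀ (e : Bool) (x : A), x ∈ g e →
      (∀ f : Bool, ∀ z ∈ h f, x * z - sg e f • (z * x) ∈ h (xor e f)) →
      (e = true → x * x ∈ h false) →
      ∃ h' : Bool → Submodule ℚ A, (∀ f, h f ≤ h' f) ∧ x ∈ h' e ∧ (∀ f, h' f ≤ g f) ∧ Cl h' ∧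
        ∃ k, NilIdx h' k) :
    ∀ e, g e = ⊥ := by
  classical
  -- (1)
  have h1 : ∀ r : A, r ≠ 0 → NilIdx (Ann g r) (N * n + 1) := by
    intro r hr w hw hlen
    have hshort : ∀ s : Wd A, Hw g s → s.length ≤ n → r * val s * val w = 0 := by
      intro s hs hsn
      have hle : N * s.length + 1 ≤ w.length := by
        rw [hlen]
        exact Nat.succ_le_succ (Nat.mul_le_mul_left N hsn)
      have hk := hkill r (s.map fun p => (N, p.1, p.2)) (by
          intro p hp
          obtain ⟨q, hq, rfl⟩ := List.mem_map.1 hp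
          exact htop r q.1 q.2 (hs q hq)) (w.take (N * s.length + 1)) (by
          intro p hp
          exact hw p (List.mem_of_mem_take hp)) (by
          rw [List.length_take, min_eq_left hle, List.map_map]
          have e1 : ((fun p : ℕ × Bool × A => p.1) ∘ fun p : Bool × A => (N, p.1, p.2)) =
              fun _ => N := rfl
          rw [e1, List.map_const', List.sum_replicate, smul_eq_mul, mul_comm])
      rw [List.map_map] at hk
      have e2 : ((fun p : ℕ × Bool × A => p.2.2) ∘ fun p : Bool × A => (N, p.1, p.2)) =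
          Prod.snd := rfl
      rw [e2] at hk
      have e3 : val w = val (w.take (N * s.length + 1)) * val (w.drop (N * s.length + 1)) := by
        rw [← val_append, List.take_append_drop]
      rw [e3, ← mul_assoc]
      have e4 : val s = (s.map Prod.snd).prod := rfl
      rw [e4, hk, zero_mul]
    have hall : ∀ c : A, r * c * val w = 0 := by
      intro c
      have hc : c ∈ Submodule.span ℚ {x : A | ∃ s : Wd A, Hw g s ∧ s.length ≤ n ∧ val s = x} := by
        have hle : Submodule.span ℚ {x : A | ∃ s : Wd A, Hw g s ∧ val s = x} ≤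
            Submodule.span ℚ {x : A | ∃ s : Wd A, Hw g s ∧ s.length ≤ n ∧ val s = x} := by
          rw [Submodule.span_le]
          rintro x ⟨s, hs, rfl⟩
          exact hcomp s hs
        exact hle (pt_span g hgen c)
      induction hc using Submodule.span_induction with
      | mem x hx =>
        obtain ⟨s, hs, hsn, rfl⟩ := hx
        exact hshort s hs hsn
      | zero => rw [mul_zero, zero_mul]
      | add x y _ _ hx hy => rw [mul_add, add_mul, hx, hy, add_zero]
      | smul a x _ hx => rw [mul_smul_comm, smul_mul_assoc, hx, smul_zero]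
    exact (hprime r (val w) hall).resolve_left hr
  -- (2)
  obtain ⟨h, hhg, hhcl, hhnil, hhmax⟩ := hzorn (N * n + 1) (by omega)
  -- (3)
  have h3 : ∀ h' : Bool → Submodule ℚ A, (∀ e, h' e ≤ g e) → ∀ k, NilIdx h' k →
      ∃ r : A, r ≠ 0 ∧ ∀ e, h' e ≤ Ann g r e := by
    intro h' hle k hk
    have hex : ∃ k, NilIdx h' k := ⟨k, hk⟩
    have hfind := Nat.find_spec hex
    have hmin : ∀ m < Nat.find hex, ¬ NilIdx h' m := fun m hm => Nat.find_min hex hm
    generalize Nat.find hex = k0 at hfind hmin
    cases k0 with
    | zero =>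
      exfalso
      have := hfind [] (by intro p hp; simp at hp) rfl
      rw [val_nil] at this
      exact one_ne_zero this
    | succ m =>
      have hm := hmin m (Nat.lt_succ_self m)
      unfold NilIdx at hm
      push Not at hm
      obtain ⟨w, hw, hwl, hwv⟩ := hm
      refine ⟨val w, hwv, fun e z hz => ?_⟩
      rw [mem_Ann]
      refine ⟨hle e hz, ?_⟩
      have h4 := hfind (w ++ [(e, z)]) (by
        intro p hp
        rcases List.mem_append.1 hp with hp | hp
        · exact hw p hp
        · rw [List.mem_singleton] at hp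
          rw [hp]; exact hz) (by rw [List.length_append, hwl]; rfl)
      rw [val_append, val_cons, val_nil, mul_one] at h4
      exact h4
  -- (4)
  have h4 : ∀ h' : Bool → Submodule ℚ A, (∀ e, h e ≤ h' e) → (∀ e, h' e ≤ g e) →
      ∀ k, NilIdx h' k → ∀ e, h' e ≤ h e := by
    intro h' hle hle' k hk e
    obtain ⟨r, hr, hrle⟩ := h3 h' hle' k hk
    exact (hrle e).trans (hhmax (Ann g r) (fun e => (hle e).trans (hrle e))
      (fun e => inf_le_left) (hstab r) (h1 r hr) e)
  obtain ⟨r0, hr0, hr0le⟩ := h3 h hhg _ hhnil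
  have hAnn : ∀ e, Ann g r0 e ≤ h e :=
    hhmax (Ann g r0) hr0le (fun e => inf_le_left) (hstab r0) (h1 r0 hr0)
  -- (5)
  have h5 : ∀ (e : Bool) (x : A), x ∈ g e →
      (∀ f : Bool, ∀ z ∈ h f, x * z - sg e f • (z * x) ∈ h (xor e f)) →
      (e = true → x * x ∈ h false) → x ∈ h e := by
    intro e x hx hnx hxx
    obtain ⟨h', hle, hxh', hle', _, k, hk⟩ := hnorm h hhg hhcl _ hhnil e x hx hnx hxx
    exact h4 h' hle hle' k hk e hxh'
  -- (6)
  have h6 : ∀ (e : Bool) (x : A), x ∈ g e →
      (∀ f : Bool, ∀ z ∈ h f, x * z - sg e f • (z * x) ∈ h (xor e f)) → x ∈ h e := by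
    intro e x hx hnx
    cases e with
    | false => exact h5 false x hx hnx (by intro h; exact absurd h (by decide))
    | true =>
      refine h5 true x hx hnx fun _ => ?_
      refine h5 false (x * x) ?_ ?_ (by intro h; exact absurd h (by decide))
      · have h7 := hg.br true true x hx x hx
        have e1 : x * x - sg true true • (x * x) = (2 : ℚ) • (x * x) := by
          have : sg true true = -1 := by simp [sg]
          rw [this, neg_smul, one_smul, sub_neg_eq_add, two_smul]
        rw [e1] at h7
        have h8 := (g (xor true true)).smul_mem (2⁻¹ : ℚ) h7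
        rw [smul_smul] at h8
        norm_num at h8
        exact h8
      · intro f z hz
        have hu := hnx f z hz
        have hv := hnx (xor true f) _ hu
        have e2 : xor true (xor true f) = xor false f := by cases f <;> rfl
        rw [e2] at hv
        have e3 : sg true (xor true f) = - sg true f := by
          cases f <;> simp [sg]
        have e4 : x * x * z - sg false f • (z * (x * x)) =
            x * (x * z - sg true f • (z * x)) -
              sg true (xor true f) • ((x * z - sg true f • (z * x)) * x) := by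
          rw [e3, sg_false_left, one_smul, mul_sub, sub_mul, neg_smul, smul_sub, mul_smul_comm,
            smul_mul_assoc, smul_smul, sg_mul_self, one_smul]
          simp only [mul_assoc]
          abel
        rw [e4]
        exact hv
  -- (7)
  have h7 : ∀ k e, ∀ w ∈ HH g r0 k e, w ∈ Ann g r0 e := by
    intro k
    induction k with
    | zero => intro e w hw; exact hw
    | succ k ih =>
      intro e w hw
      obtain ⟨hwg, hw2⟩ := hw
      apply hr0le
      apply h6 e w hwg
      intro f z hz
      exact hAnn _ (ih _ _ (hw2 f z (hr0le f hz)))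
  -- (8)
  have h8 : ∀ (e : Bool) (y : A), y ∈ g e → r0 * y = 0 := by
    intro e y hy
    exact (mem_Ann.1 (h7 N e y (htop r0 e y hy))).2
  intro e
  rw [Submodule.eq_bot_iff]
  intro z hz
  have hall : ∀ c : A, r0 * c * z = 0 := by
    intro c
    have hc := pt_span g hgen c
    induction hc using Submodule.span_induction with
    | mem x hx =>
      obtain ⟨s, hs, rfl⟩ := hx
      cases s with
      | nil => rw [val_nil, mul_one]; exact h8 e z hz
      | cons p w =>
        rw [val_cons, ← mul_assoc, h8 p.1 p.2 (hs p List.mem_cons_self), zero_mul, zero_mul]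
    | zero => rw [mul_zero, zero_mul]
    | add x y _ _ hx hy => rw [mul_add, add_mul, hx, hy, add_zero]
    | smul a x _ hx => rw [mul_smul_comm, smul_mul_assoc, hx, smul_zero]
  exact (hprime r0 z hall).resolve_left hr0


end Pool.Agent.Helper277.Zel.Prime
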