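import Mathlib
import Pool.Agent.Helper277.Zel.Defs

set_option autoImplicit false
set_option linter.unusedSectionVars false
set_option linter.all false
namespace Pool.Agent.Helper277.Zel.Primeq


/-- two-sided ideals, as additive subgroups -/
def exists_prime_quot_Tw {A : Type} [Ring A] (P : AddSubgroup A) : Prop :=
  ∀ x ∈ P, ∀ a : A, a * x ∈ P ∧ x * a ∈ P

theorem exists_prime_quot_max {A : Type} [Ring A] (r : ℕ → A) (hne : ∀ j, r j ≠ 0) :
    ∃ P : AddSubgroup A, Maximal (fun P => exists_prime_quot_Tw P ∧ ∀ j, r j ∉ P) P := by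
  obtain ⟨P, _, hP⟩ := zorn_le_nonempty₀ {P : AddSubgroup A | exists_prime_quot_Tw P ∧ ∀ j, r j ∉ P} (by
    intro c hc hchain y hy
    refine ⟨sSup c, ⟨?_, ?_⟩, fun z hz => le_sSup hz⟩
    · intro x hx a
      rw [AddSubgroup.mem_sSup_of_directedOn ⟨y, hy⟩ hchain.directedOn] at hx
      obtain ⟨s, hs, hxs⟩ := hx
      have h1 := (hc hs).1 x hxs a
      exact ⟨(le_sSup hs) h1.1, (le_sSup hs) h1.2⟩
    · intro j hj
      rw [AddSubgroup.mem_sSup_of_directedOn ⟨y, hy⟩ hchain.directedOn] at hj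
      obtain ⟨s, hs, hxs⟩ := hj
      exact (hc hs).2 j hxs) ⊥ ⟨by
      intro x hx a
      rw [AddSubgroup.mem_bot] at hx
      subst hx
      simp, by
      intro j hj
      exact hne j (AddSubgroup.mem_bot.1 hj)⟩
  exact ⟨P, hP⟩

theorem exists_prime_quot_big {A : Type} [Ring A] (r u : ℕ → A)
    (hr : ∀ j, r (j + 1) = r j * u j * r j) {P : AddSubgroup A}
    (hP : Maximal (fun P => exists_prime_quot_Tw P ∧ ∀ j, r j ∉ P) P) (Q : AddSubgroup A)
    (hQ : exists_prime_quot_Tw Q) (hPQ : P ≤ Q) (z : A) (hz : z ∈ Q) (hz' : z ∉ P) :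
    ∃ i, ∀ k, i ≤ k → r k ∈ Q := by
  have h1 : ∃ i, r i ∈ Q := by
    by_contra hcon
    push Not at hcon
    exact hz' (hP.2 ⟨hQ, hcon⟩ hPQ hz)
  obtain ⟨i, hi⟩ := h1
  refine ⟨i, fun k hk => ?_⟩
  induction k, hk using Nat.le_induction with
  | base => exact hi
  | succ k _ ih => rw [hr, mul_assoc]; exact (hQ _ ih _).2

theorem exists_prime_quot_prime {A : Type} [Ring A] (r u : ℕ → A)
    (hr : ∀ j, r (j + 1) = r j * u j * r j) {P : AddSubgroup A}
    (hP : Maximal (fun P => exists_prime_quot_Tw P ∧ ∀ j, r j ∉ P) P) (a b : A)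
    (h : ∀ c, a * c * b ∈ P) : a ∈ P ∨ b ∈ P := by
  by_contra hcon
  push Not at hcon
  obtain ⟨ha, hb⟩ := hcon
  have hT := hP.1.1
  let Pa : AddSubgroup A :=
    { carrier := {x | ∀ c, x * c * b ∈ P}
      zero_mem' := fun c => by simp [P.zero_mem]
      add_mem' := fun {x y} hx hy c => by
        rw [add_mul, add_mul]; exact P.add_mem (hx c) (hy c)
      neg_mem' := fun {x} hx c => by
        rw [neg_mul, neg_mul]; exact P.neg_mem (hx c) }
  obtain ⟨i, hi⟩ := exists_prime_quot_big r u hr hP Pa (by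
      intro x hx y
      refine ⟨fun c => ?_, fun c => ?_⟩
      · rw [mul_assoc, mul_assoc]
        have := (hT _ (hx c) y).1
        rwa [mul_assoc] at this
      · have := hx (y * c)
        rwa [← mul_assoc] at this) (by
      intro x hx c
      exact (hT _ ((hT _ hx c).2) b).2) a h ha
  let Pb : AddSubgroup A :=
    { carrier := {y | ∀ x ∈ Pa, ∀ c, x * c * y ∈ P}
      zero_mem' := fun x _ c => by simp [P.zero_mem]
      add_mem' := fun {y y'} hy hy' x hx c => by
        rw [mul_add]; exact P.add_mem (hy x hx c) (hy' x hx c)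
      neg_mem' := fun {y} hy x hx c => by
        rw [mul_neg]; exact P.neg_mem (hy x hx c) }
  obtain ⟨j, hj⟩ := exists_prime_quot_big r u hr hP Pb (by
      intro y hy z
      refine ⟨fun x hx c => ?_, fun x hx c => ?_⟩
      · have := hy x hx (c * z)
        rwa [← mul_assoc, mul_assoc] at this
      · rw [← mul_assoc]
        exact (hT _ (hy x hx c) z).2) (by
      intro y hy x _ c
      exact (hT _ hy _).1) b (fun x hx c => hx c) hb
  have h1 := hi (max i j) (le_max_left _ _)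
  have h2 := hj (max i j) (le_max_right _ _)
  have h3 := h2 _ h1 (u (max i j))
  rw [← hr] at h3
  exact hP.1.2 _ h3

/-- TARGET: m-sequences that never vanish survive in a prime quotient. -/
theorem exists_prime_quot (A : Type) [Ring A] [Algebra ℚ A] (r u : ℕ → A)
    (hr : ∀ j, r (j + 1) = r j * u j * r j) (hne : ∀ j, r j ≠ 0) :
    ∃ (B : Type) (_ : Ring B) (_ : Algebra ℚ B) (f : A →ₐ[ℚ] B), Function.Surjective f ∧
      (∀ j, f (r j) ≠ 0) ∧ ∀ a b : B, (∀ c, a * c * b = 0) → a = 0 ∨ b = 0 := by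
  obtain ⟨P, hP⟩ := exists_prime_quot_max r hne
  have hT := hP.1.1
  let I : TwoSidedIdeal A := TwoSidedIdeal.mk' (P : Set A) P.zero_mem (fun hx hy => P.add_mem hx hy)
    (fun hx => P.neg_mem hx) (fun {x y} hy => (hT y hy x).1) (fun {x y} hx => (hT x hx y).2)
  have hI : ∀ x, x ∈ I ↔ x ∈ P := fun x => TwoSidedIdeal.mem_mk' _ _ _ _ _ _ x
  have hker : ∀ x, I.ringCon.mkₐ ℚ x = 0 ↔ x ∈ P := by
    intro x
    rw [← hI, TwoSidedIdeal.mem_iff]
    exact RingCon.eq I.ringCon (a := x) (b := 0)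
  refine ⟨I.ringCon.Quotient, inferInstance, inferInstance, I.ringCon.mkₐ ℚ,
    RingCon.mkₐ_surjective I.ringCon, fun j hj => hP.1.2 j ((hker _).1 hj), ?_⟩
  intro a b hab
  obtain ⟨a', rfl⟩ := RingCon.mkₐ_surjective (α := ℚ) I.ringCon a
  obtain ⟨b', rfl⟩ := RingCon.mkₐ_surjective (α := ℚ) I.ringCon b
  rw [hker, hker]
  apply exists_prime_quot_prime r u hr hP
  intro c
  rw [← hker, map_mul, map_mul]
  exact hab _


end Pool.Agent.Helper277.Zel.Primeq
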