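import Mathlib
import Pool.Agent.Helper277.Zel.Defs

set_option autoImplicit false
set_option linter.unusedSectionVars false
set_option linter.all false
namespace Pool.Agent.Helper277.Zel.Rel


section relx
variable {A : Type} [Ring A] [Algebra ℚ A] {X : Submodule ℚ A}

/-- `φ` acts as right multiplication by `a` -/
def Rl (φ : (Module.End ℚ X)ᵐᵒᵖ) (a : A) : Prop :=
  ∀ x : X, ((φ.unop x : X) : A) = (x : A) * a

theorem Rl.mul {φ ψ : (Module.End ℚ X)ᵐᵒᵖ} {a b : A} (h : Rl φ a) (k : Rl ψ b) :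
    Rl (φ * ψ) (a * b) := by
  intro x
  rw [MulOpposite.unop_mul, Module.End.mul_apply, k, h, mul_assoc]

theorem Rl.one : Rl (1 : (Module.End ℚ X)ᵐᵒᵖ) (1 : A) := by
  intro x
  simp

theorem Rl.zero : Rl (0 : (Module.End ℚ X)ᵐᵒᵖ) (0 : A) := by
  intro x
  simp

theorem Rl.add {φ ψ : (Module.End ℚ X)ᵐᵒᵖ} {a b : A} (h : Rl φ a) (k : Rl ψ b) :
    Rl (φ + ψ) (a + b) := by
  intro x
  rw [MulOpposite.unop_add, LinearMap.add_apply, Submodule.coe_add, h, k, mul_add]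

theorem Rl.smul {φ : (Module.End ℚ X)ᵐᵒᵖ} {a : A} (c : ℚ) (h : Rl φ a) :
    Rl (c • φ) (c • a) := by
  intro x
  rw [MulOpposite.unop_smul, LinearMap.smul_apply, Submodule.coe_smul, h, mul_smul_comm]

theorem Rl.sub {φ ψ : (Module.End ℚ X)ᵐᵒᵖ} {a b : A} (h : Rl φ a) (k : Rl ψ b) :
    Rl (φ - ψ) (a - b) := by
  intro x
  rw [MulOpposite.unop_sub, LinearMap.sub_apply, Submodule.coe_sub, h, k, mul_sub]

theorem Rl.sum {ι : Type} (s : Finset ι) {φ : ι → (Module.End ℚ X)ᵐᵒᵖ} {a : ι → A}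
    (h : ∀ i ∈ s, Rl (φ i) (a i)) : Rl (∑ i ∈ s, φ i) (∑ i ∈ s, a i) := by
  classical
  induction s using Finset.induction_on with
  | empty => simpa using Rl.zero
  | insert b s hb ih =>
    rw [Finset.sum_insert hb, Finset.sum_insert hb]
    exact (h b (Finset.mem_insert_self _ _)).add
      (ih fun i hi => h i (Finset.mem_insert_of_mem hi))

theorem Rl.Sy : ∀ (n : ℕ) (z : Fin n → Bool × (Module.End ℚ X)ᵐᵒᵖ) (y : Fin n → Bool × A),
    (∀ i, (z i).1 = (y i).1) → (∀ i, Rl (z i).2 (y i).2) → Rl (Sy n z) (Sy n y)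
  | 0, _, _, _, _ => Rl.one
  | n + 1, z, y, h1, h2 => by
    rw [Zel.Sy, Zel.Sy]
    refine Rl.sum _ fun i _ => ?_
    simp only [h1]
    refine Rl.smul _ ((h2 i).mul ?_)
    exact Rl.Sy n _ _ (fun j => h1 _) (fun j => h2 _)

theorem Rl.eq_zero {φ : (Module.End ℚ X)ᵐᵒᵖ} {a : A} (h : Rl φ a) (h0 : ∀ x ∈ X, x * a = 0) :
    φ = 0 := by
  apply MulOpposite.unop_injective
  ext x
  rw [h x, h0 x x.2]
  simp

/-- the induced spaces -/
def Gx (X : Submodule ℚ A) (g : Bool → Submodule ℚ A) (e : Bool) :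
    Submodule ℚ (Module.End ℚ X)ᵐᵒᵖ where
  carrier := {φ | ∃ a ∈ g e, Rl φ a}
  add_mem' := by
    rintro φ ψ ⟨a, ha, h⟩ ⟨b, hb, k⟩
    exact ⟨a + b, (g e).add_mem ha hb, h.add k⟩
  zero_mem' := ⟨0, (g e).zero_mem, Rl.zero⟩
  smul_mem' := by
    rintro c φ ⟨a, ha, h⟩
    exact ⟨c • a, (g e).smul_mem c ha, h.smul c⟩

theorem exists_Rl {g : Bool → Submodule ℚ A}
    (hX : ∀ x ∈ X, ∀ e : Bool, ∀ z ∈ g e, x * z ∈ X) (e : Bool) (a : A) (ha : a ∈ g e) :
    ∃ φ ∈ Gx X g e, Rl φ a := by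
  refine ⟨MulOpposite.op ((LinearMap.mulRight ℚ a).restrict (p := X) (q := X)
    fun x hx => hX x hx e a ha), ⟨a, ha, ?_⟩, ?_⟩ <;>
  · intro x
    rfl

end relx

/-- TARGET -/
theorem rel_of_GG (n : ℕ) (hG : GG n) : ∃ N : ℕ, GRel n N := by
  obtain ⟨N, hN⟩ := hG
  refine ⟨N, ?_⟩
  intro A _ _ g X hCl hX hS
  have hsp : SPair (A := (Module.End ℚ X)ᵐᵒᵖ) n (Gx X g) := by
    constructor
    · rintro e f φ ⟨a, ha, h⟩ ψ ⟨b, hb, k⟩
      exact ⟨_, hCl e f a ha b hb, (h.mul k).sub ((k.mul h).smul _)⟩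
    · intro z hz
      choose a ha hr using hz
      have h1 : Rl (Sy n z) (Sy n (fun i => ((z i).1, a i))) :=
        Rl.Sy n z (fun i => ((z i).1, a i)) (fun _ => rfl) hr
      exact h1.eq_zero fun x hx => hS x hx _ ha
  have hnil := hN (Module.End ℚ X)ᵐᵒᵖ (Gx X g) hsp
  have key : ∀ w : Wd A, Hw g w → ∃ w' : Wd (Module.End ℚ X)ᵐᵒᵖ, Hw (Gx X g) w' ∧
      w'.length = w.length ∧ Rl (val w') (val w) := by
    intro w
    induction w with
    | nil =>
      intro _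
      exact ⟨[], by intro p hp; simp at hp, rfl, Rl.one⟩
    | cons p w ih =>
      intro hw
      obtain ⟨w', h1, h2, h3⟩ := ih fun q hq => hw q (List.mem_cons_of_mem _ hq)
      obtain ⟨φ, hφ, hr⟩ := exists_Rl hX p.1 p.2 (hw p List.mem_cons_self)
      refine ⟨(p.1, φ) :: w', ?_, ?_, ?_⟩
      · intro q hq
        rcases List.mem_cons.1 hq with rfl | hq
        · exact hφ
        · exact h1 q hq
      · rw [List.length_cons, List.length_cons, h2]
      · rw [val_cons, val_cons]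
        exact hr.mul h3
  intro x hx w hw hlen
  obtain ⟨w', h1, h2, h3⟩ := key w hw
  have h4 := hnil w' h1 (h2.trans hlen)
  have h5 := h3 ⟨x, hx⟩
  rw [h4] at h5
  simpa using h5.symm


end Pool.Agent.Helper277.Zel.Rel
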