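import Mathlib
import Pool.Agent.Helper277.Zel.Defs

set_option autoImplicit false
set_option linter.unusedSectionVars false
set_option linter.all false
namespace Pool.Agent.Helper277.Zel.Skewsum


/-- TARGET: if words with the same parameter letter at the slots in `Q` vanish, then the
(skew-)symmetric sum over the slots in `Q` vanishes. -/
theorem skew_sum {A : Type} [Ring A] [Algebra ℚ A] (m : ℕ) (g : Bool → Submodule ℚ A)
    (δ ε : Bool) (L : ℕ) (p q : Fin L → Bool × A)
    {B : Type} [Ring B] [Algebra ℚ B] (G : Bool → Submodule ℚ B) (ι : Bool → A →ₗ[ℚ] B)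
    (ξ : Fin L → B) (hE : Ext m δ L g G ι ξ) (Q : Finset (Fin L))
    (hvan : ∀ y ∈ G (xor ε δ), ∀ y' : Fin L → B, (∀ i, y' i ∈ G (xor ε δ)) →
      (List.ofFn (fun i => ι (p i).1 (p i).2 * (if i ∈ Q then y else y' i) *
        ι (q i).1 (q i).2)).prod = 0)
    (hexp : ∃ (c : ℚ) (E : Bool), c ≠ 0 ∧ ∀ (a : Fin L → A) (x : Fin L → B),
        (∀ i e b, x i * ι e b = sg δ e • (ι e b * x i)) →
        (List.ofFn (fun i => ι (p i).1 (p i).2 * (ι ε (a i) * x i) * ι (q i).1 (q i).2)).prod =
          c • (ι E (List.ofFn (fun i => (p i).2 * a i * (q i).2)).prod * (List.ofFn x).prod))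
    (hxi1 : ∀ φ : Fin L → Fin L, ¬ Function.Injective φ →
      (List.ofFn (fun i => ξ (φ i))).prod = 0)
    (hxi2 : ∀ σ : Equiv.Perm (Fin L), (List.ofFn (fun i => ξ (σ i))).prod =
      (if δ then ((Equiv.Perm.sign σ : ℤ) : ℚ) else 1) • (List.ofFn ξ).prod)
    (a : Fin L → A) (ha : ∀ i, a i ∈ g ε) :
    ∑ σ ∈ Finset.univ.filter (fun σ : Equiv.Perm (Fin L) => ∀ i, i ∉ Q → σ i = i),
      (if δ then ((Equiv.Perm.sign σ : ℤ) : ℚ) else 1) •
        (List.ofFn (fun i => (p i).2 * a (σ i) * (q i).2)).prod = 0 := by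
  classical
  obtain ⟨c, E, hc, hexp⟩ := hexp
  set W : (Fin L → A) → A := fun b => (List.ofFn (fun i => (p i).2 * b i * (q i).2)).prod with hW
  set S : Fin L → Finset (Fin L) := fun i => if i ∈ Q then Q else {i} with hS
  have hy : ∑ j ∈ Q, ι ε (a j) * ξ j ∈ G (xor ε δ) :=
    Submodule.sum_mem _ (fun j _ => hE.xmem ε j (a j) (ha j))
  have h0 := hvan _ hy (fun i => ι ε (a i) * ξ i) (fun i => hE.xmem ε i (a i) (ha i))
  have h1 : ∀ i, ι (p i).1 (p i).2 *
        (if i ∈ Q then ∑ j ∈ Q, ι ε (a j) * ξ j else ι ε (a i) * ξ i) *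
        ι (q i).1 (q i).2 =
        ∑ j ∈ S i, ι (p i).1 (p i).2 * (ι ε (a j) * ξ j) * ι (q i).1 (q i).2 := by
    intro i
    simp only [hS]
    split_ifs with h
    · rw [Finset.mul_sum, Finset.sum_mul]
    · rw [Finset.sum_singleton]
  simp only [h1] at h0
  rw [← MultilinearMap.mkPiAlgebraFin_apply (R := ℚ), MultilinearMap.map_sum_finset] at h0
  simp only [MultilinearMap.mkPiAlgebraFin_apply] at h0
  have h2 : ∑ φ ∈ Fintype.piFinset S, c • (ι E (W (fun i => a (φ i))) *
      (List.ofFn (fun i => ξ (φ i))).prod) = 0 := by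
    rw [← h0]
    apply Finset.sum_congr rfl
    intro φ _
    exact (hexp (fun i => a (φ i)) (fun i => ξ (φ i)) (fun i e b => hE.comm e (φ i) b)).symm
  have h3 : ∑ σ ∈ Finset.univ.filter (fun σ : Equiv.Perm (Fin L) => ∀ i, i ∉ Q → σ i = i),
      c • (ι E (W (fun i => a (σ i))) * (List.ofFn (fun i => ξ (σ i))).prod) = 0 := by
    rw [← h2]
    apply Finset.sum_of_injOn (fun σ : Equiv.Perm (Fin L) => (⇑σ : Fin L → Fin L))
    · intro σ _ τ _ h
      exact DFunLike.coe_injective h
    · intro σ hσ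
      simp only [Finset.coe_filter, Finset.mem_univ, true_and, Set.mem_setOf_eq] at hσ
      simp only [Finset.mem_coe, Fintype.mem_piFinset]
      intro i
      simp only [hS]
      split_ifs with h
      · by_contra hcon
        exact hcon (by rw [σ.injective (hσ _ hcon)]; exact h)
      · rw [hσ i h]; exact Finset.mem_singleton_self i
    · intro φ hφ hnot
      rw [hxi1, mul_zero, smul_zero]
      intro hinj
      apply hnot
      refine ⟨Equiv.ofBijective φ (Finite.injective_iff_bijective.mp hinj), ?_, rfl⟩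
      simp only [Finset.coe_filter, Finset.mem_univ, true_and, Set.mem_setOf_eq]
      intro i hi
      have := Fintype.mem_piFinset.mp hφ i
      simp only [hS, if_neg hi, Finset.mem_singleton] at this
      exact this
    · intro σ _
      rfl
  have h4 : c • (ι E (∑ σ ∈ Finset.univ.filter
      (fun σ : Equiv.Perm (Fin L) => ∀ i, i ∉ Q → σ i = i),
      (if δ then ((Equiv.Perm.sign σ : ℤ) : ℚ) else 1) • W (fun i => a (σ i))) *
      (List.ofFn ξ).prod) = 0 := by
    rw [← h3, map_sum, Finset.sum_mul, Finset.smul_sum]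
    apply Finset.sum_congr rfl
    intro σ _
    rw [hxi2, map_smul, smul_mul_assoc, mul_smul_comm]
  have h5 := (smul_eq_zero.mp h4).resolve_left hc
  exact hE.inj E _ h5



end Pool.Agent.Helper277.Zel.Skewsum
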