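import Mathlib
import Pool.Agent.Helper277.Zel.Defs
import Pool.Agent.Helper277.Zel.E2

set_option autoImplicit false
set_option linter.unusedSectionVars false
set_option linter.all false
namespace Pool.Agent.Helper277.Zel.Spext




theorem spair_ext_br {A : Type} [Ring A] [Algebra ℚ A] (δ : Bool)
    (g : Bool → Submodule ℚ A) (h : Cl g) : Cl (G2 δ g) := by
  rintro e f x ⟨⟨a, b⟩, ⟨ha, hb⟩, rfl⟩ y ⟨⟨a', b'⟩, ⟨ha', hb'⟩, rfl⟩
  simp only at ha hb ha' hb'
  refine ⟨(a * a' - sg e f • (a' * a),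
    (b * a' - sg (xor e δ) f • (a' * b)) + sg δ e • (a * b' - sg e (xor f δ) • (b' * a))),
    ⟨h e f a ha a' ha', ?_⟩, ?_⟩
  · have h1 := h (xor e δ) f b hb a' ha'
    have h2 := h e (xor f δ) a ha b' hb'
    have e1 : xor (xor e δ) f = xor (xor e f) δ := by
      cases e <;> cases f <;> cases δ <;> rfl
    have e2 : xor e (xor f δ) = xor (xor e f) δ := by
      cases e <;> cases f <;> cases δ <;> rfl
    rw [e1] at h1
    rw [e2] at h2
    exact Submodule.add_mem _ h1 (Submodule.smul_mem _ _ h2)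
  · have c1 : sg δ (xor e f) = sg δ e * sg δ f := sg_xor_right _ _ _
    have c2 : sg (xor e δ) f = sg e f * sg δ f := sg_xor_left _ _ _
    have c3 : sg e (xor f δ) = sg e f * sg δ e := by
      rw [sg_xor_right, sg_comm e δ]
    have c4 : sg δ e * (sg e f * sg δ e) = sg e f := by
      rw [mul_comm (sg e f), ← mul_assoc, sg_mul_self, one_mul]
    show E2 δ (xor e f) _ _ = E2 δ e a b * E2 δ f a' b' - sg e f • (E2 δ f a' b' * E2 δ e a b)
    ext i j
    fin_cases i <;> fin_cases j
    · simp only [E2, c1, smul_sub, smul_smul]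
      simp [smul_smul]
      rw [mul_comm (sg δ f) (sg δ e), mul_comm (sg e f)]
    · simp [E2, c2, c3, smul_sub, smul_add, smul_smul, c4]
      abel
    · simp [E2]
    · simp [E2]

/-- TARGET (the formula `sy_ext` may be used, it is given as hypothesis `hsy`) -/
theorem spair_ext {A : Type} [Ring A] [Algebra ℚ A] (δ : Bool) (m : ℕ)
    (hsy : ∀ (n : ℕ) (e : Fin n → Bool) (a b : Fin n → A),
      Sy n (fun i => (e i, E2 δ (e i) (a i) (b i))) =
        !![(∏ i, sg δ (e i)) • Sy n (fun i => (e i, a i)),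
          ∑ k, (∏ j ∈ Finset.Iio k, sg δ (e j)) •
            Sy n (Function.update (fun i => (e i, a i)) k (xor (e k) δ, b k));
          0, Sy n (fun i => (e i, a i))])
    (g : Bool → Submodule ℚ A) (h : SPair m g) : SPair m (G2 δ g) := by
  refine ⟨spair_ext_br δ g h.br, ?_⟩
  intro z hz
  have hz' : ∀ i, ∃ p : A × A, (p.1 ∈ g (z i).1 ∧ p.2 ∈ g (xor (z i).1 δ)) ∧
      E2 δ (z i).1 p.1 p.2 = (z i).2 := by
    intro i
    obtain ⟨p, hp, hpe⟩ := hz i
    exact ⟨p, ⟨hp.1, hp.2⟩, hpe⟩
  choose p hp hpe using hz'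
  have hzz : z = fun i => ((z i).1, E2 δ (z i).1 (p i).1 (p i).2) := by
    funext i
    rw [hpe i]
  rw [hzz]
  rw [hsy m (fun i => (z i).1) (fun i => (p i).1) (fun i => (p i).2)]
  have h1 : Sy m (fun i => ((z i).1, (p i).1)) = 0 := h.idx _ (fun i => (hp i).1)
  have h2 : ∀ k, Sy m (Function.update (fun i => ((z i).1, (p i).1)) k
      (xor (z k).1 δ, (p k).2)) = 0 := by
    intro k
    apply h.idx
    intro i
    by_cases hik : i = k
    · subst hik
      rw [Function.update_self]
      exact (hp i).2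
    · rw [Function.update_of_ne hik]
      exact (hp i).1
  ext i j
  fin_cases i <;> fin_cases j <;> simp [h1, h2]


end Pool.Agent.Helper277.Zel.Spext
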