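import Mathlib
import Pool.Agent.Helper277.Zel.Defs
import Pool.Agent.Helper277.Zel.E2

set_option autoImplicit false
set_option linter.unusedSectionVars false
set_option linter.all false
namespace Pool.Agent.Helper277.Zel.Syext




theorem sy_ext_prodIio {n : ℕ} (k : Fin n) (f : Fin n → ℚ) :
    ∏ j ∈ Finset.Iio k, f j = ∏ j, if j < k then f j else 1 := by
  rw [← Finset.prod_filter]
  congr 1
  ext j
  simp

theorem sy_ext_prod_succAbove {n : ℕ} (i : Fin (n + 1)) (k : Fin n) (f : Fin (n + 1) → ℚ) :
    ∏ j ∈ Finset.Iio (i.succAbove k), f j =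
      (if i < i.succAbove k then f i else 1) * ∏ j ∈ Finset.Iio k, f (i.succAbove j) := by
  rw [sy_ext_prodIio, Fin.prod_univ_succAbove _ i, sy_ext_prodIio]
  congr 1
  refine Finset.prod_congr rfl fun j _ => ?_
  simp only [Fin.succAbove_lt_succAbove_iff]

theorem sy_ext_sign {A : Type} {n : ℕ} (z : Fin n → Bool × A) (i k : Fin n) (hik : k ≠ i)
    (δ : Bool) (y : A) :
    ∏ j ∈ Finset.Iio i, sg (Function.update z k (xor (z k).1 δ, y) j).1 (z i).1 =
      (if k < i then sg δ (z i).1 else 1) * ∏ j ∈ Finset.Iio i, sg (z j).1 (z i).1 := by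
  have h1 : ∀ j, sg (Function.update z k (xor (z k).1 δ, y) j).1 (z i).1 =
      (if j = k then sg δ (z i).1 else 1) * sg (z j).1 (z i).1 := by
    intro j
    by_cases h : j = k
    · subst h
      rw [Function.update_self, if_pos rfl, sg_xor_left, mul_comm]
    · rw [Function.update_of_ne h, if_neg h, one_mul]
  rw [Finset.prod_congr rfl fun j _ => h1 j, Finset.prod_mul_distrib]
  congr 1
  rw [Finset.prod_ite_eq' (Finset.Iio i) k (fun _ => sg δ (z i).1)]
  simp

theorem sy_ext_sign_self {A : Type} {n : ℕ} (z : Fin n → Bool × A) (i : Fin n)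
    (δ : Bool) (y : A) :
    (∏ j ∈ Finset.Iio i, sg δ (z j).1) *
      ∏ j ∈ Finset.Iio i, sg (Function.update z i (xor (z i).1 δ, y) j).1 (xor (z i).1 δ) =
      ∏ j ∈ Finset.Iio i, sg (z j).1 (z i).1 := by
  rw [← Finset.prod_mul_distrib]
  refine Finset.prod_congr rfl fun j hj => ?_
  have hj' : j ≠ i := (Finset.mem_Iio.1 hj).ne
  rw [Function.update_of_ne hj', sg_xor_right, sg_comm (z j).1 δ]
  calc sg δ (z j).1 * (sg (z j).1 (z i).1 * sg δ (z j).1)
      = (sg δ (z j).1 * sg δ (z j).1) * sg (z j).1 (z i).1 := by ring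
    _ = _ := by rw [sg_mul_self, one_mul]

theorem sy_ext_succ {A : Type} [Ring A] [Algebra ℚ A] {n : ℕ} (z : Fin (n + 1) → Bool × A) :
    Sy (n + 1) z = ∑ i : Fin (n + 1),
      (∏ j ∈ Finset.Iio i, sg (z j).1 (z i).1) • ((z i).2 * Sy n (fun j => z (i.succAbove j))) :=
  rfl

theorem sy_ext_01 {A : Type} [Ring A] [Algebra ℚ A] (δ : Bool) {n : ℕ}
    (z : Fin (n + 1) → Bool × A) (b : Fin (n + 1) → A) :
    ∑ k, (∏ j ∈ Finset.Iio k, sg δ (z j).1) •
      Sy (n + 1) (Function.update z k (xor (z k).1 δ, b k)) =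
    ∑ i, (∏ j ∈ Finset.Iio i, sg (z j).1 (z i).1) •
      (b i * Sy n (fun j => z (i.succAbove j)) +
        sg δ (z i).1 • ((z i).2 * ∑ k, (∏ j ∈ Finset.Iio k, sg δ (z (i.succAbove j)).1) •
          Sy n (Function.update (fun j => z (i.succAbove j)) k
            (xor (z (i.succAbove k)).1 δ, b (i.succAbove k))))) := by
  simp only [sy_ext_succ, Finset.smul_sum, smul_smul]
  rw [Finset.sum_comm]
  refine Finset.sum_congr rfl fun i _ => ?_
  rw [Fin.sum_univ_succAbove _ i, smul_add]
  congr 1
  · -- k = i
    rw [Function.update_self]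
    simp only
    rw [sy_ext_sign_self]
    congr 2
    congr 1
    funext j
    rw [Function.update_of_ne (Fin.succAbove_ne i j)]
  · rw [Finset.mul_sum, Finset.smul_sum, Finset.smul_sum]
    refine Finset.sum_congr rfl fun k _ => ?_
    have hne : i.succAbove k ≠ i := Fin.succAbove_ne i k
    rw [Function.update_of_ne hne.symm, sy_ext_sign z i _ hne, sy_ext_prod_succAbove,
      mul_smul_comm, smul_smul, smul_smul]
    have h1 : (fun j => Function.update z (i.succAbove k)
        (xor (z (i.succAbove k)).1 δ, b (i.succAbove k)) (i.succAbove j)) =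
        Function.update (fun j => z (i.succAbove j)) k
            (xor (z (i.succAbove k)).1 δ, b (i.succAbove k)) := by
      funext j
      by_cases h : j = k
      · subst h; rw [Function.update_self, Function.update_self]
      · rw [Function.update_of_ne h, Function.update_of_ne]
        exact fun h' => h (Fin.succAbove_right_injective h')
    rw [h1]
    congr 1
    rcases lt_or_gt_of_ne hne with h | h
    · rw [if_pos h, if_neg (not_lt.2 h.le)]; ring
    · rw [if_neg (not_lt.2 h.le), if_pos h]; ring

/-- TARGET -/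
theorem sy_ext {A : Type} [Ring A] [Algebra ℚ A] (δ : Bool) :
    ∀ (n : ℕ) (e : Fin n → Bool) (a b : Fin n → A),
      Sy n (fun i => (e i, E2 δ (e i) (a i) (b i))) =
        !![(∏ i, sg δ (e i)) • Sy n (fun i => (e i, a i)),
          ∑ k, (∏ j ∈ Finset.Iio k, sg δ (e j)) •
            Sy n (Function.update (fun i => (e i, a i)) k (xor (e k) δ, b k));
          0, Sy n (fun i => (e i, a i))] := by
  intro n
  induction n with
  | zero =>
    intro e a b
    simp [Sy, Matrix.one_fin_two]
  | succ n ih =>
    intro e a b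
    have hS : Sy (n + 1) (fun i => (e i, E2 δ (e i) (a i) (b i))) =
      ∑ i, (∏ j ∈ Finset.Iio i, sg (e j) (e i)) • (E2 δ (e i) (a i) (b i) *
        Sy n (fun j => (e (i.succAbove j), E2 δ (e (i.succAbove j)) (a (i.succAbove j))
          (b (i.succAbove j))))) := rfl
    have h01 := sy_ext_01 δ (fun i => (e i, a i)) b
    simp only at h01
    rw [hS, h01]
    have hterm : ∀ i : Fin (n + 1), (∏ j ∈ Finset.Iio i, sg (e j) (e i)) •
        (E2 δ (e i) (a i) (b i) *
        Sy n (fun j => (e (i.succAbove j), E2 δ (e (i.succAbove j)) (a (i.succAbove j))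
          (b (i.succAbove j))))) =
        !![(∏ i, sg δ (e i)) • ((∏ j ∈ Finset.Iio i, sg (e j) (e i)) •
            (a i * Sy n (fun j => (e (i.succAbove j), a (i.succAbove j))))),
          (∏ j ∈ Finset.Iio i, sg (e j) (e i)) •
            (b i * Sy n (fun j => (e (i.succAbove j), a (i.succAbove j))) +
              sg δ (e i) • (a i * ∑ k, (∏ j ∈ Finset.Iio k, sg δ (e (i.succAbove j))) •
                Sy n (Function.update (fun j => (e (i.succAbove j), a (i.succAbove j))) k
                  (xor (e (i.succAbove k)) δ, b (i.succAbove k)))));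
          0, (∏ j ∈ Finset.Iio i, sg (e j) (e i)) •
            (a i * Sy n (fun j => (e (i.succAbove j), a (i.succAbove j))))] := by
      intro i
      rw [ih (fun j => e (i.succAbove j)) (fun j => a (i.succAbove j))
        (fun j => b (i.succAbove j)), Fin.prod_univ_succAbove (fun i => sg δ (e i)) i]
      unfold E2
      rw [Matrix.mul_fin_two]
      ext p q
      fin_cases p <;> fin_cases q
      · simp [smul_smul]
        ring_nf
      · simp
        rw [add_comm]
      · simp
      · simp
    rw [Finset.sum_congr rfl fun i _ => hterm i]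
    ext p q
    rw [Matrix.sum_apply]
    fin_cases p <;> fin_cases q
    · simp [sy_ext_succ, Finset.smul_sum]
    · simp
    · simp
    · simp [sy_ext_succ]


end Pool.Agent.Helper277.Zel.Syext
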