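import Mathlib
import Pool.Agent.Helper277.Zel.Defs

set_option autoImplicit false
set_option linter.unusedSectionVars false
set_option linter.all false
namespace Pool.Agent.Helper277.Zel.Symskew


section symskew
variable {ι M : Type} [DecidableEq ι] [AddCommGroup M] [Module ℚ M]
    (ρ : Equiv.Perm ι →* Module.End ℚ M)

theorem sw_self (a : ι) (v : M) : ρ (Equiv.swap a a) v = v := by
  rw [Equiv.swap_self, show (Equiv.refl ι : Equiv.Perm ι) = 1 from rfl, map_one,
    Module.End.one_apply]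

theorem sw_sw (a b : ι) (v : M) : ρ (Equiv.swap a b) (ρ (Equiv.swap a b) v) = v := by
  rw [← Module.End.mul_apply, ← map_mul, Equiv.swap_mul_self, map_one, Module.End.one_apply]

theorem sw_conj (a b c d : ι) (v : M) : ρ (Equiv.swap a b) (ρ (Equiv.swap c d) v) =
    ρ (Equiv.swap (Equiv.swap a b c) (Equiv.swap a b d)) (ρ (Equiv.swap a b) v) := by
  rw [← Module.End.mul_apply, ← map_mul, Equiv.mul_swap_eq_swap_mul, map_mul,
    Module.End.mul_apply]

theorem sw_conj' (a b c d : ι) (v : M) : ρ (Equiv.swap a b) (ρ (Equiv.swap c d) v) =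
    ρ (Equiv.swap c d) (ρ (Equiv.swap (Equiv.swap c d a) (Equiv.swap c d b)) v) := by
  have h : ∀ x, Equiv.swap c d (Equiv.swap c d x) = x := fun x => by
    rw [← Equiv.Perm.mul_apply, Equiv.swap_mul_self, Equiv.Perm.one_apply]
  rw [sw_conj ρ c d, h, h]

theorem mem_swap_iff {Q : Finset ι} {a b : ι} (ha : a ∈ Q) (hb : b ∈ Q) (i : ι) :
    i ∈ Q ↔ Equiv.swap a b i ∈ Q := by
  by_cases h1 : i = a
  · subst h1; rw [Equiv.swap_apply_left]; exact ⟨fun _ => hb, fun _ => ha⟩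
  · by_cases h2 : i = b
    · subst h2; rw [Equiv.swap_apply_right]; exact ⟨fun _ => ha, fun _ => hb⟩
    · rw [Equiv.swap_apply_of_ne_of_ne h1 h2]

theorem symA {Q : Finset ι} {j : ι} (hj : j ∉ Q) {v : M}
    (hv : ∀ a ∈ Q, ∀ b ∈ Q, ρ (Equiv.swap a b) v = v) :
    ∀ a ∈ insert j Q, ∀ b ∈ insert j Q,
      ρ (Equiv.swap a b) (v + ∑ i ∈ Q, ρ (Equiv.swap i j) v) =
        v + ∑ i ∈ Q, ρ (Equiv.swap i j) v := by
  have hmix : ∀ a ∈ Q, ρ (Equiv.swap a j) (v + ∑ i ∈ Q, ρ (Equiv.swap i j) v) =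
        v + ∑ i ∈ Q, ρ (Equiv.swap i j) v := by
    intro a ha
    rw [map_add, map_sum, ← Finset.add_sum_erase Q _ ha, ← Finset.add_sum_erase Q _ ha, sw_sw]
    have h1 : ∑ x ∈ Q.erase a, ρ (Equiv.swap a j) (ρ (Equiv.swap x j) v) =
        ∑ x ∈ Q.erase a, ρ (Equiv.swap x j) v := by
      refine Finset.sum_congr rfl fun i hi => ?_
      have hia : i ≠ a := Finset.ne_of_mem_erase hi
      have hiQ : i ∈ Q := Finset.mem_of_mem_erase hi
      have haj : a ≠ j := fun h => hj (h ▸ ha)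
      rw [sw_conj', Equiv.swap_apply_right, Equiv.swap_apply_of_ne_of_ne (Ne.symm hia) haj,
        hv a ha i hiQ]
    rw [h1]
    abel
  intro a ha0 b hb0
  rcases Finset.mem_insert.mp ha0 with ha | ha
  · rcases Finset.mem_insert.mp hb0 with hb | hb
    · rw [ha, hb, sw_self]
    · rw [ha, Equiv.swap_comm]; exact hmix b hb
  · rcases Finset.mem_insert.mp hb0 with hb | hb
    · rw [hb]; exact hmix a ha
    · rw [map_add, map_sum, hv a ha b hb]
      congr 1
      refine Finset.sum_equiv (Equiv.swap a b) (mem_swap_iff ha hb) fun i hi => ?_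
      have haj : j ≠ a := fun h => hj (h ▸ ha)
      have hbj : j ≠ b := fun h => hj (h ▸ hb)
      rw [sw_conj, Equiv.swap_apply_of_ne_of_ne haj hbj, hv a ha b hb]

theorem skewA {P : Finset ι} {i : ι} (hi : i ∉ P) {v : M}
    (hv : ∀ a ∈ P, ∀ b ∈ P, a ≠ b → ρ (Equiv.swap a b) v = -v) :
    ∀ a ∈ insert i P, ∀ b ∈ insert i P, a ≠ b →
      ρ (Equiv.swap a b) (v - ∑ j ∈ P, ρ (Equiv.swap i j) v) =
        -(v - ∑ j ∈ P, ρ (Equiv.swap i j) v) := by
  have hmix : ∀ a ∈ P, ρ (Equiv.swap i a) (v - ∑ j ∈ P, ρ (Equiv.swap i j) v) =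
        -(v - ∑ j ∈ P, ρ (Equiv.swap i j) v) := by
    intro a ha
    rw [map_sub, map_sum, ← Finset.add_sum_erase P _ ha, ← Finset.add_sum_erase P _ ha, sw_sw]
    have h1 : ∑ x ∈ P.erase a, ρ (Equiv.swap i a) (ρ (Equiv.swap i x) v) =
        -∑ x ∈ P.erase a, ρ (Equiv.swap i x) v := by
      rw [← Finset.sum_neg_distrib]
      refine Finset.sum_congr rfl fun j hj => ?_
      have hja : j ≠ a := Finset.ne_of_mem_erase hj
      have hjP : j ∈ P := Finset.mem_of_mem_erase hj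
      have hai : a ≠ i := fun h => hi (h ▸ ha)
      rw [sw_conj', Equiv.swap_apply_left, Equiv.swap_apply_of_ne_of_ne hai (Ne.symm hja),
        hv j hjP a ha hja, map_neg]
    rw [h1]
    abel
  intro a ha0 b hb0 hab
  rcases Finset.mem_insert.mp ha0 with ha | ha
  · rcases Finset.mem_insert.mp hb0 with hb | hb
    · exact absurd (ha.trans hb.symm) hab
    · rw [ha]; exact hmix b hb
  · rcases Finset.mem_insert.mp hb0 with hb | hb
    · rw [hb, Equiv.swap_comm]; exact hmix a ha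
    · rw [map_sub, map_sum, hv a ha b hb hab, neg_sub', ← Finset.sum_neg_distrib]
      congr 1
      refine Finset.sum_equiv (Equiv.swap a b) (mem_swap_iff ha hb) fun j hj => ?_
      have hai : i ≠ a := fun h => hi (h ▸ ha)
      have hbi : i ≠ b := fun h => hi (h ▸ hb)
      rw [sw_conj, Equiv.swap_apply_of_ne_of_ne hai hbi, hv a ha b hb hab, map_neg]

end symskew

/-- TARGET -/
theorem symskew_aux {ι M : Type} [DecidableEq ι] [AddCommGroup M] [Module ℚ M]
    (ρ : Equiv.Perm ι →* Module.End ℚ M) :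
    ∀ (k q : ℕ) (X : Finset ι) (N : Submodule ℚ M), q * k < X.card →
      (∀ a ∈ X, ∀ b ∈ X, ∀ v ∈ N, ρ (Equiv.swap a b) v ∈ N) →
      (∀ Q ⊆ X, Q.card = q + 1 → ∀ v ∈ N,
        (∀ a ∈ Q, ∀ b ∈ Q, ρ (Equiv.swap a b) v = v) → v = 0) →
      (∀ P ⊆ X, P.card = k + 1 → ∀ v ∈ N,
        (∀ a ∈ P, ∀ b ∈ P, a ≠ b → ρ (Equiv.swap a b) v = -v) → v = 0) →
      ∀ v ∈ N, v = 0 := by
  classical
  intro k
  induction k with
  | zero =>
    intro q X N hcard hN hsym hskew v hv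
    rw [mul_zero, Finset.card_pos] at hcard
    obtain ⟨x, hx⟩ := hcard
    refine hskew {x} (Finset.singleton_subset_iff.mpr hx) (Finset.card_singleton x) v hv ?_
    intro a ha b hb hab
    rw [Finset.mem_singleton] at ha hb
    exact absurd (ha.trans hb.symm) hab
  | succ k ih =>
    intro q X N hcard hN hsym hskew
    by_contra hcon
    push Not at hcon
    obtain ⟨v0, hv0, hv0ne⟩ := hcon
    let Pd : ℕ → Prop := fun n => ∃ Q : Finset ι, Q ⊆ X ∧ Q.card = n ∧ ∃ v ∈ N, v ≠ 0 ∧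
      ∀ a ∈ Q, ∀ b ∈ Q, ρ (Equiv.swap a b) v = v
    have hPd0 : Pd 0 := ⟨∅, Finset.empty_subset X, Finset.card_empty, v0, hv0, hv0ne,
      fun a ha => absurd ha (Finset.notMem_empty a)⟩
    have hPdq : ¬ Pd (q + 1) := by
      rintro ⟨Q, hQX, hQ, v, hv, hvne, hvQ⟩
      exact hvne (hsym Q hQX hQ v hv hvQ)
    set q' : ℕ := Nat.findGreatest Pd q with hq'
    have hq'q : q' ≤ q := Nat.findGreatest_le q
    have hspec : Pd q' := Nat.findGreatest_spec (Nat.zero_le q) hPd0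
    have hmax : ¬ Pd (q' + 1) := by
      rcases Nat.lt_or_ge q' q with h | h
      · exact Nat.findGreatest_is_greatest (Nat.lt_succ_self q') h
      · have : q' = q := le_antisymm hq'q h
        rw [this]; exact hPdq
    have hmax' : ∀ Q : Finset ι, Q ⊆ X → Q.card = q' + 1 → ∀ v ∈ N,
        (∀ a ∈ Q, ∀ b ∈ Q, ρ (Equiv.swap a b) v = v) → v = 0 := by
      intro Q hQX hQ v hv hvQ
      by_contra hne
      exact hmax ⟨Q, hQX, hQ, v, hv, hne, hvQ⟩
    clear_value q'
    obtain ⟨Q, hQX, hQ, v1, hv1, hv1ne, hv1Q⟩ := hspec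
    let N' : Submodule ℚ M :=
      { carrier := {v | v ∈ N ∧ ∀ a ∈ Q, ∀ b ∈ Q, ρ (Equiv.swap a b) v = v}
        add_mem' := by
          rintro x y ⟨hx1, hx2⟩ ⟨hy1, hy2⟩
          refine ⟨N.add_mem hx1 hy1, fun a ha b hb => ?_⟩
          rw [map_add, hx2 a ha b hb, hy2 a ha b hb]
        zero_mem' := ⟨N.zero_mem, fun a _ b _ => map_zero _⟩
        smul_mem' := by
          rintro c x ⟨hx1, hx2⟩
          refine ⟨N.smul_mem c hx1, fun a ha b hb => ?_⟩
          rw [map_smul, hx2 a ha b hb] }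
    have hN' : ∀ v, v ∈ N' ↔ v ∈ N ∧ ∀ a ∈ Q, ∀ b ∈ Q, ρ (Equiv.swap a b) v = v :=
      fun v => Iff.rfl
    have hX'X : X \ Q ⊆ X := Finset.sdiff_subset
    have hcard' : q' * k < (X \ Q).card := by
      rw [Finset.card_sdiff_of_subset hQX, hQ]
      have h1 : q' * k ≤ q * k := Nat.mul_le_mul_right k hq'q
      have h2 : q * (k + 1) = q * k + q := by ring
      omega
    refine hv1ne (ih q' (X \ Q) N' hcard' ?_ ?_ ?_ v1 ⟨hv1, hv1Q⟩)
    · rintro a ha b hb v ⟨hv, hvQ⟩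
      refine ⟨hN a (hX'X ha) b (hX'X hb) v hv, fun c hc d hd => ?_⟩
      have haQ := (Finset.mem_sdiff.mp ha).2
      have hbQ := (Finset.mem_sdiff.mp hb).2
      have e1 : a ≠ c := by rintro rfl; exact haQ hc
      have e2 : a ≠ d := by rintro rfl; exact haQ hd
      have e3 : b ≠ c := by rintro rfl; exact hbQ hc
      have e4 : b ≠ d := by rintro rfl; exact hbQ hd
      rw [sw_conj, Equiv.swap_apply_of_ne_of_ne e1 e2, Equiv.swap_apply_of_ne_of_ne e3 e4,
        hvQ c hc d hd]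
    · rintro Q'' hQ'' hcQ'' v ⟨hv, -⟩ hvQ''
      exact hmax' Q'' (hQ''.trans hX'X) hcQ'' v hv hvQ''
    · rintro P hP hcP v ⟨hv, hvQ⟩ hvP
      have hPX : P ⊆ X := hP.trans hX'X
      have hPQ : ∀ j ∈ P, j ∉ Q := fun j hj => (Finset.mem_sdiff.mp (hP hj)).2
      have hi : ∀ j ∈ P, v + ∑ i ∈ Q, ρ (Equiv.swap i j) v = 0 := by
        intro j hj
        refine hmax' (insert j Q) ?_ ?_ _ ?_ (symA ρ (hPQ j hj) hvQ)
        · exact Finset.insert_subset (hPX hj) hQX
        · rw [Finset.card_insert_of_notMem (hPQ j hj), hQ]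
        · exact N.add_mem hv (N.sum_mem fun i hi => hN i (hQX hi) j (hPX hj) v hv)
      have hii : ∀ i ∈ Q, v - ∑ j ∈ P, ρ (Equiv.swap i j) v = 0 := by
        intro i hiQ
        have hiP : i ∉ P := fun h => hPQ i h hiQ
        refine hskew (insert i P) ?_ ?_ _ ?_ (skewA ρ hiP hvP)
        · exact Finset.insert_subset (hQX hiQ) hPX
        · rw [Finset.card_insert_of_notMem hiP, hcP]
        · exact N.sub_mem hv (N.sum_mem fun j hj => hN i (hQX hiQ) j (hPX hj) v hv)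
      have h1 : ∑ j ∈ P, (v + ∑ i ∈ Q, ρ (Equiv.swap i j) v) = 0 := Finset.sum_eq_zero hi
      have h2 : ∑ i ∈ Q, (v - ∑ j ∈ P, ρ (Equiv.swap i j) v) = 0 := Finset.sum_eq_zero hii
      rw [Finset.sum_add_distrib, Finset.sum_const] at h1
      rw [Finset.sum_sub_distrib, Finset.sum_const, Finset.sum_comm] at h2
      have h3 : (P.card + Q.card) • v = 0 := by
        rw [add_smul]
        calc P.card • v + Q.card • v
            = (P.card • v + ∑ j ∈ P, ∑ i ∈ Q, ρ (Equiv.swap i j) v) +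
              (Q.card • v - ∑ j ∈ P, ∑ i ∈ Q, ρ (Equiv.swap i j) v) := by abel
          _ = 0 := by rw [h1, h2, add_zero]
      have h4 : P.card + Q.card ≠ 0 := by omega
      rw [← Nat.cast_smul_eq_nsmul ℚ] at h3
      exact (smul_eq_zero.mp h3).resolve_left (by exact_mod_cast h4)


end Pool.Agent.Helper277.Zel.Symskew
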