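import Mathlib
import Pool.Agent.Helper277.Zel.Defs

set_option autoImplicit false
set_option linter.unusedSectionVars false
set_option linter.all false
namespace Pool.Agent.Helper277.Zel.Xiprod


theorem zel5_false {B : Type} [Ring B] {L : ℕ} (ξ : Fin L → B)
    (hx : ∀ i j, ξ i * ξ j = ξ j * ξ i) (hsq : ∀ i, ξ i * ξ i = 0) :
    (∀ φ : Fin L → Fin L, ¬ Function.Injective φ →
      (List.ofFn (fun i => ξ (φ i))).prod = 0) ∧
    (∀ σ : Equiv.Perm (Fin L), (List.ofFn (fun i => ξ (σ i))).prod = (List.ofFn ξ).prod) := by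
  have hcomm : ∀ l : List (Fin L), (l.map ξ).Pairwise Commute := by
    intro l
    rw [List.pairwise_map]
    exact List.pairwise_of_forall fun a b => hx a b
  constructor
  · intro φ hφ
    have h1 : (List.ofFn fun i => ξ (φ i)) = (List.ofFn φ).map ξ := by
      rw [List.map_ofFn]
      rfl
    have h2 : ¬ (List.ofFn φ).Nodup := fun h => hφ (List.nodup_ofFn.1 h)
    obtain ⟨x, hxd⟩ := List.exists_duplicate_iff_not_nodup.2 h2
    obtain ⟨l', hl'⟩ := (List.duplicate_iff_sublist.1 hxd).exists_perm_append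
    have hp : (List.ofFn φ).Perm (x :: x :: l') := hl'
    rw [h1, (hp.map ξ).prod_eq' (hcomm _), List.map_cons, List.map_cons, List.prod_cons,
      List.prod_cons, ← mul_assoc, hsq, zero_mul]
  · intro σ
    have h1 : (List.ofFn fun i => ξ (σ i)) = (List.ofFn σ).map ξ := by
      rw [List.map_ofFn]
      rfl
    have h2 : (List.ofFn ξ) = (List.ofFn (id : Fin L → Fin L)).map ξ := by
      rw [List.map_ofFn]
      rfl
    have hp : (List.ofFn σ).Perm (List.ofFn (id : Fin L → Fin L)) :=
      Equiv.Perm.ofFn_comp_perm σ id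
    rw [h1, h2, (hp.map ξ).prod_eq' (hcomm _)]

theorem zel5_true {B : Type} [Ring B] [Algebra ℚ B] {L : ℕ} (ξ : Fin L → B)
    (hx : ∀ i j, ξ i * ξ j = -(ξ j * ξ i)) :
    (∀ φ : Fin L → Fin L, ¬ Function.Injective φ →
      (List.ofFn (fun i => ξ (φ i))).prod = 0) ∧
    (∀ σ : Equiv.Perm (Fin L), (List.ofFn (fun i => ξ (σ i))).prod =
      ((Equiv.Perm.sign σ : ℤ) : ℚ) • (List.ofFn ξ).prod) := by
  have hf : ∀ c : Fin L → ℚ, Fintype.linearCombination ℚ ξ c * Fintype.linearCombination ℚ ξ c = 0 := by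
    intro c
    rw [Fintype.linearCombination_apply, Finset.sum_mul_sum]
    set S := ∑ i, ∑ j, c i • ξ i * c j • ξ j with hS
    have h1 : S = -S := by
      calc S = ∑ i, ∑ j, -(c j • ξ j * c i • ξ i) := by
            rw [hS]
            refine Finset.sum_congr rfl fun i _ => Finset.sum_congr rfl fun j _ => ?_
            rw [smul_mul_smul_comm, smul_mul_smul_comm, hx i j, smul_neg, mul_comm]
        _ = -S := by
            rw [hS, Finset.sum_comm]
            simp only [Finset.sum_neg_distrib]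
    have h2 : (2 : ℚ) • S = 0 := by
      rw [two_smul]
      nth_rewrite 1 [h1]
      exact neg_add_cancel S
    exact (smul_eq_zero.1 h2).resolve_left two_ne_zero
  let F : ExteriorAlgebra ℚ (Fin L → ℚ) →ₐ[ℚ] B :=
    ExteriorAlgebra.lift ℚ ⟨Fintype.linearCombination ℚ ξ, hf⟩
  have hF : ∀ v, F (ExteriorAlgebra.ι ℚ v) = Fintype.linearCombination ℚ ξ v := fun v =>
    ExteriorAlgebra.lift_ι_apply ℚ _ hf v
  let alt := F.toLinearMap.compAlternatingMap (ExteriorAlgebra.ιMulti ℚ L (M := Fin L → ℚ))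
  have halt : ∀ φ : Fin L → Fin L, alt (fun i => Pi.single (φ i) (1 : ℚ)) =
      (List.ofFn (fun i => ξ (φ i))).prod := by
    intro φ
    change F (ExteriorAlgebra.ιMulti ℚ L (fun i => Pi.single (φ i) (1 : ℚ))) = _
    rw [ExteriorAlgebra.ιMulti_apply, map_list_prod, List.map_ofFn]
    congr 2
    funext i
    change F (ExteriorAlgebra.ι ℚ (Pi.single (φ i) (1 : ℚ))) = ξ (φ i)
    rw [hF, Fintype.linearCombination_apply_single, one_smul]
  constructor
  · intro φ hφ
    rw [← halt]
    apply AlternatingMap.map_eq_zero_of_not_injective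
    intro hinj
    apply hφ
    intro i j hij
    apply hinj
    change (Pi.single (φ i) (1 : ℚ) : Fin L → ℚ) = Pi.single (φ j) 1
    rw [hij]
  · intro σ
    rw [← halt]
    have h1 : (List.ofFn ξ).prod = alt (fun i => Pi.single i (1 : ℚ)) := (halt id).symm
    rw [h1]
    have h2 := AlternatingMap.map_perm alt (fun i => Pi.single i (1 : ℚ)) σ
    have h3 : (fun i => (Pi.single (σ i) (1 : ℚ) : Fin L → ℚ)) =
        (fun i : Fin L => (Pi.single i (1 : ℚ) : Fin L → ℚ)) ∘ σ := rfl
    rw [h3, h2]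
    rw [Units.smul_def, ← Int.cast_smul_eq_zsmul ℚ]

/-- TARGET -/
theorem xi_prod {B : Type} [Ring B] [Algebra ℚ B] {L : ℕ} (δ : Bool) (ξ : Fin L → B)
    (hx : ∀ i j, ξ i * ξ j = sg δ δ • (ξ j * ξ i)) (hsq : ∀ i, ξ i * ξ i = 0) :
    (∀ φ : Fin L → Fin L, ¬ Function.Injective φ →
      (List.ofFn (fun i => ξ (φ i))).prod = 0) ∧
    (∀ σ : Equiv.Perm (Fin L), (List.ofFn (fun i => ξ (σ i))).prod =
      (if δ then ((Equiv.Perm.sign σ : ℤ) : ℚ) else 1) • (List.ofFn ξ).prod) := by
  cases δ with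
  | false =>
    have h := zel5_false ξ (fun i j => by
      have := hx i j
      rw [sg_false_left, one_smul] at this
      exact this) hsq
    refine ⟨h.1, fun σ => ?_⟩
    rw [h.2 σ]
    simp
  | true =>
    have h := zel5_true ξ (fun i j => by
      have := hx i j
      have e : sg true true = -1 := by simp [sg]
      rw [e, neg_smul, one_smul] at this
      exact this)
    refine ⟨h.1, fun σ => ?_⟩
    rw [h.2 σ]
    simp


end Pool.Agent.Helper277.Zel.Xiprod
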