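import Mathlib
import Pool.Agent.Helper277.Zel.Defs

set_option autoImplicit false
set_option linter.unusedSectionVars false
set_option linter.all false
namespace Pool.Agent.Helper277.Zel.Zorn


/-- TARGET: a maximal sub super pair with uniform nilpotency index `M`. -/
theorem zorn_max {A : Type} [Ring A] [Algebra ℚ A] (g : Bool → Submodule ℚ A) (M : ℕ)
    (hM : 1 ≤ M) :
    ∃ h : Bool → Submodule ℚ A, (∀ e, h e ≤ g e) ∧ Cl h ∧ NilIdx h M ∧
      ∀ h' : Bool → Submodule ℚ A, (∀ e, h e ≤ h' e) → (∀ e, h' e ≤ g e) → Cl h' →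
        NilIdx h' M → ∀ e, h' e ≤ h e := by
  classical
  set S : Set (Bool → Submodule ℚ A) := {h | (∀ e, h e ≤ g e) ∧ Cl h ∧ NilIdx h M} with hS
  have hz := zorn_le₀ S (by
    intro c hcS hc
    rcases c.eq_empty_or_nonempty with rfl | hne
    · refine ⟨⊥, ⟨fun e => bot_le, ?_, ?_⟩, fun z hz => absurd hz (Set.notMem_empty z)⟩
      · intro e f x hx y hy
        have hx' : x = 0 := (Submodule.mem_bot ℚ).1 hx
        rw [hx', zero_mul, mul_zero, smul_zero, sub_zero]
        exact Submodule.zero_mem _
      · intro w hw hl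
        match w, hl with
        | [], hl => simp at hl; omega
        | p :: w, _ =>
          have hp : p.2 = 0 := (Submodule.mem_bot ℚ).1 (hw p (by simp))
          rw [val_cons, hp, zero_mul]
    · have hmem : ∀ e x, x ∈ (sSup c) e ↔ ∃ h ∈ c, x ∈ h e := by
        intro e x
        rw [sSup_apply]
        haveI : Nonempty c := hne.to_subtype
        rw [Submodule.mem_iSup_of_directed]
        · simp
        · intro a b
          rcases hc.total a.2 b.2 with h | h
          · exact ⟨b, h e, le_rfl⟩
          · exact ⟨a, le_rfl, h e⟩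
      refine ⟨sSup c, ⟨?_, ?_, ?_⟩, fun z hz => le_sSup hz⟩
      · intro e x hx
        obtain ⟨h, hh, hx⟩ := (hmem e x).1 hx
        exact (hcS hh).1 e hx
      · intro e f x hx y hy
        obtain ⟨h1, hh1, hx⟩ := (hmem e x).1 hx
        obtain ⟨h2, hh2, hy⟩ := (hmem f y).1 hy
        rw [hmem]
        rcases hc.total hh1 hh2 with h | h
        · exact ⟨h2, hh2, (hcS hh2).2.1 e f x (h e hx) y hy⟩
        · exact ⟨h1, hh1, (hcS hh1).2.1 e f x hx y (h f hy)⟩
      · have hw : ∀ w : Wd A, Hw (sSup c) w → ∃ h ∈ c, Hw h w := by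
          intro w
          induction w with
          | nil =>
            intro _
            obtain ⟨h, hh⟩ := hne
            exact ⟨h, hh, fun p hp => absurd hp (by simp)⟩
          | cons p w ih =>
            intro hw
            obtain ⟨h1, hh1, hw1⟩ := ih (fun q hq => hw q (List.mem_cons_of_mem _ hq))
            obtain ⟨h2, hh2, hp⟩ := (hmem p.1 p.2).1 (hw p (by simp))
            rcases hc.total hh1 hh2 with h | h
            · refine ⟨h2, hh2, fun q hq => ?_⟩
              rcases List.mem_cons.1 hq with rfl | hq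
              · exact hp
              · exact h _ (hw1 q hq)
            · refine ⟨h1, hh1, fun q hq => ?_⟩
              rcases List.mem_cons.1 hq with rfl | hq
              · exact h _ hp
              · exact hw1 q hq
        intro w hw' hl
        obtain ⟨h, hh, hwh⟩ := hw w hw'
        exact (hcS hh).2.2 w hwh hl)
  obtain ⟨h, hmax⟩ := hz
  refine ⟨h, hmax.prop.1, hmax.prop.2.1, hmax.prop.2.2, fun h' hle hg hcl hnil e => ?_⟩
  exact hmax.le_of_ge (show h' ∈ S from ⟨hg, hcl, hnil⟩) hle e


end Pool.Agent.Helper277.Zel.Zorn
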