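import Mathlib
import Pool.Agent.Helper277.Zel.Symskew
import Pool.Agent.Helper277.Zel.Syext
import Pool.Agent.Helper277.Zel.Spext
import Pool.Agent.Helper277.Zel.Extex
import Pool.Agent.Helper277.Zel.Xiprod
import Pool.Agent.Helper277.Zel.Expand
import Pool.Agent.Helper277.Zel.Compress
import Pool.Agent.Helper277.Zel.Rel
import Pool.Agent.Helper277.Zel.AnnA1
import Pool.Agent.Helper277.Zel.AnnA2
import Pool.Agent.Helper277.Zel.Zorn
import Pool.Agent.Helper277.Zel.Normext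
import Pool.Agent.Helper277.Zel.Primeq
import Pool.Agent.Helper277.Zel.Prime
import Pool.Agent.Helper277.Zel.OccL
import Pool.Agent.Helper277.Zel.Skewsum
import Pool.Agent.Helper277.Zel.Bindcore
import Pool.Agent.Helper277.Zel.Bind

set_option autoImplicit false
namespace Pool.Agent.Helper277.Zel

theorem ext_exists' (m : ℕ) (δ : Bool) (L : ℕ) (A : Type) [Ring A] [Algebra ℚ A]
    (g : Bool → Submodule ℚ A) (hg : SPair m g) :
    ∃ (B : Type) (_ : Ring B) (_ : Algebra ℚ B) (G : Bool → Submodule ℚ B)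
      (ι : Bool → A →ₗ[ℚ] B) (ξ : Fin L → B), Ext m δ L g G ι ξ :=
  Extex.ext_exists m δ (fun A _ _ g h => Spext.spair_ext δ m (Syext.sy_ext δ) g h) L A g hg

theorem core (m L : ℕ) (A : Type) [Ring A] [Algebra ℚ A] (g : Bool → Submodule ℚ A) (ε : Bool)
    (K : ℕ) (hK : 1 ≤ K) (hL : (K - 1) * (K - 1) < L) (p q : Fin L → Bool × A)
    (hE : ∀ δ : Bool, ∃ (B : Type) (_ : Ring B) (_ : Algebra ℚ B) (G : Bool → Submodule ℚ B)
        (ι : Bool → A →ₗ[ℚ] B) (ξ : Fin L → B), Ext m δ L g G ι ξ ∧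
        ∀ Q : Finset (Fin L), Q.card = K → ∀ y ∈ G (xor ε δ), ∀ y' : Fin L → B,
          (∀ i, y' i ∈ G (xor ε δ)) →
          (List.ofFn (fun i => ι (p i).1 (p i).2 * (if i ∈ Q then y else y' i) *
            ι (q i).1 (q i).2)).prod = 0)
    (a : Fin L → A) (ha : ∀ i, a i ∈ g ε) :
    (List.ofFn (fun i => (p i).2 * a i * (q i).2)).prod = 0 := by
  refine Bindcore.bind_core g ε K L hK hL p q ?_ ?_ a ha
  · intro δ Q hQ b hb
    obtain ⟨B, i1, i2, G, ι, ξ, hX, hv⟩ := hE δ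
    have hxi := Xiprod.xi_prod δ ξ hX.xx hX.sq
    exact Skewsum.skew_sum m g δ ε L p q G ι ξ hX Q (hv Q hQ)
      (Expand.expand_gen ι hX.mul hX.one δ ε L p q) hxi.1 hxi.2 b hb
  · intro M _ _ ρ k q' X N h1 h2 h3 h4
    exact Symskew.symskew_aux ρ k q' X N h1 h2 h3 h4

theorem bind' (m : ℕ) (T1 T2 : Tpl) (ε : Bool) (k : ℕ) (hk1 : Sum.inl k ∉ T1)
    (hk2 : Sum.inl k ∉ T2) (π : ℕ → Bool)
    (h0 : Nil m (T1 ++ [Sum.inl k] ++ T2) (Function.update π k ε))
    (h1 : Nil m (T1 ++ [Sum.inl k] ++ T2) (Function.update π k (!ε))) :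
    Nil m (T1 ++ [Sum.inr ε] ++ T2) π :=
  Bind.bind_nil m T1 T2 ε k hk1 hk2 π h0 h1
    (fun δ L A _ _ g hg => ext_exists' m δ L A g hg)
    (fun A _ _ g ε K L hK hL p q hE a ha => core m L A g ε K hK hL p q hE a ha)

theorem prime' (n : ℕ) (hn : 1 ≤ n) (hG : GG n) (A : Type) [Ring A] [Algebra ℚ A] [Nontrivial A]
    (g : Bool → Submodule ℚ A) (hg : SPair (n + 1) g)
    (hgen : Algebra.adjoin ℚ ((g false : Set A) ∪ (g true : Set A)) = ⊤)
    (hprime : ∀ a b : A, (∀ c, a * c * b = 0) → a = 0 ∨ b = 0) : ∀ e, g e = ⊥ := by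
  obtain ⟨N, hN⟩ := Rel.rel_of_GG n hG
  have hst := fun r : A => AnnA1.ann_stab n N hn hN g hg r
  refine Prime.prime_trivial n N g hg hgen hprime (Compress.compress n g hg)
    (fun r => (hst r).1) ?_ ?_ (fun M hM => Zorn.zorn_max g M hM) ?_
  · intro r e y hy
    exact AnnA2.HH_top N g hg.br r (hst r).2 e y hy
  · intro r l hl w hw hlen
    exact AnnA2.weight_kill g hg.br r (hst r).1 l hl w hw hlen
  · intro h hle hcl M hM e x hx hnorm hodd
    exact Normext.norm_ext n g hg h hle hcl M hM e x hx hnorm hodd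

end Pool.Agent.Helper277.Zel
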