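import Mathlib
import Pool.Agent.Helper277.Zel.Defs
import Pool.Agent.Helper277.Zel.OccL

set_option autoImplicit false
set_option linter.unusedSectionVars false
set_option linter.all false
namespace Pool.Agent.Helper277.Zel.Final






/-- TARGET 1 -/
theorem GG_zero : GG 0 := by
  refine ⟨0, fun A _ _ g hs w _ hl => ?_⟩
  have hw : w = [] := List.length_eq_zero_iff.1 hl
  subst hw
  have h := hs.idx (fun i => (false, 0)) (fun i => Fin.elim0 i)
  rw [val_nil]
  exact h

/-- TARGET 2 -/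
theorem GG_one : GG 1 := by
  refine ⟨1, fun A _ _ g hs w hw hl => ?_⟩
  obtain ⟨p, rfl⟩ := List.length_eq_one_iff.1 hl
  have hp : p.2 ∈ g p.1 := hw p (by simp)
  have h := hs.idx (fun _ => p) (fun _ => hp)
  simp only [Sy] at h
  rw [Fin.sum_univ_one] at h
  have h2 : Finset.Iio (0 : Fin (0 + 1)) = ∅ := by decide
  have h3 : (∏ j ∈ Finset.Iio (0 : Fin (0 + 1)), sg p.1 p.1) = 1 := by
    rw [h2, Finset.prod_empty]
  rw [val_cons, val_nil]
  have h4 : (1 : ℚ) • (p.2 * (1 : A)) = 0 := by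
    rw [← h3]; exact h
  rwa [one_smul] at h4

/-- TARGET 3 -/
theorem GG_succ_of_nil (n : ℕ)
    (hbind : ∀ (T1 T2 : Tpl) (ε : Bool) (k : ℕ), Sum.inl k ∉ T1 → Sum.inl k ∉ T2 →
      ∀ π : ℕ → Bool, Nil (n + 1) (T1 ++ [Sum.inl k] ++ T2) (Function.update π k ε) →
      Nil (n + 1) (T1 ++ [Sum.inl k] ++ T2) (Function.update π k (!ε)) →
      Nil (n + 1) (T1 ++ [Sum.inr ε] ++ T2) π)
    (h0 : ∀ π : ℕ → Bool, Nil (n + 1) [Sum.inl 0] π) : GG (n + 1) := by
  have h : ∀ e : Bool, Nil (n + 1) [Sum.inr e] (fun _ => false) := fun e =>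
    hbind [] [] e 0 (by simp) (by simp) (fun _ => false) (h0 _) (h0 _)
  obtain ⟨Kf, hf⟩ := h false
  obtain ⟨Kt, ht⟩ := h true
  refine ⟨Kf + Kt, fun A _ _ g hs w hw hl => ?_⟩
  have hocc : ∀ v : Wd A, Hw g v →
      Occ (fun u => Inst g (fun _ => (false, 0)) [Sum.inr false] u ∨
        Inst g (fun _ => (false, 0)) [Sum.inr true] u) v.length v := by
    intro v
    induction v with
    | nil => intro _; exact Occ.zero _
    | cons p v ih =>
      intro hv
      have hv' : Hw g v := fun q hq => hv q (List.mem_cons_of_mem _ hq)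
      have hp : p.2 ∈ g p.1 := hv p (by simp)
      have h1 := Occ.succ (I := fun u => Inst g (fun _ => (false, 0)) [Sum.inr false] u ∨
        Inst g (fun _ => (false, 0)) [Sum.inr true] u) v.length [] [p] v ?_ (ih hv')
      · exact h1
      · rcases hb : p.1 with _ | _
        · left
          refine List.Forall₂.cons ⟨hb, ?_⟩ List.Forall₂.nil
          rw [← hb]; exact hp
        · right
          refine List.Forall₂.cons ⟨hb, ?_⟩ List.Forall₂.nil
          rw [← hb]; exact hp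
  have h1 := hocc w hw
  obtain ⟨k1, k2, hk, o1, o2⟩ := Occ.union h1
  have hρ : ∀ k : ℕ, ((fun _ => (false, (0 : A)) : ℕ → Bool × A) k).1 = (fun _ => false : ℕ → Bool) k ∧
      ((fun _ => (false, (0 : A)) : ℕ → Bool × A) k).2 ∈
        g ((fun _ => (false, (0 : A)) : ℕ → Bool × A) k).1 := fun k => ⟨rfl, Submodule.zero_mem _⟩
  rcases le_or_gt Kf k1 with hk1 | hk1
  · exact hf A g hs _ hρ w hw (Occ.of_le hk1 o1)
  · have hk2 : Kt ≤ k2 := by omega
    exact ht A g hs _ hρ w hw (Occ.of_le hk2 o2)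


end Pool.Agent.Helper277.Zel.Final
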