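import Mathlib
import Pool.Agent.Helper277.Zel.Defs

set_option autoImplicit false
set_option linter.unusedSectionVars false
set_option linter.all false
namespace Pool.Agent.Helper277.Zel.Lie


/-- TARGET 1: a zero letter kills `Sy`. -/
theorem sy_zero_letter {A : Type} [Ring A] [Algebra ℚ A] : ∀ (n : ℕ) (z : Fin n → Bool × A)
    (k : Fin n), (z k).2 = 0 → Sy n z = 0 := by
  intro n
  induction n with
  | zero =>
    intro z k
    exact k.elim0
  | succ n ih =>
    intro z k hk
    rw [Sy]
    apply Finset.sum_eq_zero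
    intro i _
    by_cases hik : k = i
    · rw [← hik, hk, zero_mul, smul_zero]
    · obtain ⟨k', hk'⟩ := Fin.exists_succAbove_eq hik
      rw [ih (fun j => z (i.succAbove j)) k' (by rw [hk']; exact hk), mul_zero, smul_zero]

theorem se_succ {A : Type} [Ring A] [Algebra ℚ A] (n : ℕ) (z : Fin (n + 1) → A) :
    Sy (n + 1) (fun i => (false, z i)) =
      ∑ i, z i * Sy n (fun j => (false, z (i.succAbove j))) := by
  rw [Sy]
  apply Finset.sum_congr rfl
  intro i _
  rw [Finset.prod_eq_one (fun j _ => sg_false_left _), one_smul]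

theorem se_inj {A : Type} [Ring A] [Algebra ℚ A] : ∀ (n : ℕ) (z : Fin n → A),
    Sy n (fun i => (false, z i)) =
      ∑ φ ∈ Finset.univ.filter (fun φ : Fin n → Fin n => Function.Injective φ),
        (List.ofFn (fun j => z (φ j))).prod := by
  intro n
  induction n with
  | zero =>
    intro z
    rw [Sy, Finset.filter_true_of_mem (fun φ _ => Function.injective_of_subsingleton φ)]
    simp
  | succ n ih =>
    intro z
    rw [se_succ]
    have h1 : ∑ i, z i * Sy n (fun j => (false, z (i.succAbove j))) =
        ∑ p ∈ (Finset.univ : Finset (Fin (n + 1))) ×ˢ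
          (Finset.univ.filter (fun φ : Fin n → Fin n => Function.Injective φ)),
          z p.1 * (List.ofFn (fun j => z (p.1.succAbove (p.2 j)))).prod := by
      rw [Finset.sum_product]
      apply Finset.sum_congr rfl
      intro i _
      rw [ih, Finset.mul_sum]
    rw [h1]
    apply Finset.sum_nbij
      (fun p : Fin (n + 1) × (Fin n → Fin n) =>
        (Fin.cons p.1 (fun j => p.1.succAbove (p.2 j)) : Fin (n + 1) → Fin (n + 1)))
    · intro p hp
      have hp2 : Function.Injective p.2 := (Finset.mem_filter.1 (Finset.mem_product.1 hp).2).2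
      rw [Finset.mem_filter]
      refine ⟨Finset.mem_univ _, ?_⟩
      rw [Fin.cons_injective_iff]
      refine ⟨?_, fun a b hab => hp2 (Fin.succAbove_right_injective hab)⟩
      rintro ⟨j, hj⟩
      exact Fin.succAbove_ne _ _ hj
    · rintro ⟨i, φ⟩ _ ⟨i', φ'⟩ _ h
      have h2 := Fin.cons_inj.1 h
      obtain ⟨h3, h4⟩ := h2
      simp only at h3 h4
      subst h3
      have h5 : φ = φ' := by
        funext j
        exact Fin.succAbove_right_injective (congrFun h4 j)
      rw [h5]
    · intro φ hφ
      have hφi : Function.Injective φ := (Finset.mem_filter.1 (Finset.mem_coe.1 hφ)).2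
      have h2 : ∀ j : Fin n, ∃ k : Fin n, (φ 0).succAbove k = φ j.succ := by
        intro j
        apply Fin.exists_succAbove_eq
        intro h
        exact (Fin.succ_ne_zero j) (hφi h)
      choose ψ hψ using h2
      refine ⟨(φ 0, ψ), ?_, ?_⟩
      · rw [Finset.mem_coe, Finset.mem_product]
        refine ⟨Finset.mem_univ _, Finset.mem_filter.2 ⟨Finset.mem_univ _, ?_⟩⟩
        intro a b hab
        have h3 : φ a.succ = φ b.succ := by
          rw [← hψ, ← hψ]
          exact congrArg _ hab
        exact Fin.succ_injective _ (hφi h3)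
      · funext j
        refine Fin.cases ?_ (fun j => ?_) j
        · rfl
        · show (φ 0).succAbove (ψ j) = _
          rw [hψ]
    · intro p _
      rw [List.ofFn_succ, List.prod_cons]
      rfl

theorem se_alt {n : ℕ} (φ : Fin n → Fin n) (h : ¬ Function.Injective φ) :
    ∑ S ∈ Finset.univ.filter (fun S : Finset (Fin n) => ∀ j, φ j ∈ S),
      (-1 : ℚ) ^ S.card = 0 := by
  have hs : ¬ Function.Surjective φ := fun h2 => h (Finite.injective_iff_surjective.2 h2)
  unfold Function.Surjective at hs
  push Not at hs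
  obtain ⟨k, hk⟩ := hs
  apply Finset.sum_involution (fun S _ => if k ∈ S then S.erase k else insert k S)
  · intro S _
    by_cases hkS : k ∈ S
    · rw [if_pos hkS]
      have h1 := Finset.card_erase_add_one hkS
      rw [← h1, pow_succ]
      ring
    · rw [if_neg hkS, Finset.card_insert_of_notMem hkS, pow_succ]
      ring
  · intro S _ _
    by_cases hkS : k ∈ S
    · rw [if_pos hkS]
      intro h2
      have h3 := Finset.notMem_erase k S
      rw [h2] at h3
      exact h3 hkS
    · rw [if_neg hkS]
      intro h2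
      have h3 := Finset.mem_insert_self k S
      rw [h2] at h3
      exact hkS h3
  · intro S hS
    by_cases hkS : k ∈ S
    · simp only [if_pos hkS, if_neg (Finset.notMem_erase k S)]
      exact Finset.insert_erase hkS
    · simp only [if_neg hkS, if_pos (Finset.mem_insert_self k S)]
      exact Finset.erase_insert hkS
  · intro S hS
    have hS' := (Finset.mem_filter.1 hS).2
    refine Finset.mem_filter.2 ⟨Finset.mem_univ _, fun j => ?_⟩
    by_cases hkS : k ∈ S
    · rw [if_pos hkS]
      exact Finset.mem_erase.2 ⟨hk j, hS' j⟩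
    · rw [if_neg hkS]
      exact Finset.mem_insert_of_mem (hS' j)

theorem se_full {n : ℕ} (φ : Fin n → Fin n) (h : Function.Injective φ) :
    ∑ S ∈ Finset.univ.filter (fun S : Finset (Fin n) => ∀ j, φ j ∈ S),
      (-1 : ℚ) ^ S.card = (-1) ^ n := by
  have hs : Function.Surjective φ := Finite.injective_iff_surjective.1 h
  have h1 : Finset.univ.filter (fun S : Finset (Fin n) => ∀ j, φ j ∈ S) = {Finset.univ} := by
    ext S
    rw [Finset.mem_filter, Finset.mem_singleton]
    constructor
    · rintro ⟨_, h2⟩
      rw [Finset.eq_univ_iff_forall]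
      intro k
      obtain ⟨j, rfl⟩ := hs k
      exact h2 j
    · rintro rfl
      exact ⟨Finset.mem_univ _, fun j => Finset.mem_univ _⟩
  rw [h1, Finset.sum_singleton, Finset.card_univ, Fintype.card_fin]

/-- TARGET 2: linearisation of `x ^ n = 0`. -/
theorem sy_even_zero {A : Type} [Ring A] [Algebra ℚ A] (n : ℕ) (V : Submodule ℚ A)
    (hV : ∀ x ∈ V, x ^ n = 0) (z : Fin n → A) (hz : ∀ i, z i ∈ V) :
    Sy n (fun i => (false, z i)) = 0 := by
  rw [se_inj]
  have h1 : ∀ S : Finset (Fin n), ∑ φ : Fin n → Fin n,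
      (if ∀ j, φ j ∈ S then (List.ofFn (fun j => z (φ j))).prod else 0) = 0 := by
    intro S
    have h2 := hV (∑ i ∈ S, z i) (Submodule.sum_mem _ fun i _ => hz i)
    have h3 := MultilinearMap.map_sum_finset (MultilinearMap.mkPiAlgebraFin ℚ n A)
      (fun (_ : Fin n) (j : Fin n) => z j) (fun _ => S)
    rw [MultilinearMap.mkPiAlgebraFin_apply_const, h2] at h3
    rw [← Finset.sum_filter, h3]
    apply Finset.sum_congr
    · ext φ
      rw [Finset.mem_filter, Fintype.mem_piFinset]
      exact ⟨fun h => h.2, fun h => ⟨Finset.mem_univ _, h⟩⟩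
    · intro φ _
      rw [MultilinearMap.mkPiAlgebraFin_apply]
  have h4 : ∑ S : Finset (Fin n), (-1 : ℚ) ^ S.card • ∑ φ : Fin n → Fin n,
      (if ∀ j, φ j ∈ S then (List.ofFn (fun j => z (φ j))).prod else 0) = 0 := by
    apply Finset.sum_eq_zero
    intro S _
    rw [h1, smul_zero]
  have h5 : ∑ S : Finset (Fin n), (-1 : ℚ) ^ S.card • ∑ φ : Fin n → Fin n,
      (if ∀ j, φ j ∈ S then (List.ofFn (fun j => z (φ j))).prod else 0) =
      ∑ φ : Fin n → Fin n, (∑ S ∈ Finset.univ.filter (fun S : Finset (Fin n) => ∀ j, φ j ∈ S),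
      (-1 : ℚ) ^ S.card) • (List.ofFn (fun j => z (φ j))).prod := by
    simp only [Finset.smul_sum]
    rw [Finset.sum_comm]
    apply Finset.sum_congr rfl
    intro φ _
    rw [Finset.sum_smul, Finset.sum_filter]
    apply Finset.sum_congr rfl
    intro S _
    by_cases h : ∀ j, φ j ∈ S
    · rw [if_pos h, if_pos h]
    · rw [if_neg h, if_neg h, smul_zero]
  rw [h5] at h4
  have h6 : ∑ φ : Fin n → Fin n, (∑ S ∈ Finset.univ.filter
      (fun S : Finset (Fin n) => ∀ j, φ j ∈ S), (-1 : ℚ) ^ S.card) •
      (List.ofFn (fun j => z (φ j))).prod = (-1 : ℚ) ^ n •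
      ∑ φ ∈ Finset.univ.filter (fun φ : Fin n → Fin n => Function.Injective φ),
        (List.ofFn (fun j => z (φ j))).prod := by
    rw [Finset.smul_sum, Finset.sum_filter]
    apply Finset.sum_congr rfl
    intro φ _
    by_cases h : Function.Injective φ
    · rw [if_pos h, se_full φ h]
    · rw [if_neg h, se_alt φ h, zero_smul]
  rw [h6] at h4
  exact (smul_eq_zero_iff_right (pow_ne_zero n (by norm_num : (-1 : ℚ) ≠ 0))).1 h4


end Pool.Agent.Helper277.Zel.Lie
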