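import Mathlib
import Pool.Agent.Helper277.Zel.Defs

set_option autoImplicit false
set_option linter.unusedSectionVars false
set_option linter.all false
namespace Pool.Agent.Helper277.Zel.Lie2


/-- TARGET: from super pairs to Lie algebras (`A = Module.End ℚ L`, `g false = range of ad`,
`g true = ⊥`). -/
theorem lie_nilp (n : ℕ) (hG : GG n)
    (hz : ∀ (A : Type) [Ring A] [Algebra ℚ A] (n : ℕ) (z : Fin n → Bool × A)
      (k : Fin n), (z k).2 = 0 → Sy n z = 0)
    (he : ∀ (A : Type) [Ring A] [Algebra ℚ A] (n : ℕ) (V : Submodule ℚ A),
      (∀ x ∈ V, x ^ n = 0) → ∀ z : Fin n → A, (∀ i, z i ∈ V) →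
      Sy n (fun i => (false, z i)) = 0) :
    ∃ c : ℕ, ∀ (L : Type) [LieRing L] [LieAlgebra ℚ L],
      (∀ u : L, (LieAlgebra.ad ℚ L u) ^ n = 0) →
      LieModule.lowerCentralSeries ℚ L L c = ⊥ := by
  obtain ⟨N, hN⟩ := hG
  refine ⟨N, ?_⟩
  intro L _ _ hu
  let V : Submodule ℚ (Module.End ℚ L) :=
    LinearMap.range (LieAlgebra.ad ℚ L : L →ₗ[ℚ] Module.End ℚ L)
  have hV : ∀ x ∈ V, ∃ u : L, LieAlgebra.ad ℚ L u = x := fun x hx => by
    obtain ⟨u, hu⟩ := hx
    exact ⟨u, hu⟩
  have hV' : ∀ u : L, LieAlgebra.ad ℚ L u ∈ V := fun u => ⟨u, rfl⟩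
  let g : Bool → Submodule ℚ (Module.End ℚ L) := fun b => bif b then ⊥ else V
  have hgt : ∀ x, x ∈ g true → x = 0 := fun x hx => by
    simpa [g] using hx
  have hgf : ∀ x, x ∈ g false → x ∈ V := fun x hx => by
    simpa [g] using hx
  have hgf' : ∀ x, x ∈ V → x ∈ g false := fun x hx => by
    simpa [g] using hx
  have hsp : SPair n g := by
    refine ⟨?_, ?_⟩
    · intro e f x hx y hy
      cases e
      · cases f
        · obtain ⟨u, rfl⟩ := hV x (hgf x hx)
          obtain ⟨v, rfl⟩ := hV y (hgf y hy)
          have h1 : LieAlgebra.ad ℚ L u * LieAlgebra.ad ℚ L v -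
              sg false false • (LieAlgebra.ad ℚ L v * LieAlgebra.ad ℚ L u) =
              LieAlgebra.ad ℚ L ⁅u, v⁆ := by
            rw [sg_false_left, one_smul]
            ext w
            simp [Module.End.mul_apply, LieAlgebra.ad_apply]
          rw [h1]
          exact hgf' _ (hV' _)
        · have := hgt y hy
          subst this
          simp only [mul_zero, zero_mul, smul_zero, sub_zero]
          exact Submodule.zero_mem _
      · have := hgt x hx
        subst this
        simp only [mul_zero, zero_mul, smul_zero, sub_zero]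
        exact Submodule.zero_mem _
    · intro z hzz
      by_cases h : ∃ k, (z k).1 = true
      · obtain ⟨k, hk⟩ := h
        refine hz _ n z k ?_
        have := hzz k
        rw [hk] at this
        exact hgt _ this
      · push Not at h
        have h' : ∀ k, (z k).1 = false := fun k => by simpa using h k
        have h2 : z = fun i => (false, (z i).2) := by
          funext i
          rw [← h' i]
        rw [h2]
        refine he _ n V ?_ (fun i => (z i).2) ?_
        · intro x hx
          obtain ⟨u, rfl⟩ := hV x hx
          exact hu u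
        · intro i
          have := hzz i
          rw [h' i] at this
          exact hgf _ this
  have hnil : NilIdx g N := hN (Module.End ℚ L) g hsp
  have hprod : ∀ l : List L, l.length = N → (l.map (LieAlgebra.ad ℚ L)).prod = 0 := by
    intro l hl
    have h1 := hnil (l.map (fun u => (false, LieAlgebra.ad ℚ L u))) ?_ (by simpa using hl)
    · have h2 : val (l.map (fun u => (false, LieAlgebra.ad ℚ L u))) =
          (l.map (LieAlgebra.ad ℚ L)).prod := by
        simp [val, List.map_map, Function.comp_def]
      rw [← h2]
      exact h1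
    · intro p hp
      obtain ⟨u, -, rfl⟩ := List.mem_map.1 hp
      exact hgf' _ (hV' u)
  have key : ∀ k : ℕ, ∀ x ∈ LieModule.lowerCentralSeries ℚ L L k,
      x ∈ Submodule.span ℚ {y : L | ∃ l : List L, l.length = k ∧
        ∃ m : L, y = (l.map (LieAlgebra.ad ℚ L)).prod m} := by
    intro k
    induction k with
    | zero =>
      intro x _
      exact Submodule.subset_span ⟨[], rfl, x, by simp⟩
    | succ k ih =>
      intro x hx
      rw [LieModule.lowerCentralSeries_succ] at hx
      rw [← LieSubmodule.mem_toSubmodule, LieSubmodule.lieIdeal_oper_eq_linear_span'] at hx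
      induction hx using Submodule.span_induction with
      | mem x hx =>
        obtain ⟨u, -, m, hm, rfl⟩ := hx
        have h1 := ih m hm
        clear hm
        induction h1 using Submodule.span_induction with
        | mem y hy =>
          obtain ⟨l, hl, m', rfl⟩ := hy
          refine Submodule.subset_span ⟨u :: l, by simp [hl], m', ?_⟩
          simp [Module.End.mul_apply, LieAlgebra.ad_apply]
        | zero => simp
        | add a b _ _ ha hb => 
          rw [lie_add]
          exact Submodule.add_mem _ ha hb
        | smul c a _ ha =>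
          rw [lie_smul]
          exact Submodule.smul_mem _ c ha
      | zero => exact Submodule.zero_mem _
      | add a b _ _ ha hb => exact Submodule.add_mem _ ha hb
      | smul c a _ ha => exact Submodule.smul_mem _ c ha
  rw [eq_bot_iff]
  intro x hx
  have h1 := key N x hx
  have h2 : Submodule.span ℚ {y : L | ∃ l : List L, l.length = N ∧
        ∃ m : L, y = (l.map (LieAlgebra.ad ℚ L)).prod m} ≤ ⊥ := by
    rw [Submodule.span_le]
    rintro y ⟨l, hl, m, rfl⟩
    rw [hprod l hl]
    simp
  have h3 := h2 h1
  simpa using h3



end Pool.Agent.Helper277.Zel.Lie2
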