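import Mathlib
import Pool.Agent.Helper277.Zel.Defs

set_option autoImplicit false
set_option linter.unusedSectionVars false
set_option linter.all false
namespace Pool.Agent.Helper277.Zel.Next


/-- TARGET -/
theorem next_nil (n : ℕ)
    (hbind : ∀ (T1 T2 : Tpl) (ε : Bool) (k : ℕ), Sum.inl k ∉ T1 → Sum.inl k ∉ T2 →
      ∀ π : ℕ → Bool, Nil (n + 1) (T1 ++ [Sum.inl k] ++ T2) (Function.update π k ε) →
      Nil (n + 1) (T1 ++ [Sum.inl k] ++ T2) (Function.update π k (!ε)) →
      Nil (n + 1) (T1 ++ [Sum.inr ε] ++ T2) π)
    (hstep : ∀ (T : Tpl) (π : ℕ → Bool),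
      (∀ s : List Bool, s.length ≤ n → Nil (n + 1) (T ++ s.map Sum.inr ++ T) π) →
      Nil (n + 1) T π)
    (R : List ℕ) (k : ℕ) (hR : ∀ i ∈ R, i < k) (π : ℕ → Bool)
    (h : ∀ s ≤ n, ∀ π' : ℕ → Bool, (∀ i < k, π' i = π i) →
      Nil (n + 1) ((R ++ List.range' k s ++ R).map Sum.inl) π') :
    Nil (n + 1) (R.map Sum.inl) π := by
  apply hstep
  have claim : ∀ (s : List Bool) (t : ℕ), t + s.length ≤ n → ∀ π' : ℕ → Bool,
      (∀ i < k, π' i = π i) →
      Nil (n + 1) (R.map Sum.inl ++ (List.range' k t).map Sum.inl ++ s.map Sum.inr ++
        R.map Sum.inl) π' := by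
    intro s
    induction s with
    | nil =>
      intro t ht π' hπ'
      have h1 := h t (by simpa using ht) π' hπ'
      simpa [List.map_append] using h1
    | cons e s ih =>
      intro t ht π' hπ'
      have key : ∀ b, Nil (n + 1) ((R.map Sum.inl ++ (List.range' k t).map Sum.inl) ++
          [Sum.inl (k + t)] ++ (s.map Sum.inr ++ R.map Sum.inl)) (Function.update π' (k + t) b) := by
        intro b
        have h1 := ih (t + 1) (by rw [List.length_cons] at ht; omega)
          (Function.update π' (k + t) b) (by
            intro i hi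
            rw [Function.update_of_ne (by omega), hπ' i hi])
        rw [List.range'_concat, List.map_append] at h1
        simpa [List.append_assoc] using h1
      have h2 := hbind (R.map Sum.inl ++ (List.range' k t).map Sum.inl)
        (s.map Sum.inr ++ R.map Sum.inl) e (k + t) (by
          intro hm
          rw [List.mem_append, List.mem_map, List.mem_map] at hm
          rcases hm with ⟨a, ha, ha2⟩ | ⟨a, ha, ha2⟩
          · have h3 := hR a ha
            have h4 : a = k + t := Sum.inl.inj ha2
            omega
          · rw [List.mem_range'_1] at ha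
            have h4 : a = k + t := Sum.inl.inj ha2
            omega) (by
          intro hm
          rw [List.mem_append, List.mem_map, List.mem_map] at hm
          rcases hm with ⟨a, ha, ha2⟩ | ⟨a, ha, ha2⟩
          · cases ha2
          · have h3 := hR a ha
            have h4 : a = k + t := Sum.inl.inj ha2
            omega) π' (key e) (key (!e))
      simpa [List.append_assoc] using h2
  intro s hs
  have h1 := claim s 0 (by simpa using hs) π (fun _ _ => rfl)
  simpa using h1


end Pool.Agent.Helper277.Zel.Next
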