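import Mathlib
import Pool.Agent.Helper277.Zel.Defs

set_option autoImplicit false
namespace Pool.Agent.Helper277.Zel.Nomseq

theorem Sy_map {A B : Type} [Ring A] [Algebra ℚ A] [Ring B] [Algebra ℚ B] (f : A →ₐ[ℚ] B) :
    ∀ (n : ℕ) (z : Fin n → Bool × A),
      Sy n (fun i => ((z i).1, f (z i).2)) = f (Sy n z) := by
  intro n
  induction n with
  | zero => intro z; simp [Sy]
  | succ n ih =>
    intro z
    simp only [Sy, map_sum, map_smul, map_mul]
    refine Finset.sum_congr rfl fun i _ => ?_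
    rw [← ih (fun j => z (i.succAbove j))]

/-- TARGET -/
theorem no_mseq (n : ℕ)
    (hP : ∀ (A : Type) [Ring A] [Algebra ℚ A] [Nontrivial A] (g : Bool → Submodule ℚ A),
      SPair (n + 1) g → Algebra.adjoin ℚ ((g false : Set A) ∪ (g true : Set A)) = ⊤ →
      (∀ a b : A, (∀ c, a * c * b = 0) → a = 0 ∨ b = 0) → ∀ e, g e = ⊥)
    (hq : ∀ (A : Type) [Ring A] [Algebra ℚ A] (r u : ℕ → A),
      (∀ j, r (j + 1) = r j * u j * r j) → (∀ j, r j ≠ 0) →
      ∃ (B : Type) (_ : Ring B) (_ : Algebra ℚ B) (f : A →ₐ[ℚ] B), Function.Surjective f ∧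
        (∀ j, f (r j) ≠ 0) ∧ ∀ a b : B, (∀ c, a * c * b = 0) → a = 0 ∨ b = 0)
    (A : Type) [Ring A] [Algebra ℚ A] (g : Bool → Submodule ℚ A) (hg : SPair (n + 1) g)
    (e : Bool) (r u : ℕ → A) (h0 : r 0 ∈ g e)
    (hu : ∀ j, u j ∈ Algebra.adjoin ℚ ((g false : Set A) ∪ (g true : Set A)))
    (hr : ∀ j, r (j + 1) = r j * u j * r j) : ∃ j, r j = 0 := by
  by_contra hcon
  push Not at hcon
  set S := Algebra.adjoin ℚ ((g false : Set A) ∪ (g true : Set A)) with hS
  have hgS : ∀ e, ∀ x ∈ g e, x ∈ S := by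
    intro e x hx
    apply Algebra.subset_adjoin
    cases e
    · exact Or.inl hx
    · exact Or.inr hx
  have hrS : ∀ j, r j ∈ S := by
    intro j
    induction j with
    | zero => exact hgS e _ h0
    | succ j ih =>
      rw [hr j]
      exact S.mul_mem (S.mul_mem ih (hu j)) ih
  let r' : ℕ → S := fun j => ⟨r j, hrS j⟩
  let u' : ℕ → S := fun j => ⟨u j, hu j⟩
  obtain ⟨B, i1, i2, f, hfs, hfne, hfp⟩ := hq S r' u'
    (fun j => Subtype.ext (by simp [r', u', hr j]))
    (fun j h => hcon j (congrArg Subtype.val h))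
  let G : Bool → Submodule ℚ B := fun e => ((g e).comap S.val.toLinearMap).map f.toLinearMap
  have hmem : ∀ e (b : B), b ∈ G e ↔ ∃ a : S, (a : A) ∈ g e ∧ f a = b := by
    intro e b
    constructor
    · rintro ⟨a, ha, rfl⟩
      exact ⟨a, ha, rfl⟩
    · rintro ⟨a, ha, rfl⟩
      exact ⟨a, ha, rfl⟩
  have : Nontrivial B := ⟨⟨f (r' 0), 0, hfne 0⟩⟩
  have hGS : SPair (n + 1) G := by
    constructor
    · intro e e' x hx y hy
      obtain ⟨a, ha, rfl⟩ := (hmem _ _).1 hx
      obtain ⟨b, hb, rfl⟩ := (hmem _ _).1 hy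
      refine (hmem _ _).2 ⟨a * b - sg e e' • (b * a), ?_, by simp⟩
      have := hg.br e e' a ha b hb
      simpa using this
    · intro z hz
      choose a ha hfa using fun i => (hmem _ _).1 (hz i)
      have h1 : z = fun i => ((z i).1, f (a i)) := by
        funext i
        exact Prod.ext rfl (hfa i).symm
      rw [h1]
      have h2 := Sy_map f (n + 1) (fun i => ((z i).1, a i))
      rw [h2]
      have h3 : Sy (n + 1) (fun i => ((z i).1, a i)) = 0 := by
        have h4 := Sy_map S.val (n + 1) (fun i => ((z i).1, a i))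
        have h5 := hg.idx (fun i => ((z i).1, (a i : A))) (fun i => ha i)
        apply Subtype.ext
        show S.val _ = 0
        rw [← h4]
        exact h5
      rw [h3, map_zero]
  have hgen : Algebra.adjoin ℚ ((G false : Set B) ∪ (G true : Set B)) = ⊤ := by
    rw [eq_top_iff]
    intro b _
    obtain ⟨⟨a, ha⟩, rfl⟩ := hfs b
    induction ha using Algebra.adjoin_induction with
    | mem x hx =>
      apply Algebra.subset_adjoin
      rcases hx with hx | hx
      · exact Or.inl ((hmem _ _).2 ⟨⟨x, hgS _ x hx⟩, hx, rfl⟩)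
      · exact Or.inr ((hmem _ _).2 ⟨⟨x, hgS _ x hx⟩, hx, rfl⟩)
    | algebraMap q =>
      have : f (⟨algebraMap ℚ A q, S.algebraMap_mem q⟩ : S) = algebraMap ℚ B q := by
        exact f.commutes q
      have h2 := Subalgebra.algebraMap_mem (Algebra.adjoin ℚ ((G false : Set B) ∪ (G true : Set B))) q
      rw [← this] at h2
      exact h2
    | add x y hx hy ihx ihy =>
      have h1 := Subalgebra.add_mem _ (ihx trivial) (ihy trivial)
      rw [← map_add] at h1
      exact h1
    | mul x y hx hy ihx ihy =>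
      have h1 := Subalgebra.mul_mem _ (ihx trivial) (ihy trivial)
      rw [← map_mul] at h1
      exact h1
  have hbot := hP B G hGS hgen hfp e
  have hx : f (r' 0) ∈ G e := (hmem _ _).2 ⟨r' 0, h0, rfl⟩
  rw [hbot, Submodule.mem_bot] at hx
  exact hfne 0 hx

end Pool.Agent.Helper277.Zel.Nomseq
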