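import Mathlib
import Pool.Agent.Helper277.Zel.Defs

set_option autoImplicit false
set_option linter.unusedSectionVars false
set_option linter.all false
namespace Pool.Agent.Helper277.Zel.Seq



/-- a failing algebra -/
structure BadZ (n : ℕ) (R : List ℕ) (π : ℕ → Bool) where
  A : Type
  [ring : Ring A]
  [alg : Algebra ℚ A]
  g : Bool → Submodule ℚ A
  sp : SPair (n + 1) g
  x : ℕ → A
  hx : ∀ i, x i ∈ g (π i)
  ne : (R.map x).prod ≠ 0

attribute [instance] BadZ.ring BadZ.alg

theorem forall2_eq_14618 {A : Type} [Ring A] [Algebra ℚ A] (g : Bool → Submodule ℚ A)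
    (ρ : ℕ → Bool × A) (R : List ℕ) (w : Wd A)
    (h : List.Forall₂ (Mat g ρ) (R.map Sum.inl) w) : w = R.map ρ := by
  induction R generalizing w with
  | nil =>
    simp only [List.map_nil, List.forall₂_nil_left_iff] at h
    simp [h]
  | cons a R ih =>
    rw [List.map_cons] at h
    cases h with
    | cons h1 h2 =>
      have h3 := ih _ h2
      rw [h3, List.map_cons]
      congr 1

theorem bad_of_not_nil_14618 {n : ℕ} {R : List ℕ} {π : ℕ → Bool}
    (h : ¬ Nil (n + 1) (R.map Sum.inl) π) : Nonempty (BadZ n R π) := by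
  by_contra hb
  apply h
  refine ⟨1, ?_⟩
  intro A _ _ g hsp ρ hρ W hW hocc
  by_contra hne
  apply hb
  cases hocc with
  | succ k c w W' hw hW' =>
    have hw' : w = R.map ρ := forall2_eq_14618 g ρ R w hw
    refine ⟨⟨A, g, hsp, fun i => (ρ i).2, ?_, ?_⟩⟩
    · intro i
      have := hρ i
      rw [← this.1]
      exact this.2
    · intro h0
      apply hne
      rw [val_append, val_append]
      have : val w = 0 := by
        rw [hw', val, List.map_map]
        exact h0
      rw [this]
      simp

/-- states of the construction -/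
structure StZ (n : ℕ) where
  R : List ℕ
  k : ℕ
  π : ℕ → Bool
  lt : ∀ i ∈ R, i < k
  nn : ¬ Nil (n + 1) (R.map Sum.inl) π

theorem Sy_map_14618 {A B : Type} [Ring A] [Algebra ℚ A] [Ring B] [Algebra ℚ B] (φ : A →ₐ[ℚ] B)
    (m : ℕ) (z : Fin m → Bool × A) :
    φ (Sy m z) = Sy m (fun i => ((z i).1, φ (z i).2)) := by
  induction m with
  | zero => simp [Sy]
  | succ m ih =>
    simp only [Sy, map_sum, map_smul, map_mul, ih]

/-- TARGET: words with many equal letters vanish. -/
theorem nil_zero (n : ℕ)
    (hnext : ∀ (R : List ℕ) (k : ℕ), (∀ i ∈ R, i < k) → ∀ π : ℕ → Bool,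
      (∀ s ≤ n, ∀ π' : ℕ → Bool, (∀ i < k, π' i = π i) →
        Nil (n + 1) ((R ++ List.range' k s ++ R).map Sum.inl) π') →
      Nil (n + 1) (R.map Sum.inl) π)
    (hno : ∀ (A : Type) [Ring A] [Algebra ℚ A] (g : Bool → Submodule ℚ A), SPair (n + 1) g →
      ∀ (e : Bool) (r u : ℕ → A), r 0 ∈ g e →
      (∀ j, u j ∈ Algebra.adjoin ℚ ((g false : Set A) ∪ (g true : Set A))) →
      (∀ j, r (j + 1) = r j * u j * r j) → ∃ j, r j = 0)
    (π : ℕ → Bool) : Nil (n + 1) [Sum.inl 0] π := by
  classical
  by_contra hcon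
  have hstep : ∀ σ : StZ n, ∃ (s : ℕ) (τ : StZ n),
      τ.R = σ.R ++ List.range' σ.k s ++ σ.R ∧ τ.k = σ.k + s ∧ ∀ i < σ.k, τ.π i = σ.π i := by
    intro σ
    have h1 := mt (hnext σ.R σ.k σ.lt σ.π) σ.nn
    push Not at h1
    obtain ⟨s, hs, π', hπ, hN⟩ := h1
    refine ⟨s, ⟨σ.R ++ List.range' σ.k s ++ σ.R, σ.k + s, π', ?_, hN⟩, rfl, rfl, hπ⟩
    intro i hi
    simp only [List.mem_append, List.mem_range'_1] at hi
    rcases hi with (h | h) | h
    · have := σ.lt i h
      omega
    · exact h.2
    · have := σ.lt i h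
      omega
  choose s nx hR hk hπ using hstep
  let σ0 : StZ n := ⟨[0], 1, π, by simp, by simpa using hcon⟩
  let st : ℕ → StZ n := fun j => Nat.rec σ0 (fun _ σ => nx σ) j
  have hst0 : st 0 = σ0 := rfl
  have hst1 : ∀ j, st (j + 1) = nx (st j) := fun j => rfl
  have hcomp : ∀ j j', j ≤ j' → (st j).k ≤ (st j').k ∧ ∀ i < (st j).k, (st j').π i = (st j).π i := by
    intro j j' h
    induction j', h using Nat.le_induction with
    | base => exact ⟨le_rfl, fun _ _ => rfl⟩
    | succ m _ ih =>
      constructor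
      · rw [hst1, hk]
        exact ih.1.trans (Nat.le_add_right _ _)
      · intro i hi
        rw [hst1, hπ _ i (hi.trans_le ih.1)]
        exact ih.2 i hi
  let πi : ℕ → Bool := fun i => if h : ∃ j, i < (st j).k then (st (Nat.find h)).π i else false
  have hπi : ∀ i j, i < (st j).k → πi i = (st j).π i := by
    intro i j hij
    have h : ∃ j, i < (st j).k := ⟨j, hij⟩
    have e : πi i = (st (Nat.find h)).π i := dif_pos h
    rw [e]
    have hle : Nat.find h ≤ j := Nat.find_min' h hij
    exact ((hcomp _ _ hle).2 i (Nat.find_spec h)).symm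
  have hbad : ∀ j, Nonempty (BadZ n (st j).R (st j).π) := fun j => bad_of_not_nil_14618 (st j).nn
  let bd : ∀ j, BadZ n (st j).R (st j).π := fun j => Classical.choice (hbad j)
  let P : Type := (j : ℕ) → (bd j).A
  let g : Bool → Submodule ℚ P := fun e => Submodule.pi Set.univ (fun j => (bd j).g e)
  have hg : ∀ e (y : P), y ∈ g e ↔ ∀ j, y j ∈ (bd j).g e := by
    intro e y
    exact ⟨fun h j => h j (Set.mem_univ j), fun h j _ => h j⟩
  have hsp : SPair (n + 1) g := by
    constructor
    · intro e f x hx y hy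
      rw [hg] at *
      intro j
      exact (bd j).sp.br e f (x j) (hx j) (y j) (hy j)
    · intro z hz
      funext j
      have h1 := Sy_map_14618 (Pi.evalAlgHom ℚ (fun j => (bd j).A) j) (n + 1) z
      have h2 : (Sy (n + 1) z : P) j = Sy (n + 1) (fun i => ((z i).1, (z i).2 j)) := h1
      rw [h2]
      apply (bd j).sp.idx
      intro i
      exact (hg _ _).1 (hz i) j
  let x : ℕ → P := fun i j => if i < (st j).k then (bd j).x i else 0
  have hx : ∀ i, x i ∈ g (πi i) := by
    intro i
    rw [hg]
    intro j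
    by_cases h : i < (st j).k
    · have : x i j = (bd j).x i := if_pos h
      rw [this, hπi i j h]
      exact (bd j).hx i
    · have : x i j = 0 := if_neg h
      rw [this]
      exact Submodule.zero_mem _
  let r : ℕ → P := fun j => ((st j).R.map x).prod
  let u : ℕ → P := fun j => ((List.range' (st j).k (s (st j))).map x).prod
  have hr0 : r 0 ∈ g (πi 0) := by
    have : r 0 = x 0 := by
      change (([0] : List ℕ).map x).prod = x 0
      simp
    rw [this]
    exact hx 0
  have hu : ∀ j, u j ∈ Algebra.adjoin ℚ ((g false : Set P) ∪ (g true : Set P)) := by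
    intro j
    apply Subalgebra.list_prod_mem
    intro y hy
    rw [List.mem_map] at hy
    obtain ⟨i, _, rfl⟩ := hy
    apply Algebra.subset_adjoin
    have := hx i
    cases h : πi i
    · left
      rw [h] at this
      exact this
    · right
      rw [h] at this
      exact this
  have hrr : ∀ j, r (j + 1) = r j * u j * r j := by
    intro j
    change ((st (j + 1)).R.map x).prod = _
    rw [hst1, hR, List.map_append, List.map_append, List.prod_append, List.prod_append]
  obtain ⟨j, hj⟩ := hno P g hsp (πi 0) r u hr0 hu hrr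
  apply (bd j).ne
  have h1 : (r j) j = ((st j).R.map (fun i => x i j)).prod := by
    change (Pi.evalRingHom (fun j => (bd j).A) j) (((st j).R.map x).prod) = _
    rw [map_list_prod, List.map_map]
    rfl
  have h2 : (st j).R.map (fun i => x i j) = (st j).R.map (bd j).x := by
    apply List.map_congr_left
    intro i hi
    exact if_pos ((st j).lt i hi)
  rw [← h2, ← h1, hj]
  rfl


end Pool.Agent.Helper277.Zel.Seq
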