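import Mathlib
import Pool.Agent.Helper277.Zel.Defs
import Pool.Agent.Helper277.Zel.OccL

set_option autoImplicit false
set_option linter.unusedSectionVars false
set_option linter.all false
namespace Pool.Agent.Helper277.Zel.Step








theorem Occ.imp {A : Type} {I J : Wd A → Prop} (hIJ : ∀ w, I w → J w) {k : ℕ} {W : Wd A}
    (h : Occ I k W) : Occ J k W := by
  induction h with
  | zero W => exact Occ.zero W
  | succ k c w W hw _ ih => exact Occ.succ k c w W (hIJ w hw) ih

theorem occ_finset {A : Type} (I : List Bool → Wd A → Prop) (K : List Bool → ℕ)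
    (F : Finset (List Bool)) (V : Wd A)
    (h : Occ (fun w => ∃ s ∈ F, I s w) (∑ s ∈ F, K s + 1) V) :
    ∃ s ∈ F, Occ (I s) (K s) V := by
  classical
  induction F using Finset.induction_on with
  | empty =>
    rw [Finset.sum_empty] at h
    cases h with
    | succ k c w W hw hW =>
      obtain ⟨s, hs, -⟩ := hw
      exact absurd hs (Finset.notMem_empty s)
  | insert a F ha ih =>
    rw [Finset.sum_insert ha] at h
    have h1 : Occ (fun w => I a w ∨ ∃ s ∈ F, I s w) (K a + ∑ s ∈ F, K s + 1) V := by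
      refine Occ.imp ?_ h
      rintro w ⟨s, hs, hw⟩
      rcases Finset.mem_insert.1 hs with h2 | h2
      · rw [h2] at hw; exact Or.inl hw
      · exact Or.inr ⟨s, h2, hw⟩
    obtain ⟨k1, k2, hk, ho1, ho2⟩ := Occ.union h1
    by_cases hk1 : K a ≤ k1
    · exact ⟨a, Finset.mem_insert_self _ _, Occ.of_le hk1 ho1⟩
    · obtain ⟨s, hs, ho⟩ := ih (Occ.of_le (by omega) ho2)
      exact ⟨s, Finset.mem_insert_of_mem hs, ho⟩

theorem inst_hom {A : Type} [Ring A] [Algebra ℚ A] (g : Bool → Submodule ℚ A)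
    (ρ : ℕ → Bool × A) (s : Wd A) (hs : Hw g s) :
    List.Forall₂ (Mat g ρ) ((s.map Prod.fst).map Sum.inr) s := by
  induction s with
  | nil => exact List.Forall₂.nil
  | cons p s ih =>
    refine List.Forall₂.cons ?_ (ih fun q hq => hs q (List.mem_cons_of_mem _ hq))
    exact ⟨rfl, hs p (by simp)⟩

theorem Hw_append {A : Type} [Ring A] [Algebra ℚ A] {g : Bool → Submodule ℚ A} {v w : Wd A} :
    Hw g (v ++ w) ↔ Hw g v ∧ Hw g w := by
  unfold Hw
  constructor
  · intro h
    exact ⟨fun p hp => h p (List.mem_append_left _ hp), fun p hp => h p (List.mem_append_right _ hp)⟩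
  · rintro ⟨h1, h2⟩ p hp
    rcases List.mem_append.1 hp with h | h
    · exact h1 p h
    · exact h2 p h

theorem occ_split {A : Type} {I : Wd A → Prop} {k : ℕ} {W : Wd A} (h : Occ I (k + 1) W) :
    ∃ c w W', W = c ++ w ++ W' ∧ I w ∧ Occ I k W' := by
  cases h with
  | succ k c w W' hw hW => exact ⟨c, w, W', rfl, hw, hW⟩

theorem pair_span (n : ℕ) (T : Tpl) {A : Type} [Ring A] [Algebra ℚ A] (g : Bool → Submodule ℚ A)
    (ρ : ℕ → Bool × A) (F : Finset (List Bool)) (hF : ∀ s : List Bool, s.length ≤ n → s ∈ F)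
    (hcomp : ∀ w : Wd A, Hw g w →
      val w ∈ Submodule.span ℚ {x : A | ∃ s : Wd A, Hw g s ∧ s.length ≤ n ∧ val s = x})
    (k : ℕ) : ∀ W : Wd A, Hw g W → Occ (Inst g ρ T) (2 * k) W →
    val W ∈ Submodule.span ℚ {x : A | ∃ V : Wd A, Hw g V ∧
      Occ (fun w => ∃ s ∈ F, Inst g ρ (T ++ s.map Sum.inr ++ T) w) k V ∧ val V = x} := by
  induction k with
  | zero =>
    intro W hW _
    exact Submodule.subset_span ⟨W, hW, Occ.zero W, rfl⟩
  | succ k ih =>
    intro W hW hO
    have h2k : 2 * (k + 1) = (2 * k + 1) + 1 := by ring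
    rw [h2k] at hO
    obtain ⟨c1, w1, W1, rfl, hw1, hO1⟩ := occ_split hO
    obtain ⟨c2, w2, W2, rfl, hw2, hO2⟩ := occ_split hO1
    rw [Hw_append, Hw_append, Hw_append, Hw_append] at hW
    obtain ⟨⟨hc1, hhw1⟩, ⟨hc2, hhw2⟩, hhW2⟩ := hW
    have hx := hcomp c2 hc2
    have hy := ih W2 hhW2 hO2
    have hval : val (c1 ++ w1 ++ (c2 ++ w2 ++ W2)) =
        val (c1 ++ w1) * val c2 * val w2 * val W2 := by
      simp only [val_append, mul_assoc]
    rw [hval]
    -- linear in each variable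
    have key : ∀ x ∈ Submodule.span ℚ {x : A | ∃ s : Wd A, Hw g s ∧ s.length ≤ n ∧ val s = x},
        ∀ y ∈ Submodule.span ℚ {x : A | ∃ V : Wd A, Hw g V ∧
          Occ (fun w => ∃ s ∈ F, Inst g ρ (T ++ s.map Sum.inr ++ T) w) k V ∧ val V = x},
        val (c1 ++ w1) * x * val w2 * y ∈ Submodule.span ℚ {x : A | ∃ V : Wd A, Hw g V ∧
          Occ (fun w => ∃ s ∈ F, Inst g ρ (T ++ s.map Sum.inr ++ T) w) (k + 1) V ∧ val V = x} := by
      intro x hx y hy
      induction hx using Submodule.span_induction with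
      | zero => rw [mul_zero, zero_mul, zero_mul]; exact Submodule.zero_mem _
      | add a b _ _ ha hb =>
        rw [mul_add, add_mul, add_mul]
        exact Submodule.add_mem _ ha hb
      | smul c a _ ha =>
        rw [mul_smul_comm, smul_mul_assoc, smul_mul_assoc]
        exact Submodule.smul_mem _ c ha
      | mem x hx =>
        obtain ⟨s, hs, hsn, rfl⟩ := hx
        induction hy using Submodule.span_induction with
        | zero => rw [mul_zero]; exact Submodule.zero_mem _
        | add a b _ _ ha hb =>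
          rw [mul_add]
          exact Submodule.add_mem _ ha hb
        | smul c a _ ha =>
          rw [mul_smul_comm]
          exact Submodule.smul_mem _ c ha
        | mem y hy =>
          obtain ⟨V, hV, hOV, rfl⟩ := hy
          refine Submodule.subset_span ⟨c1 ++ (w1 ++ s ++ w2) ++ V, ?_, ?_, ?_⟩
          · rw [Hw_append, Hw_append, Hw_append, Hw_append]
            exact ⟨⟨hc1, ⟨hhw1, hs⟩, hhw2⟩, hV⟩
          · refine Occ.succ k c1 (w1 ++ s ++ w2) V ?_ hOV
            refine ⟨s.map Prod.fst, hF _ (by rw [List.length_map]; exact hsn), ?_⟩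
            exact List.rel_append (List.rel_append hw1 (inst_hom g ρ s hs)) hw2
          · simp only [val_append, mul_assoc]
    exact key _ hx _ hy

/-- TARGET: pair up instances of `T`, compress the connecting words. -/
theorem step_nil (n : ℕ) (T : Tpl) (π : ℕ → Bool)
    (hcomp : ∀ (A : Type) [Ring A] [Algebra ℚ A] (g : Bool → Submodule ℚ A), SPair (n + 1) g →
      ∀ w : Wd A, Hw g w →
      val w ∈ Submodule.span ℚ {x : A | ∃ s : Wd A, Hw g s ∧ s.length ≤ n ∧ val s = x})
    (h : ∀ s : List Bool, s.length ≤ n → Nil (n + 1) (T ++ s.map Sum.inr ++ T) π) :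
    Nil (n + 1) T π := by
  classical
  have h' : ∀ s : List Bool, ∃ K : ℕ, s.length ≤ n →
      ∀ (A : Type) [Ring A] [Algebra ℚ A] (g : Bool → Submodule ℚ A), SPair (n + 1) g →
      ∀ ρ : ℕ → Bool × A, (∀ k, (ρ k).1 = π k ∧ (ρ k).2 ∈ g (ρ k).1) →
      ∀ W : Wd A, Hw g W → Occ (Inst g ρ (T ++ s.map Sum.inr ++ T)) K W → val W = 0 := by
    intro s
    by_cases hs : s.length ≤ n
    · obtain ⟨K, hK⟩ := h s hs
      exact ⟨K, fun _ => hK⟩
    · exact ⟨0, fun h2 => absurd h2 hs⟩
  choose K hK using h'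
  set F : Finset (List Bool) := (List.finite_length_le Bool n).toFinset with hFdef
  have hF : ∀ s : List Bool, s ∈ F ↔ s.length ≤ n := by
    intro s
    rw [hFdef, Set.Finite.mem_toFinset]
    rfl
  refine ⟨2 * (∑ s ∈ F, K s + 1), ?_⟩
  intro A _ _ g hsp ρ hρ W hW hO
  have h1 := pair_span n T g ρ F (fun s hs => (hF s).2 hs) (fun w hw => hcomp A g hsp w hw)
    (∑ s ∈ F, K s + 1) W hW hO
  have h2 : Submodule.span ℚ {x : A | ∃ V : Wd A, Hw g V ∧
      Occ (fun w => ∃ s ∈ F, Inst g ρ (T ++ s.map Sum.inr ++ T) w) (∑ s ∈ F, K s + 1) V ∧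
        val V = x} ≤ ⊥ := by
    rw [Submodule.span_le]
    rintro x ⟨V, hV, hOV, rfl⟩
    obtain ⟨s, hs, ho⟩ := occ_finset (fun s w => Inst g ρ (T ++ s.map Sum.inr ++ T) w) K F V hOV
    exact hK s ((hF s).1 hs) A g hsp ρ hρ V hV ho
  exact (Submodule.mem_bot ℚ).1 (h2 h1)


end Pool.Agent.Helper277.Zel.Step
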