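import Mathlib
import Pool.Agent.Helper277.Zel.Core
import Pool.Agent.Helper277.Zel.Step
import Pool.Agent.Helper277.Zel.Next
import Pool.Agent.Helper277.Zel.Seq
import Pool.Agent.Helper277.Zel.Final
import Pool.Agent.Helper277.Zel.Lie
import Pool.Agent.Helper277.Zel.Lie2
import Pool.Agent.Helper277.Zel.Nomseq

set_option autoImplicit false
namespace Pool.Agent.Helper277.Zel

theorem GG_step (n : ℕ) (hn : 1 ≤ n) (hG : GG n) : GG (n + 1) := by
  have hbind : ∀ (T1 T2 : Tpl) (ε : Bool) (k : ℕ), Sum.inl k ∉ T1 → Sum.inl k ∉ T2 →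
      ∀ π : ℕ → Bool, Nil (n + 1) (T1 ++ [Sum.inl k] ++ T2) (Function.update π k ε) →
      Nil (n + 1) (T1 ++ [Sum.inl k] ++ T2) (Function.update π k (!ε)) →
      Nil (n + 1) (T1 ++ [Sum.inr ε] ++ T2) π :=
    fun T1 T2 ε k h1 h2 π h3 h4 => bind' (n + 1) T1 T2 ε k h1 h2 π h3 h4
  refine Final.GG_succ_of_nil n hbind ?_
  intro π
  refine Seq.nil_zero n ?_ ?_ π
  · intro R k hR π h
    refine Next.next_nil n hbind ?_ R k hR π h
    intro T π h
    exact Step.step_nil n T π (fun A _ _ g hg => Compress.compress n g hg) h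
  · intro A _ _ g hg e r u h0 hu hr
    exact Nomseq.no_mseq n (fun A _ _ _ g hg h1 h2 => prime' n hn hG A g hg h1 h2)
      (fun A _ _ r u h1 h2 => Primeq.exists_prime_quot A r u h1 h2) A g hg e r u h0 hu hr

/-- Every super pair of index `n` over `ℚ` is nilpotent, with a bound depending only on `n`. -/
theorem GG_all : ∀ n : ℕ, GG n := by
  intro n
  induction n with
  | zero => exact Final.GG_zero
  | succ n ih =>
    rcases Nat.eq_zero_or_pos n with h | h
    · subst h
      exact Final.GG_one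
    · exact GG_step n h ih

/-- **Zelmanov's theorem** in characteristic zero: `n`-Engel Lie algebras over `ℚ` are nilpotent of
class bounded by a function of `n`. -/
theorem zelmanov_global (n : ℕ) : ∃ c : ℕ, ∀ (L : Type) [LieRing L] [LieAlgebra ℚ L],
    (∀ u : L, (LieAlgebra.ad ℚ L u) ^ n = 0) →
    LieModule.lowerCentralSeries ℚ L L c = ⊥ :=
  Lie2.lie_nilp n (GG_all n)
    (fun A _ _ n z k h => Lie.sy_zero_letter n z k h)
    (fun A _ _ n V hV z hz => Lie.sy_even_zero n V hV z hz)

end Pool.Agent.Helper277.Zel
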