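import Mathlib
import Pool.Agent.Helper277.Zel.Defs

set_option autoImplicit false
set_option linter.unusedSectionVars false
set_option linter.all false
namespace Pool.Agent.Helper277.Zel.Normext



theorem sy_const {A : Type} [Ring A] [Algebra ℚ A] (x : A) (n : ℕ) :
    Sy n (fun _ => (false, x)) = (n.factorial : ℚ) • x ^ n := by
  induction n with
  | zero => simp [Sy]
  | succ n ih =>
    simp only [Sy, sg_false_left, Finset.prod_const_one, one_smul, ih]
    rw [Finset.sum_const, Finset.card_univ, Fintype.card_fin, mul_smul_comm, ← pow_succ',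
      Nat.factorial_succ, ← Nat.cast_smul_eq_nsmul ℚ, smul_smul]
    push_cast
    rfl

/-- filtration -/
def VV {A : Type} [Ring A] [Algebra ℚ A] (h : Bool → Submodule ℚ A) (x : A) (c : ℕ) :
    Submodule ℚ A :=
  Submodule.span ℚ {y | ∃ (w : Wd A) (a : ℕ), Hw h w ∧ c ≤ w.length ∧ y = val w * x ^ a}

theorem VV_mono {A : Type} [Ring A] [Algebra ℚ A] (h : Bool → Submodule ℚ A) (x : A) {c d : ℕ}
    (hcd : c ≤ d) : VV h x d ≤ VV h x c := by
  apply Submodule.span_mono
  rintro y ⟨w, a, h1, h2, h3⟩
  exact ⟨w, a, h1, hcd.trans h2, h3⟩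

theorem VV_left {A : Type} [Ring A] [Algebra ℚ A] (h : Bool → Submodule ℚ A) (x : A) (c : ℕ)
    (f : Bool) (z : A) (hz : z ∈ h f) (v : A) (hv : v ∈ VV h x c) : z * v ∈ VV h x (c + 1) := by
  refine Submodule.span_induction (p := fun y _ => z * y ∈ VV h x (c + 1)) ?_ ?_ ?_ ?_ hv
  · rintro y ⟨w, a, h1, h2, rfl⟩
    apply Submodule.subset_span
    refine ⟨(f, z) :: w, a, ?_, by simpa using h2, by rw [val_cons, mul_assoc]⟩
    intro p hp
    rcases List.mem_cons.1 hp with rfl | hp
    · exact hz
    · exact h1 p hp
  · rw [mul_zero]; exact Submodule.zero_mem _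
  · intro a b _ _ ha hb; rw [mul_add]; exact Submodule.add_mem _ ha hb
  · intro c a _ ha; rw [mul_smul_comm]; exact Submodule.smul_mem _ _ ha

theorem VV_x {A : Type} [Ring A] [Algebra ℚ A] (h : Bool → Submodule ℚ A) (e : Bool) (x : A)
    (hnorm : ∀ f : Bool, ∀ z ∈ h f, x * z - sg e f • (z * x) ∈ h (xor e f)) (c : ℕ)
    (v : A) (hv : v ∈ VV h x c) : x * v ∈ VV h x c := by
  have key : ∀ w : Wd A, Hw h w → ∀ a : ℕ, x * (val w * x ^ a) ∈ VV h x w.length := by
    intro w
    induction w with
    | nil =>
      intro _ a
      apply Submodule.subset_span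
      refine ⟨[], a + 1, by intro p hp; simp at hp, by simp, ?_⟩
      rw [val_nil, one_mul, one_mul, pow_succ']
    | cons p w ih =>
      intro hw a
      obtain ⟨f, z⟩ := p
      have hz : z ∈ h f := hw (f, z) (by simp)
      have hw' : Hw h w := fun q hq => hw q (List.mem_cons_of_mem _ hq)
      have e1 : x * (val ((f, z) :: w) * x ^ a) =
          (x * z - sg e f • (z * x)) * (val w * x ^ a) + sg e f • (z * (x * (val w * x ^ a))) := by
        rw [val_cons, sub_mul, smul_mul_assoc]
        simp only [mul_assoc]
        abel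
      rw [e1]
      apply Submodule.add_mem
      · have h1 : val w * x ^ a ∈ VV h x w.length :=
          Submodule.subset_span ⟨w, a, hw', le_rfl, rfl⟩
        exact VV_left h x _ _ _ (hnorm f z hz) _ h1
      · apply Submodule.smul_mem
        exact VV_left h x _ f z hz _ (ih hw' a)
  refine Submodule.span_induction (p := fun y _ => x * y ∈ VV h x c) ?_ ?_ ?_ ?_ hv
  · rintro y ⟨w, a, h1, h2, rfl⟩
    exact VV_mono h x h2 (key w h1 a)
  · rw [mul_zero]; exact Submodule.zero_mem _
  · intro a b _ _ ha hb; rw [mul_add]; exact Submodule.add_mem _ ha hb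
  · intro c a _ ha; rw [mul_smul_comm]; exact Submodule.smul_mem _ _ ha

theorem VV_xpow {A : Type} [Ring A] [Algebra ℚ A] (h : Bool → Submodule ℚ A) (e : Bool) (x : A)
    (hnorm : ∀ f : Bool, ∀ z ∈ h f, x * z - sg e f • (z * x) ∈ h (xor e f)) (c : ℕ)
    (v : A) (hv : v ∈ VV h x c) (n : ℕ) : x ^ n * v ∈ VV h x c := by
  induction n with
  | zero => simpa using hv
  | succ n ih =>
    rw [pow_succ', mul_assoc]
    exact VV_x h e x hnorm c _ ih

theorem VV_zero {A : Type} [Ring A] [Algebra ℚ A] (h : Bool → Submodule ℚ A) (x : A) (M : ℕ)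
    (hM : NilIdx h M) (v : A) (hv : v ∈ VV h x M) : v = 0 := by
  have : VV h x M ≤ ⊥ := by
    unfold VV
    rw [Submodule.span_le]
    rintro y ⟨w, a, h1, h2, rfl⟩
    have e1 : val w = val (w.take M) * val (w.drop M) := by
      rw [← val_append, List.take_append_drop]
    have e2 : val (w.take M) = 0 :=
      hM _ (fun p hp => h1 p (List.mem_of_mem_take hp)) (by simp [h2])
    rw [e1, e2]
    simp
  have h2 := this hv
  simpa using h2

/-- TARGET: adjoining a normalising element keeps nilpotency. -/
theorem norm_ext {A : Type} [Ring A] [Algebra ℚ A] (m : ℕ) (g : Bool → Submodule ℚ A)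
    (hg : SPair (m + 1) g) (h : Bool → Submodule ℚ A) (hle : ∀ e, h e ≤ g e) (hcl : Cl h) (M : ℕ)
    (hM : NilIdx h M) (e : Bool) (x : A) (hx : x ∈ g e)
    (hnorm : ∀ f : Bool, ∀ z ∈ h f, x * z - sg e f • (z * x) ∈ h (xor e f))
    (hodd : e = true → x * x ∈ h false) :
    ∃ h' : Bool → Submodule ℚ A, (∀ f, h f ≤ h' f) ∧ x ∈ h' e ∧ (∀ f, h' f ≤ g f) ∧ Cl h' ∧
      ∃ k, NilIdx h' k := by
  have hdec : ∀ f y, y ∈ (fun f => h f ⊔ (if f = e then Submodule.span ℚ {x} else ⊥)) f →
      ∃ z ∈ h f, ∃ c : ℚ, (c = 0 ∨ f = e) ∧ y = z + c • x := by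
    intro f y hy
    simp only at hy
    split_ifs at hy with hfe
    · obtain ⟨z, hz, u, hu, rfl⟩ := Submodule.mem_sup.1 hy
      obtain ⟨c, rfl⟩ := Submodule.mem_span_singleton.1 hu
      exact ⟨z, hz, c, Or.inr hfe, rfl⟩
    · rw [sup_bot_eq] at hy
      exact ⟨y, hy, 0, Or.inl rfl, by simp⟩
  refine ⟨fun f => h f ⊔ (if f = e then Submodule.span ℚ {x} else ⊥), fun f => le_sup_left, ?_, ?_,
    ?_, ?_⟩
  · apply Submodule.mem_sup_right
    rw [if_pos rfl]
    exact Submodule.mem_span_singleton_self x
  · intro f
    apply sup_le (hle f)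
    split_ifs with hfe
    · subst hfe
      rw [Submodule.span_singleton_le_iff_mem]; exact hx
    · exact bot_le
  · intro a b y hy y' hy'
    obtain ⟨z, hz, c, hc, rfl⟩ := hdec a y hy
    obtain ⟨z', hz', c', hc', rfl⟩ := hdec b y' hy'
    apply Submodule.mem_sup_left
    have e1 : (z + c • x) * (z' + c' • x) - sg a b • ((z' + c' • x) * (z + c • x)) =
        (z * z' - sg a b • (z' * z)) + c' • (z * x - sg a b • (x * z)) +
        c • (x * z' - sg a b • (z' * x)) + (c * c') • (x * x - sg a b • (x * x)) := by
      simp only [mul_add, add_mul, mul_smul_comm, smul_mul_assoc]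
      module
    rw [e1]
    apply Submodule.add_mem
    · apply Submodule.add_mem
      · apply Submodule.add_mem
        · exact hcl a b z hz z' hz'
        · rcases hc' with rfl | rfl
          · rw [zero_smul]; exact Submodule.zero_mem _
          · apply Submodule.smul_mem
            have h1 := hnorm a z hz
            have e2 : z * x - sg a b • (x * z) = (-(sg a b)) • (x * z - sg b a • (z * x)) := by
              rw [smul_sub, smul_smul, sg_comm b a]
              have := sg_mul_self a b
              rw [show -sg a b * sg a b = -1 by linarith]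
              module
            rw [e2, Bool.xor_comm]
            exact Submodule.smul_mem _ _ h1
      · rcases hc with rfl | rfl
        · rw [zero_smul]; exact Submodule.zero_mem _
        · exact Submodule.smul_mem _ _ (hnorm b z' hz')
    · rcases hc with rfl | rfl
      · rw [zero_mul, zero_smul]; exact Submodule.zero_mem _
      · rcases hc' with rfl | rfl
        · rw [mul_zero, zero_smul]; exact Submodule.zero_mem _
        · cases b with
          | false =>
            simp [sg]
          | true =>
            apply Submodule.smul_mem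
            have e3 : x * x - sg true true • (x * x) = (2 : ℚ) • (x * x) := by
              simp only [sg, Bool.and_self, if_true]
              module
            rw [e3]
            exact Submodule.smul_mem _ _ (hodd rfl)
  · -- nilpotency
    have hs : ∃ s : ℕ, ∀ c, ∀ v ∈ VV h x c, x ^ s * v ∈ VV h x (c + 1) := by
      cases e with
      | false =>
        refine ⟨m + 1, fun c v hv => ?_⟩
        have h1 := hg.idx (fun _ => (false, x)) (fun _ => hx)
        rw [sy_const] at h1
        have h2 : x ^ (m + 1) = 0 := by
          rcases smul_eq_zero.1 h1 with h2 | h2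
          · exact absurd (by exact_mod_cast h2) (Nat.factorial_ne_zero (m + 1))
          · exact h2
        rw [h2, zero_mul]
        exact Submodule.zero_mem _
      | true =>
        refine ⟨2, fun c v hv => ?_⟩
        rw [pow_two]
        exact VV_left h x c false _ (hodd rfl) v hv
    obtain ⟨s, hs⟩ := hs
    set h' : Bool → Submodule ℚ A :=
      fun f => h f ⊔ (if f = e then Submodule.span ℚ {x} else ⊥) with hh'
    have hletter : ∀ f y, y ∈ h' f → ∀ c, ∀ v ∈ VV h x c, y * v ∈ VV h x c := by
      intro f y hy c v hv
      obtain ⟨z, hz, k, -, rfl⟩ := hdec f y hy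
      rw [add_mul, smul_mul_assoc]
      apply Submodule.add_mem
      · exact VV_mono h x (Nat.le_succ c) (VV_left h x c f z hz v hv)
      · exact Submodule.smul_mem _ _ (VV_x h e x hnorm c v hv)
    have hexp : ∀ w : Wd A, Hw h' w → ∀ c, ∀ v ∈ VV h x c, ∃ κ : ℚ,
        val w * v - κ • (x ^ w.length * v) ∈ VV h x (c + 1) := by
      intro w
      induction w with
      | nil =>
        intro _ c v _
        refine ⟨1, ?_⟩
        simp [val_nil]
      | cons p w ih =>
        intro hw c v hv
        obtain ⟨f, y⟩ := p
        have hy : y ∈ h' f := hw (f, y) (by simp)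
        have hw' : Hw h' w := fun q hq => hw q (List.mem_cons_of_mem _ hq)
        obtain ⟨κ, hκ⟩ := ih hw' c v hv
        obtain ⟨z, hz, k, -, hyz⟩ := hdec f y hy
        refine ⟨κ * k, ?_⟩
        have e1 : val ((f, y) :: w) * v - (κ * k) • (x ^ ((f, y) :: w).length * v) =
            y * (val w * v - κ • (x ^ w.length * v)) + κ • (z * (x ^ w.length * v)) := by
          rw [val_cons, List.length_cons, pow_succ']
          change y * val w * v - _ = _
          rw [mul_sub, mul_assoc, mul_smul_comm]
          have e2 : y * (x ^ w.length * v) = z * (x ^ w.length * v) +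
              k • (x * (x ^ w.length * v)) := by
            rw [hyz, add_mul, smul_mul_assoc]
          rw [e2]
          simp only [mul_assoc]
          module
        rw [e1]
        apply Submodule.add_mem
        · exact hletter f y hy _ _ hκ
        · apply Submodule.smul_mem
          exact VV_left h x c f z hz _ (VV_xpow h e x hnorm c v hv _)
    have hstep : ∀ w : Wd A, Hw h' w → w.length = s → ∀ c, ∀ v ∈ VV h x c,
        val w * v ∈ VV h x (c + 1) := by
      intro w hw hl c v hv
      obtain ⟨κ, hκ⟩ := hexp w hw c v hv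
      have h1 := Submodule.add_mem _ hκ (Submodule.smul_mem _ κ (hs c v hv))
      rw [hl] at h1
      simpa using h1
    have hall : ∀ j : ℕ, ∀ w : Wd A, Hw h' w → w.length = s * j → ∀ c, ∀ v ∈ VV h x c,
        val w * v ∈ VV h x (c + j) := by
      intro j
      induction j with
      | zero =>
        intro w hw hl c v hv
        rw [mul_zero, List.length_eq_zero_iff] at hl
        subst hl
        simpa [val_nil] using hv
      | succ j ih =>
        intro w hw hl c v hv
        have e1 : val w = val (w.take s) * val (w.drop s) := by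
          rw [← val_append, List.take_append_drop]
        rw [e1, mul_assoc, ← add_assoc]
        apply hstep
        · exact fun p hp => hw p (List.mem_of_mem_take hp)
        · rw [List.length_take, hl, mul_add, mul_one]; omega
        · apply ih
          · exact fun p hp => hw p (List.mem_of_mem_drop hp)
          · rw [List.length_drop, hl, mul_add, mul_one]; omega
          · exact hv
    refine ⟨s * M, fun w hw hl => ?_⟩
    have h1 : (1 : A) ∈ VV h x 0 := by
      apply Submodule.subset_span
      refine ⟨[], 0, by intro p hp; simp at hp, by simp, by simp [val_nil]⟩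
    have h2 := hall M w hw hl 0 1 h1
    rw [mul_one, zero_add] at h2
    exact VV_zero h x M hM _ h2


end Pool.Agent.Helper277.Zel.Normext
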